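import Mathlib
import Pool.Agent.H508R3.AT.Stmts

set_option autoImplicit false

namespace Pool.Agent.H345R3.AT5

open MeasureTheory Polynomial
open Pool.Agent.H695R3.AT
open Pool.Agent.H508R3.AT

variable {s : ℕ → ℕ}

/-- the polynomial with the energies of a shell as zeros -/
noncomputable def QQ (lam : ℝ) (v : Om s) (n : ℕ) : ℝ[X] :=
  ∏ i : Fin (s n), (X - C (lam * v ⟨n, i⟩))

theorem QQ_monic (lam : ℝ) (v : Om s) (n : ℕ) : (QQ lam v n).Monic :=
  monic_prod_X_sub_C _ _

theorem QQ_natDegree (lam : ℝ) (v : Om s) (n : ℕ) : (QQ lam v n).natDegree = s n := by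
  unfold QQ
  rw [natDegree_prod_of_monic _ _ (fun i _ => monic_X_sub_C _)]
  simp only [natDegree_X_sub_C]
  simp

theorem QQ_der_ne (hs : ∀ n, 0 < s n) (lam : ℝ) (v : Om s) (n : ℕ) :
    derivative (QQ lam v n) ≠ 0 := by
  intro h
  have := natDegree_eq_zero_of_derivative_eq_zero h
  rw [QQ_natDegree] at this
  exact (hs n).ne' this

theorem YY_eq (lam : ℝ) (v : Om s) (n : ℕ) (E : ℝ) (h : eval E (QQ lam v n) ≠ 0) :
    YY s lam v n E = eval E (derivative (QQ lam v n)) / (s n * eval E (QQ lam v n)) := by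
  classical
  have h1 : eval E (derivative (QQ lam v n)) =
      eval E (QQ lam v n) * ∑ i : Fin (s n), (E - lam * v ⟨n, i⟩)⁻¹ := by
    unfold QQ at h ⊢
    rw [derivative_prod_finset, eval_finset_sum, Finset.mul_sum]
    refine Finset.sum_congr rfl fun i _ => ?_
    rw [eval_prod] at h
    have h2 : ∀ j ∈ Finset.univ, eval E (X - C (lam * v ⟨n, j⟩)) ≠ 0 :=
      Finset.prod_ne_zero_iff.1 h
    have h3 := h2 i (Finset.mem_univ i)
    rw [eval_mul, eval_prod, eval_prod, derivative_X_sub_C, eval_one, mul_one,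
      ← Finset.mul_prod_erase Finset.univ _ (Finset.mem_univ i)]
    rw [eval_sub, eval_X, eval_C] at h3 ⊢
    field_simp
  unfold YY
  rw [h1, mul_comm (s n : ℝ), mul_div_mul_left _ _ h]

/-- numerators of the first column -/
noncomputable def PR (s : ℕ → ℕ) (lam : ℝ) (v : Om s) : ℕ → ℝ[X] × ℝ[X]
  | 0 => (1, 0)
  | n + 1 => (C (s n : ℝ) * QQ lam v n * (PR s lam v n).1 -
      derivative (QQ lam v n) * (PR s lam v n).2, derivative (QQ lam v n) * (PR s lam v n).1)

theorem PR_deg (hs : ∀ n, 0 < s n) (lam : ℝ) (v : Om s) (n : ℕ) :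
    (PR s lam v n).1 ≠ 0 ∧ (PR s lam v n).2.degree < (PR s lam v n).1.degree := by
  induction n with
  | zero => simp [PR]
  | succ n ih =>
    obtain ⟨ih1, ih2⟩ := ih
    have hsn : (s n : ℝ) ≠ 0 := by exact_mod_cast (hs n).ne'
    set A := C (s n : ℝ) * QQ lam v n * (PR s lam v n).1 with hA
    set B := derivative (QQ lam v n) * (PR s lam v n).2 with hB
    have hQ : QQ lam v n ≠ 0 := (QQ_monic lam v n).ne_zero
    have hAd : A.degree = (QQ lam v n).degree + (PR s lam v n).1.degree := by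
      rw [hA, degree_mul, degree_mul, degree_C hsn, zero_add]
    have hPd : (PR s lam v n).1.degree ≠ ⊥ := degree_ne_bot.2 ih1
    have hlt : (derivative (QQ lam v n)).degree + (PR s lam v n).1.degree < A.degree := by
      rw [hAd]
      exact WithBot.add_lt_add_right hPd (degree_derivative_lt hQ)
    have hBd : B.degree < A.degree := by
      rw [hB, degree_mul]
      exact lt_of_le_of_lt (add_le_add le_rfl ih2.le) hlt
    have hAne : A ≠ 0 := mul_ne_zero (mul_ne_zero (C_ne_zero.2 hsn) hQ) ih1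
    have hd : (A - B).degree = A.degree := degree_sub_eq_left_of_degree_lt hBd
    refine ⟨?_, ?_⟩
    · show A - B ≠ 0
      rw [← degree_ne_bot, hd, degree_ne_bot]
      exact hAne
    · show (derivative (QQ lam v n) * (PR s lam v n).1).degree < (A - B).degree
      rw [hd, degree_mul]
      exact hlt

theorem TT_eq (hs : ∀ n, 0 < s n) (lam : ℝ) (v : Om s) (E : ℝ) (n : ℕ)
    (h : ∀ j < n, eval E (QQ lam v j) ≠ 0 ∧ eval E (derivative (QQ lam v j)) ≠ 0) :
    (TT s lam v E 0 n) 0 0 = eval E (PR s lam v n).1 /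
      ∏ j ∈ Finset.range n, eval E (derivative (QQ lam v j)) ∧
    (TT s lam v E 0 n) 1 0 = eval E (PR s lam v n).2 /
      ∏ j ∈ Finset.range n, eval E (derivative (QQ lam v j)) := by
  induction n with
  | zero => simp [TT, PR]
  | succ n ih =>
    obtain ⟨ih1, ih2⟩ := ih fun j hj => h j (hj.trans (Nat.lt_succ_self n))
    obtain ⟨h1, h2⟩ := h n (Nat.lt_succ_self n)
    have hsn : (s n : ℝ) ≠ 0 := by exact_mod_cast (hs n).ne'
    have hD : (∏ j ∈ Finset.range n, eval E (derivative (QQ lam v j))) ≠ 0 :=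
      Finset.prod_ne_zero_iff.2 fun j hj => (h j ((Finset.mem_range.1 hj).trans
        (Nat.lt_succ_self n))).2
    have e0 : (TT s lam v E 0 (n + 1)) 0 0 =
        (YY s lam v n E)⁻¹ * (TT s lam v E 0 n) 0 0 - (TT s lam v E 0 n) 1 0 := by
      simp only [TT, Matrix.mul_apply, Fin.sum_univ_two, Mh, Matrix.of_apply, Matrix.cons_val',
        Matrix.cons_val_fin_one, zero_add]
      simp
      ring
    have e1 : (TT s lam v E 0 (n + 1)) 1 0 = (TT s lam v E 0 n) 0 0 := by
      simp only [TT, Matrix.mul_apply, Fin.sum_univ_two, Mh, Matrix.of_apply, Matrix.cons_val',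
        Matrix.cons_val_fin_one, zero_add]
      simp
    rw [e0, e1, ih1, ih2, YY_eq lam v n E h1, Finset.prod_range_succ]
    constructor
    · show _ = eval E (C (s n : ℝ) * QQ lam v n * (PR s lam v n).1 -
        derivative (QQ lam v n) * (PR s lam v n).2) / _
      rw [eval_sub, eval_mul, eval_mul, eval_mul, eval_C]
      field_simp
    · show _ = eval E (derivative (QQ lam v n) * (PR s lam v n).1) / _
      rw [eval_mul]
      field_simp

theorem W_ne (Q R : ℝ[X]) (hQ : Q.Monic) (hR : R.Monic) (m : ℕ) (hm : 0 < m)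
    (hQm : Q.natDegree = m) (hRm : R.natDegree = m) (hne : Q ≠ R) :
    derivative Q * R - Q * derivative R ≠ 0 := by
  intro h
  set D := Q - R with hD
  have hD0 : D ≠ 0 := sub_ne_zero.2 hne
  have hRd : derivative R ≠ 0 := by
    intro h'
    have := natDegree_eq_zero_of_derivative_eq_zero h'
    omega
  have h1 : derivative D * R = D * derivative R := by
    have : derivative Q * R = Q * derivative R := sub_eq_zero.1 h
    rw [hD, derivative_sub, sub_mul, sub_mul, this, mul_comm (derivative R) R]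
  have h2 : D.natDegree < m := by
    have h3 : D.degree < Q.degree := by
      apply degree_sub_lt
      · rw [degree_eq_natDegree hQ.ne_zero, degree_eq_natDegree hR.ne_zero, hQm, hRm]
      · exact hQ.ne_zero
      · rw [hQ.leadingCoeff, hR.leadingCoeff]
    rw [← hQm]
    exact natDegree_lt_natDegree hD0 h3
  have h3 := congrArg leadingCoeff h1
  rw [leadingCoeff_mul, leadingCoeff_mul, leadingCoeff_derivative, leadingCoeff_derivative,
    hR.leadingCoeff, hRm] at h3
  have h4 : D.leadingCoeff ≠ 0 := leadingCoeff_ne_zero.2 hD0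
  have h5 : (D.natDegree : ℝ) = m := by
    have h6 : D.leadingCoeff * (D.natDegree : ℝ) = D.leadingCoeff * m := by
      linarith
    exact mul_left_cancel₀ h4 h6
  have h6 : D.natDegree = m := by exact_mod_cast h5
  omega

theorem t5 : T5 := by
  intro s hs lam hlam N g g' hgg hsum
  -- the polynomials
  have hcol : ∀ E, TT s lam g E 0 N = TT s lam g' E 0 N := fun E =>
    TT_congr lam E 0 N fun x _ hx => hgg x (by omega)
  have hne : QQ lam g N ≠ QQ lam g' N := by
    intro h
    have h1 := congrArg nextCoeff h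
    unfold QQ at h1
    rw [prod_X_sub_C_nextCoeff, prod_X_sub_C_nextCoeff, neg_inj, ← Finset.mul_sum,
      ← Finset.mul_sum] at h1
    exact hsum (mul_left_cancel₀ hlam h1)
  have hW := W_ne (QQ lam g N) (QQ lam g' N) (QQ_monic _ _ _) (QQ_monic _ _ _) (s N) (hs N)
    (QQ_natDegree _ _ _) (QQ_natDegree _ _ _) hne
  set W := derivative (QQ lam g N) * QQ lam g' N - QQ lam g N * derivative (QQ lam g' N) with hWdef
  set Z : ℝ[X] := (∏ j ∈ Finset.range (N + 1), (QQ lam g j * derivative (QQ lam g j))) *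
    (∏ j ∈ Finset.range (N + 1), (QQ lam g' j * derivative (QQ lam g' j))) *
      ((PR s lam g N).1 * W) with hZ
  have hZ0 : Z ≠ 0 := by
    refine mul_ne_zero (mul_ne_zero ?_ ?_) (mul_ne_zero (PR_deg hs lam g N).1 hW)
    · exact Finset.prod_ne_zero_iff.2 fun j _ => mul_ne_zero (QQ_monic _ _ _).ne_zero
        (QQ_der_ne hs _ _ _)
    · exact Finset.prod_ne_zero_iff.2 fun j _ => mul_ne_zero (QQ_monic _ _ _).ne_zero
        (QQ_der_ne hs _ _ _)
  have hfin : {E : ℝ | IsRoot Z E}.Finite := finite_setOf_isRoot hZ0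
  have hae : ∀ᵐ E : ℝ, ¬ IsRoot Z E := by
    rw [ae_iff]
    simpa using hfin.measure_zero volume
  filter_upwards [hae] with E hE
  rw [IsRoot.def, hZ, eval_mul, eval_mul, eval_mul, eval_prod, eval_prod] at hE
  have hE1 := left_ne_zero_of_mul (left_ne_zero_of_mul hE)
  have hE2 := right_ne_zero_of_mul (left_ne_zero_of_mul hE)
  have hE3 := left_ne_zero_of_mul (right_ne_zero_of_mul hE)
  have hE4 := right_ne_zero_of_mul (right_ne_zero_of_mul hE)
  have hg : ∀ j < N + 1, eval E (QQ lam g j) ≠ 0 ∧ eval E (derivative (QQ lam g j)) ≠ 0 := by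
    intro j hj
    have := Finset.prod_ne_zero_iff.1 hE1 j (Finset.mem_range.2 hj)
    rw [eval_mul] at this
    exact ⟨left_ne_zero_of_mul this, right_ne_zero_of_mul this⟩
  have hg' : ∀ j < N + 1, eval E (QQ lam g' j) ≠ 0 ∧ eval E (derivative (QQ lam g' j)) ≠ 0 := by
    intro j hj
    have := Finset.prod_ne_zero_iff.1 hE2 j (Finset.mem_range.2 hj)
    rw [eval_mul] at this
    exact ⟨left_ne_zero_of_mul this, right_ne_zero_of_mul this⟩
  have hp : (TT s lam g E 0 N) 0 0 ≠ 0 := by
    rw [(TT_eq hs lam g E N fun j hj => hg j (by omega)).1]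
    exact div_ne_zero hE3 (Finset.prod_ne_zero_iff.2 fun j hj =>
      (hg j (by have := Finset.mem_range.1 hj; omega)).2)
  have hsN : (s N : ℝ) ≠ 0 := by exact_mod_cast (hs N).ne'
  have hh : (YY s lam g N E)⁻¹ ≠ (YY s lam g' N E)⁻¹ := by
    intro h
    have h1 := inv_injective h
    obtain ⟨a1, a2⟩ := hg N (Nat.lt_succ_self N)
    obtain ⟨b1, b2⟩ := hg' N (Nat.lt_succ_self N)
    rw [YY_eq lam g N E a1, YY_eq lam g' N E b1, div_eq_div_iff (mul_ne_zero hsN a1)
      (mul_ne_zero hsN b1)] at h1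
    apply hE4
    rw [hWdef, eval_sub, eval_mul, eval_mul, sub_eq_zero]
    apply mul_left_cancel₀ hsN
    linarith
  have e0 : ∀ v : Om s, (TT s lam v E 0 (N + 1)) 0 0 =
      (YY s lam v N E)⁻¹ * (TT s lam v E 0 N) 0 0 - (TT s lam v E 0 N) 1 0 := by
    intro v
    simp only [TT, Matrix.mul_apply, Fin.sum_univ_two, Mh, Matrix.of_apply, Matrix.cons_val',
      Matrix.cons_val_fin_one, zero_add]
    simp
    ring
  have e1 : ∀ v : Om s, (TT s lam v E 0 (N + 1)) 1 0 = (TT s lam v E 0 N) 0 0 := by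
    intro v
    simp only [TT, Matrix.mul_apply, Fin.sum_univ_two, Mh, Matrix.of_apply, Matrix.cons_val',
      Matrix.cons_val_fin_one, zero_add]
    simp
  rw [e0, e0, e1, e1, ← hcol E]
  have e2 : ((YY s lam g N E)⁻¹ * (TT s lam g E 0 N) 0 0 - (TT s lam g E 0 N) 1 0) *
      (TT s lam g E 0 N) 0 0 - (TT s lam g E 0 N) 0 0 *
      ((YY s lam g' N E)⁻¹ * (TT s lam g E 0 N) 0 0 - (TT s lam g E 0 N) 1 0) =
      ((YY s lam g N E)⁻¹ - (YY s lam g' N E)⁻¹) * (TT s lam g E 0 N) 0 0 ^ 2 := by ring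
  rw [e2]
  exact mul_ne_zero (sub_ne_zero.2 hh) (pow_ne_zero 2 hp)

end Pool.Agent.H345R3.AT5

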