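import Mathlib
import Pool.Agent.H345R3.Holo

/-!
Complexification of real `ℓ₂`: the embedding `io`, the bilinear form `B`, the tail operators `T n`.
-/

set_option autoImplicit false

noncomputable section

open Filter Topology
open scoped ENNReal ComplexConjugate

namespace Pool.Agent.H345R3.L2

/-- real `ℓ₂` -/
abbrev H := lp (fun _ : ℕ => ℝ) 2
/-- complex `ℓ₂` -/
abbrev HC := lp (fun _ : ℕ => ℂ) 2

/-- the tail operator over any scalar field -/
def tl {K : Type} [RCLike K] (n : ℕ) (z : lp (fun _ : ℕ => K) 2) : lp (fun _ : ℕ => K) 2 :=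
  z - ∑ i ∈ Finset.range n, lp.single 2 i (z i)

lemma tl_norm_sq {K : Type} [RCLike K] (n : ℕ) (z : lp (fun _ : ℕ => K) 2) :
    ‖tl n z‖ ^ 2 = ‖z‖ ^ 2 - ∑ i ∈ Finset.range n, ‖z i‖ ^ 2 := by
  have h := lp.norm_compl_sum_single (p := 2) (by norm_num) z (Finset.range n)
  simpa [tl] using h

lemma tl_norm_le {K : Type} [RCLike K] (n : ℕ) (z : lp (fun _ : ℕ => K) 2) : ‖tl n z‖ ≤ ‖z‖ := by
  apply le_of_sq_le_sq _ (norm_nonneg _)
  rw [tl_norm_sq]
  have : 0 ≤ ∑ i ∈ Finset.range n, ‖z i‖ ^ 2 := Finset.sum_nonneg fun i _ => by positivity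
  linarith

lemma tl_add {K : Type} [RCLike K] (n : ℕ) (z w : lp (fun _ : ℕ => K) 2) :
    tl n (z + w) = tl n z + tl n w := by
  unfold tl
  have : ∀ i, lp.single (E := fun _ : ℕ => K) 2 i ((z + w) i) =
      lp.single 2 i (z i) + lp.single 2 i (w i) := by
    intro i
    rw [← lp.single_add]; rfl
  simp only [this, Finset.sum_add_distrib]
  abel

lemma tl_smul {K : Type} [RCLike K] (n : ℕ) (c : K) (z : lp (fun _ : ℕ => K) 2) :
    tl n (c • z) = c • tl n z := by
  unfold tl
  have : ∀ i, lp.single (E := fun _ : ℕ => K) 2 i ((c • z) i) = c • lp.single 2 i (z i) := by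
    intro i
    rw [← lp.single_smul]; rfl
  simp only [this, smul_sub, Finset.smul_sum]

/-- the tail operator as a continuous linear map -/
def T {K : Type} [RCLike K] (n : ℕ) : lp (fun _ : ℕ => K) 2 →L[K] lp (fun _ : ℕ => K) 2 :=
  LinearMap.mkContinuous
    { toFun := tl n
      map_add' := tl_add n
      map_smul' := tl_smul n } 1 (fun z => by rw [one_mul]; exact tl_norm_le n z)

@[simp] lemma T_apply {K : Type} [RCLike K] (n : ℕ) (z : lp (fun _ : ℕ => K) 2) :
    T n z = tl n z := rfl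

lemma tl_tendsto {K : Type} [RCLike K] (z : lp (fun _ : ℕ => K) 2) :
    Tendsto (fun n => tl n z) atTop (𝓝 0) := by
  have h := (lp.hasSum_single (p := 2) (by norm_num) z).tendsto_sum_nat
  have h2 := (tendsto_const_nhds (x := z)).sub h
  rw [sub_self] at h2
  exact h2

lemma io_mem (x : H) : Memℓp (fun i => ((x i : ℝ) : ℂ)) 2 := by
  have h := lp.memℓp x
  rw [memℓp_gen_iff (by norm_num)] at h ⊢
  simpa using h

/-- the embedding of real `ℓ₂` in complex `ℓ₂` -/
def io : H →L[ℝ] HC :=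
  LinearMap.mkContinuous
    { toFun := fun x => ⟨fun i => ((x i : ℝ) : ℂ), io_mem x⟩
      map_add' := fun x y => by ext i; simp
      map_smul' := fun c x => by ext i; simp } 1 (fun x => by
        rw [one_mul]
        apply le_of_sq_le_sq _ (norm_nonneg _)
        have h1 := lp.norm_rpow_eq_tsum (p := 2) (by norm_num)
          (⟨fun i => ((x i : ℝ) : ℂ), io_mem x⟩ : HC)
        have h2 := lp.norm_rpow_eq_tsum (p := 2) (by norm_num) x
        simp only [ENNReal.toReal_ofNat, Real.rpow_ofNat] at h1 h2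
        simp only [LinearMap.coe_mk, AddHom.coe_mk]
        rw [h1, h2]
        simp)

@[simp] lemma io_apply (x : H) (i : ℕ) : io x i = ((x i : ℝ) : ℂ) := rfl

lemma io_norm (x : H) : ‖io x‖ = ‖x‖ := by
  rw [← sq_eq_sq₀ (norm_nonneg _) (norm_nonneg _)]
  have h1 := lp.norm_rpow_eq_tsum (p := 2) (by norm_num) (io x)
  have h2 := lp.norm_rpow_eq_tsum (p := 2) (by norm_num) x
  simp only [ENNReal.toReal_ofNat, Real.rpow_ofNat] at h1 h2
  rw [h1, h2]
  simp

lemma io_single (i : ℕ) (a : ℝ) : io (lp.single 2 i a) = lp.single 2 i (a : ℂ) := by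
  ext j
  rw [io_apply, lp.single_apply, lp.single_apply]
  by_cases h : j = i
  · subst h; simp
  · simp [h]

lemma tl_io (n : ℕ) (x : H) : tl n (io x) = io (tl n x) := by
  unfold tl
  rw [map_sub, map_sum]
  simp [io_single]

/-- the complex bilinear form extending the real inner product -/
def B (u v : HC) : ℂ := inner ℂ (star u) v

lemma B_norm_le (u v : HC) : ‖B u v‖ ≤ ‖u‖ * ‖v‖ := by
  unfold B
  calc _ ≤ ‖star u‖ * ‖v‖ := norm_inner_le_norm _ _
    _ = _ := by rw [norm_star]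

lemma B_add_left (u v w : HC) : B (u + v) w = B u w + B v w := by
  unfold B; rw [star_add, inner_add_left]

lemma B_add_right (u v w : HC) : B u (v + w) = B u v + B u w := by
  unfold B; rw [inner_add_right]

lemma B_smul_left (c : ℂ) (u v : HC) : B (c • u) v = c * B u v := by
  unfold B
  rw [star_smul, inner_smul_left]
  simp

lemma B_smul_right (c : ℂ) (u v : HC) : B u (c • v) = c * B u v := by
  unfold B; rw [inner_smul_right]

lemma B_comm (u v : HC) : B u v = B v u := by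
  unfold B
  rw [lp.inner_eq_tsum, lp.inner_eq_tsum]
  congr 1
  funext i
  simp [mul_comm]

lemma B_io (x y : H) : B (io x) (io y) = ((inner ℝ x y : ℝ) : ℂ) := by
  unfold B
  rw [lp.inner_eq_tsum, lp.inner_eq_tsum, Complex.ofReal_tsum]
  congr 1
  funext i
  simp

/-- the bilinear form as a continuous bilinear map -/
def BL : HC →L[ℂ] HC →L[ℂ] ℂ :=
  LinearMap.mkContinuous₂
    (LinearMap.mk₂ ℂ B B_add_left B_smul_left B_add_right B_smul_right) 1
    (fun u v => by rw [one_mul]; exact B_norm_le u v)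

@[simp] lemma BL_apply (u v : HC) : BL u v = B u v := rfl

/-- the complex tail quadratic form -/
def qC (n : ℕ) (z : HC) : ℂ := B (T n z) (T n z)

lemma qC_io (n : ℕ) (x : H) : qC n (io x) = ((‖tl n x‖ ^ 2 : ℝ) : ℂ) := by
  unfold qC
  rw [T_apply, tl_io, B_io, real_inner_self_eq_norm_sq]

lemma qC_analytic (n : ℕ) (z : HC) : AnalyticAt ℂ (qC n) z := by
  have h0 : AnalyticAt ℂ (fun z : HC => T (K := ℂ) n z) z := (T (K := ℂ) n).analyticAt z
  have h2 : AnalyticAt ℂ (fun p : HC × HC => BL p.1 p.2) (T (K := ℂ) n z, T (K := ℂ) n z) :=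
    BL.analyticAt_bilinear _
  exact h2.comp₂ h0 h0

lemma B_lin_analytic (f z : HC) : AnalyticAt ℂ (fun z => B f z) z :=
  (BL f).analyticAt z

/-- expansion of the tail form near a real point -/
lemma qC_expand (n : ℕ) (x : H) (z : HC) :
    qC n z = ((‖tl n x‖ ^ 2 : ℝ) : ℂ) + (2 * B (io (tl n x)) (tl n (z - io x)) +
      B (tl n (z - io x)) (tl n (z - io x))) := by
  have h : T n z = io (tl n x) + tl n (z - io x) := by
    rw [T_apply, ← tl_io, ← tl_add]; congr 1; abel
  unfold qC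
  rw [h, B_add_left, B_add_right, B_add_right, B_io, real_inner_self_eq_norm_sq,
    B_comm (tl n (z - io x)) (io (tl n x))]
  ring

lemma qC_near (n : ℕ) (x : H) (z : HC) :
    ‖qC n z - ((‖tl n x‖ ^ 2 : ℝ) : ℂ)‖ ≤ 2 * ‖tl n x‖ * ‖z - io x‖ + ‖z - io x‖ ^ 2 := by
  rw [qC_expand n x z, add_sub_cancel_left]
  have h1 : ‖tl n (z - io x)‖ ≤ ‖z - io x‖ := tl_norm_le n _
  have h2 := B_norm_le (io (tl n x)) (tl n (z - io x))
  rw [io_norm] at h2
  have h3 := B_norm_le (tl n (z - io x)) (tl n (z - io x))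
  calc _ ≤ ‖2 * B (io (tl n x)) (tl n (z - io x))‖ + ‖B (tl n (z - io x)) (tl n (z - io x))‖ :=
        norm_add_le _ _
    _ ≤ 2 * (‖tl n x‖ * ‖tl n (z - io x)‖) + ‖tl n (z - io x)‖ * ‖tl n (z - io x)‖ := by
        rw [norm_mul]
        have : ‖(2 : ℂ)‖ = 2 := by simp
        rw [this]
        linarith
    _ ≤ 2 * (‖tl n x‖ * ‖z - io x‖) + ‖z - io x‖ * ‖z - io x‖ := by
        have := norm_nonneg (tl n x)
        gcongr
    _ = _ := by ring

lemma qC_re_lower (n : ℕ) (x : H) (z : HC) : -(2 * ‖z - io x‖ ^ 2) ≤ (qC n z).re := by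
  have h := qC_near n x z
  have h2 : ‖tl n x‖ ^ 2 - (qC n z).re ≤ ‖qC n z - ((‖tl n x‖ ^ 2 : ℝ) : ℂ)‖ := by
    have := Complex.abs_re_le_norm (qC n z - ((‖tl n x‖ ^ 2 : ℝ) : ℂ))
    rw [Complex.sub_re, Complex.ofReal_re] at this
    have h3 := neg_abs_le ((qC n z).re - ‖tl n x‖ ^ 2)
    linarith
  nlinarith [sq_nonneg (‖tl n x‖ - ‖z - io x‖)]

/-- real analyticity from a holomorphic extension -/
theorem analyticAt_real {G : HC → ℂ} {x : H} (hG : AnalyticAt ℂ G (io x)) :
    AnalyticAt ℝ (fun x => (G (io x)).re) x := by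
  have h1 : AnalyticAt ℝ G (io x) := hG.restrictScalars
  have h2 : AnalyticAt ℝ (fun x => G (io x)) x := h1.comp (io.analyticAt x)
  exact (Complex.reCLM.analyticAt _).comp h2

end Pool.Agent.H345R3.L2
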