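import Mathlib
import Pool.Agent.H345R3.L2Cx

/-!
Regularisation of a norm on real `ℓ₂` by affine minorants with a quadratic error.
-/

set_option autoImplicit false

noncomputable section

open Filter Topology
open scoped ENNReal

namespace Pool.Agent.H345R3.AnNorm

open Pool.Agent.H345R3.L2

/-- `N` is a norm on real `ℓ₂` with `a‖x‖ ≤ N x ≤ b‖x‖` -/
structure IsN (N : H → ℝ) (a b : ℝ) : Prop where
  add : ∀ x y, N (x + y) ≤ N x + N y
  smul : ∀ (c : ℝ) x, N (c • x) = |c| * N x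
  a0 : 0 < a
  b0 : 0 < b
  lo : ∀ x, a * ‖x‖ ≤ N x
  hi : ∀ x, N x ≤ b * ‖x‖

/-- the dual ball -/
def Cset (N : H → ℝ) : Set H := {f | ∀ x, inner ℝ f x ≤ N x}

variable {N : H → ℝ} {a b : ℝ}

lemma IsN.nonneg (hN : IsN N a b) (x : H) : 0 ≤ N x :=
  le_trans (mul_nonneg hN.a0.le (norm_nonneg x)) (hN.lo x)

lemma IsN.neg (hN : IsN N a b) (x : H) : N (-x) = N x := by
  have := hN.smul (-1) x
  simpa using this

lemma zero_mem_C (hN : IsN N a b) : (0 : H) ∈ Cset N := by
  intro x; rw [inner_zero_left]; exact hN.nonneg x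

lemma neg_mem_C (hN : IsN N a b) {f : H} (hf : f ∈ Cset N) : -f ∈ Cset N := by
  intro x
  have := hf (-x)
  rw [hN.neg] at this
  rw [inner_neg_left]
  rwa [inner_neg_right] at this

lemma convex_C : Convex ℝ (Cset N) := by
  intro f hf g hg s t hs ht hst x
  rw [inner_add_left, inner_smul_left, inner_smul_left]
  simp only [conj_trivial]
  have h1 := hf x
  have h2 := hg x
  have e : N x = s * N x + t * N x := by rw [← add_mul, hst, one_mul]
  rw [e]
  exact add_le_add (mul_le_mul_of_nonneg_left h1 hs) (mul_le_mul_of_nonneg_left h2 ht)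

lemma closed_C : IsClosed (Cset N) := by
  have : Cset N = ⋂ x : H, {f : H | inner ℝ f x ≤ N x} := by
    ext f; simp [Cset]
  rw [this]
  apply isClosed_iInter
  intro x
  exact isClosed_le (by fun_prop) continuous_const

lemma norm_C (hN : IsN N a b) {f : H} (hf : f ∈ Cset N) : ‖f‖ ≤ b := by
  by_cases h0 : ‖f‖ = 0
  · rw [h0]; exact hN.b0.le
  · have hp : 0 < ‖f‖ := lt_of_le_of_ne (norm_nonneg _) (Ne.symm h0)
    have h1 := (hf f).trans (hN.hi f)
    rw [real_inner_self_eq_norm_sq] at h1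
    nlinarith

/-- the penalised affine functional -/
def A (K : ℝ) (f x : H) : ℝ := inner ℝ f x - ‖f‖ ^ 2 / (4 * K)

lemma exists_P (hN : IsN N a b) {K : ℝ} (hK : 0 < K) (y : H) :
    ∃ f ∈ Cset N, ∀ g ∈ Cset N, ∀ x, A K g x ≤ A K f x + K * ‖x - y‖ ^ 2 := by
  obtain ⟨f, hf, hfe⟩ := exists_norm_eq_iInf_of_complete_convex ⟨0, zero_mem_C hN⟩
    (closed_C (N := N)).isComplete convex_C ((2 * K) • y)
  rw [norm_eq_iInf_iff_real_inner_le_zero convex_C hf] at hfe
  refine ⟨f, hf, fun g hg x => ?_⟩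
  have h1 := hfe g hg
  rw [inner_sub_left, inner_smul_left] at h1
  simp only [conj_trivial] at h1
  have h2 : inner ℝ (g - f) (x - y) ≤ ‖g - f‖ * ‖x - y‖ := real_inner_le_norm _ _
  have h3 : ‖g‖ ^ 2 = ‖g - f‖ ^ 2 + 2 * inner ℝ (g - f) f + ‖f‖ ^ 2 := by
    have : g = (g - f) + f := by abel
    calc ‖g‖ ^ 2 = ‖(g - f) + f‖ ^ 2 := by rw [← this]
      _ = _ := by rw [norm_add_sq_real]
  have h4 : inner ℝ (g - f) (x - y) = inner ℝ g x - inner ℝ f x - inner ℝ y (g - f) := by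
    rw [inner_sub_right, inner_sub_left, real_inner_comm y (g - f)]
  have h5 : inner ℝ (g - f) f = inner ℝ f (g - f) := real_inner_comm _ _
  unfold A
  rw [h3, h5]
  have h6 : 0 ≤ (‖g - f‖ / (2 * K) - ‖x - y‖) ^ 2 := sq_nonneg _
  have h7 : K * (‖g - f‖ / (2 * K) - ‖x - y‖) ^ 2 =
      ‖g - f‖ ^ 2 / (4 * K) - ‖g - f‖ * ‖x - y‖ + K * ‖x - y‖ ^ 2 := by
    field_simp; ring
  have h8 : 0 ≤ K * (‖g - f‖ / (2 * K) - ‖x - y‖) ^ 2 := mul_nonneg hK.le h6
  rw [h7] at h8
  have h9 : (‖g - f‖ ^ 2 + 2 * inner ℝ f (g - f) + ‖f‖ ^ 2) / (4 * K) =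
      ‖g - f‖ ^ 2 / (4 * K) + inner ℝ f (g - f) / (2 * K) + ‖f‖ ^ 2 / (4 * K) := by
    field_simp; ring
  rw [h9]
  have h10 : inner ℝ y (g - f) ≤ inner ℝ f (g - f) / (2 * K) := by
    rw [le_div_iff₀ (by positivity)]
    linarith
  linarith

lemma exists_norming (hN : IsN N a b) (x : H) : ∃ f ∈ Cset N, inner ℝ f x = N x := by
  by_cases hx : x = 0
  · refine ⟨0, zero_mem_C hN, ?_⟩
    have : N x = 0 := by
      apply le_antisymm _ (hN.nonneg x)
      have := hN.hi x
      rw [hx, norm_zero, mul_zero] at this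
      rw [hx]; exact this
    rw [inner_zero_left, this]
  · obtain ⟨g, hg1, hg2⟩ := exists_extension_of_le_sublinear
      (LinearPMap.mkSpanSingleton x (N x) hx) N
      (fun c hc y => by rw [hN.smul, abs_of_pos hc]) hN.add (by
        rintro ⟨y, hy⟩
        obtain ⟨c, rfl⟩ := Submodule.mem_span_singleton.1 hy
        rw [LinearPMap.mkSpanSingleton'_apply]
        show c • N x ≤ N (c • x)
        rw [hN.smul, smul_eq_mul]
        exact mul_le_mul_of_nonneg_right (le_abs_self c) (hN.nonneg x))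
    have hb : ∀ y, ‖g y‖ ≤ b * ‖y‖ := by
      intro y
      rw [Real.norm_eq_abs, abs_le]
      constructor
      · have := (hg2 (-y)).trans (hN.hi (-y))
        rw [map_neg, norm_neg] at this
        linarith
      · exact (hg2 y).trans (hN.hi y)
    set G : H →L[ℝ] ℝ := g.mkContinuous b hb with hG
    refine ⟨(InnerProductSpace.toDual ℝ H).symm G, ?_, ?_⟩
    · intro y
      rw [InnerProductSpace.toDual_symm_apply]
      exact hg2 y
    · rw [InnerProductSpace.toDual_symm_apply]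
      have h1 := hg1 ⟨x, Submodule.mem_span_singleton_self x⟩
      exact h1.trans (LinearPMap.mkSpanSingleton_apply ℝ ℝ hx (N x))

/-- the regularisation data -/
structure Reg (N : H → ℝ) (b K : ℝ) where
  P : H → H
  memP : ∀ y, P y ∈ Cset N
  best : ∀ y, ∀ g ∈ Cset N, ∀ x, A K g x ≤ A K (P y) x + K * ‖x - y‖ ^ 2

lemma exists_Reg (hN : IsN N a b) {K : ℝ} (hK : 0 < K) : Nonempty (Reg N b K) := by
  choose P h1 h2 using exists_P hN hK
  exact ⟨⟨P, h1, h2⟩⟩

namespace Reg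

variable {K : ℝ} (R : Reg N b K)

/-- the regularised function -/
def h (x : H) : ℝ := A K (R.P x) x

lemma le_h {f : H} (hf : f ∈ Cset N) (x : H) : A K f x ≤ R.h x := by
  have := R.best x f hf x
  rw [sub_self, norm_zero] at this
  unfold h
  simpa using this

lemma h_le (x y : H) : R.h x ≤ A K (R.P y) x + K * ‖x - y‖ ^ 2 := R.best y _ (R.memP x) x

lemma h_lip (hN : IsN N a b) (x y : H) : R.h x ≤ R.h y + b * ‖x - y‖ := by
  have h1 : A K (R.P x) x = A K (R.P x) y + inner ℝ (R.P x) (x - y) := by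
    unfold A; rw [inner_sub_right]; ring
  have h2 := R.le_h (R.memP x) y
  have h3 : inner ℝ (R.P x) (x - y) ≤ b * ‖x - y‖ :=
    (real_inner_le_norm _ _).trans (mul_le_mul_of_nonneg_right (norm_C hN (R.memP x))
      (norm_nonneg _))
  unfold h at *
  linarith

lemma h_le_N (hK : 0 < K) (x : H) : R.h x ≤ N x := by
  have h1 := R.memP x x
  unfold h A
  have : 0 ≤ ‖R.P x‖ ^ 2 / (4 * K) := by positivity
  linarith

lemma N_le_h (hN : IsN N a b) (hK : 0 < K) (x : H) : N x ≤ R.h x + b ^ 2 / (4 * K) := by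
  obtain ⟨f, hf, hfx⟩ := exists_norming hN x
  have h1 := R.le_h hf x
  unfold A at h1
  rw [hfx] at h1
  have h2 : ‖f‖ ^ 2 ≤ b ^ 2 := pow_le_pow_left₀ (norm_nonneg _) (norm_C hN hf) 2
  have h3 : ‖f‖ ^ 2 / (4 * K) ≤ b ^ 2 / (4 * K) :=
    div_le_div_of_nonneg_right h2 (by positivity)
  linarith

end Reg

end Pool.Agent.H345R3.AnNorm
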