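import Mathlib
import Pool.Agent.H345R3.AnNormA

/-!
The countable family of analytic convex functions whose exponential sum defines the new ball.
-/

set_option autoImplicit false

noncomputable section

open Filter Topology
open scoped ENNReal

namespace Pool.Agent.H345R3.AnNorm

open Pool.Agent.H345R3.L2

variable {N : H → ℝ} {a b : ℝ}

/-- finite dimensional inclusion -/
def Lf (n : ℕ) : (Fin n → ℝ) → H := fun v => ∑ i : Fin n, v i • lp.single 2 (i : ℕ) (1 : ℝ)

lemma Lf_cont (n : ℕ) : Continuous (Lf n) := by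
  unfold Lf
  fun_prop

lemma head_eq (n : ℕ) (x : H) : x - tl n x = Lf n (fun i => x i) := by
  unfold tl Lf
  rw [sub_sub_cancel, Finset.sum_range]
  apply Finset.sum_congr rfl
  intro i _
  rw [← lp.single_smul, smul_eq_mul, mul_one]

lemma coord_le (x : H) (i : ℕ) : |x i| ≤ ‖x‖ := by
  have := lp.norm_apply_le_norm (p := 2) (by norm_num) x i
  simpa using this

/-- finite nets for heads -/
lemma exists_net (R ρ : ℝ) (hρ : 0 < ρ) (n : ℕ) :
    ∃ Y : Finset H, ∀ x : H, ‖x‖ ≤ R → ∃ y ∈ Y, ‖(x - tl n x) - y‖ ≤ ρ := by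
  have hc : IsCompact (Lf n '' (Metric.closedBall (0 : Fin n → ℝ) R)) :=
    (isCompact_closedBall _ _).image (Lf_cont n)
  obtain ⟨t, ht, hfin, hcov⟩ := hc.finite_cover_balls hρ
  refine ⟨hfin.toFinset, fun x hx => ?_⟩
  have hmem : x - tl n x ∈ Lf n '' (Metric.closedBall (0 : Fin n → ℝ) R) := by
    refine ⟨fun i => x i, ?_, (head_eq n x).symm⟩
    rw [mem_closedBall_zero_iff]
    have hR : 0 ≤ R := (norm_nonneg x).trans hx
    rw [pi_norm_le_iff_of_nonneg hR]
    intro i
    rw [Real.norm_eq_abs]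
    exact (coord_le x i).trans hx
  have := hcov hmem
  simp only [Set.mem_iUnion, Metric.mem_ball, exists_prop] at this
  obtain ⟨y, hy, hd⟩ := this
  refine ⟨y, by simpa using hy, ?_⟩
  rw [← dist_eq_norm]
  exact hd.le

/-- All the parameters of the construction. `R` bounds the region, `η` is the tolerance. -/
structure Par (N : H → ℝ) (a b : ℝ) where
  hN : IsN N a b
  η : ℝ
  η0 : 0 < η
  η1 : η ≤ 1 / 8

namespace Par

variable (p : Par N a b)

/-- penalty constant -/
def K : ℝ := b ^ 2 / (4 * p.η)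
/-- radius of the region -/
def R (_p : Par N a b) : ℝ := 2 / a
/-- slope of the tail term -/
def c : ℝ := p.η / p.R
/-- smoothing parameter of the tail term -/
def δ : ℝ := p.c / (6 * p.K)
/-- the decreasing bonuses -/
def dl (n : ℕ) : ℝ := p.η / (n + 1)

lemma K0 : 0 < p.K := by
  have := p.hN.b0; have := p.η0; unfold K; positivity
lemma R0 : 0 < p.R := by
  have := p.hN.a0; unfold R; positivity
lemma c0 : 0 < p.c := div_pos p.η0 p.R0
lemma δ0 : 0 < p.δ := by
  have := p.c0; have := p.K0; unfold δ; positivity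
lemma dl0 (n : ℕ) : 0 < p.dl n := by
  have := p.η0; unfold dl; positivity
lemma dl_le (n : ℕ) : p.dl n ≤ p.η := by
  unfold dl
  apply div_le_self p.η0.le
  have : (0 : ℝ) ≤ n := Nat.cast_nonneg n
  linarith
lemma dl_tendsto : Tendsto p.dl atTop (𝓝 0) := by
  unfold dl
  have h : Tendsto (fun n : ℕ => ((n : ℝ) + 1)) atTop atTop :=
    tendsto_atTop_add_const_right _ _ tendsto_natCast_atTop_atTop
  exact h.const_div_atTop p.η

/-- the tail term as a function of the squared tail norm -/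
def ph (q : ℝ) : ℝ := p.c * (Real.sqrt (q + p.δ ^ 2) - p.δ)

lemma ph_nonneg {q : ℝ} (hq : 0 ≤ q) : 0 ≤ p.ph q := by
  unfold ph
  apply mul_nonneg p.c0.le
  have : p.δ ≤ Real.sqrt (q + p.δ ^ 2) := by
    rw [Real.le_sqrt p.δ0.le (by positivity)]; linarith
  linarith

lemma ph_le {q : ℝ} (hq : 0 ≤ q) : p.ph q ≤ p.c * Real.sqrt q := by
  unfold ph
  apply mul_le_mul_of_nonneg_left _ p.c0.le
  have h1 : Real.sqrt (q + p.δ ^ 2) ≤ Real.sqrt q + p.δ := by
    rw [Real.sqrt_le_left (by have := p.δ0; positivity)]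
    have := Real.sq_sqrt hq
    have h2 := Real.sqrt_nonneg q
    nlinarith [mul_nonneg h2 p.δ0.le]
  linarith

lemma ph_ge {q : ℝ} (hq : 0 ≤ q) (hq1 : q ≤ p.δ ^ 2) : 2 * p.K * q ≤ p.ph q := by
  unfold ph
  set s := Real.sqrt (q + p.δ ^ 2) with hs
  have hδ := p.δ0
  have hs2 : s ^ 2 = q + p.δ ^ 2 := Real.sq_sqrt (by positivity)
  have hs0 : 0 ≤ s := Real.sqrt_nonneg _
  have hs3 : s ≤ 2 * p.δ := by
    rw [hs, Real.sqrt_le_left (by positivity)]
    nlinarith
  have hs4 : p.δ ≤ s := by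
    rw [hs, Real.le_sqrt hδ.le (by positivity)]; linarith
  have hc : p.c = 6 * p.K * p.δ := by
    unfold δ
    have := p.K0
    field_simp
  rw [hc]
  have h1 : q = (s - p.δ) * (s + p.δ) := by nlinarith
  have h2 : q ≤ (s - p.δ) * (3 * p.δ) := by
    rw [h1]
    exact mul_le_mul_of_nonneg_left (by linarith) (by linarith)
  have h3 := p.K0
  calc 2 * p.K * q ≤ 2 * p.K * ((s - p.δ) * (3 * p.δ)) :=
        mul_le_mul_of_nonneg_left h2 (by positivity)
    _ = _ := by ring

end Par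

/-- the chosen finite families of functionals -/
structure Dat (p : Par N a b) where
  reg : Reg N b p.K
  F : ℕ → Finset H
  mem : ∀ n, ∀ f ∈ F n, f ∈ Cset N
  symm : ∀ n, ∀ f ∈ F n, -f ∈ F n
  net : ∀ n x, ‖x‖ ≤ p.R → ∃ f ∈ F n, reg.h x ≤ A p.K f x + 2 * p.K * ‖tl n x‖ ^ 2 + p.dl n / 2

lemma exists_Dat (p : Par N a b) : Nonempty (Dat p) := by
  classical
  obtain ⟨reg⟩ := exists_Reg p.hN p.K0
  have hρ : ∀ n, 0 < Real.sqrt (p.dl n / (4 * p.K)) := by
    intro n
    have := p.dl0 n; have := p.K0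
    exact Real.sqrt_pos.2 (by positivity)
  choose Y hY using fun n => exists_net p.R _ (hρ n) n
  refine ⟨⟨reg, fun n => (Y n).image reg.P ∪ (Y n).image (fun y => -reg.P y), ?_, ?_, ?_⟩⟩
  · intro n f hf
    rw [Finset.mem_union, Finset.mem_image, Finset.mem_image] at hf
    rcases hf with ⟨y, _, rfl⟩ | ⟨y, _, rfl⟩
    · exact reg.memP y
    · exact neg_mem_C p.hN (reg.memP y)
  · intro n f hf
    rw [Finset.mem_union, Finset.mem_image, Finset.mem_image] at hf ⊢
    rcases hf with ⟨y, hy, rfl⟩ | ⟨y, hy, rfl⟩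
    · right; exact ⟨y, hy, rfl⟩
    · left; exact ⟨y, hy, by rw [neg_neg]⟩
  · intro n x hx
    obtain ⟨y, hy, hd⟩ := hY n x hx
    refine ⟨reg.P y, ?_, ?_⟩
    · rw [Finset.mem_union]; left; exact Finset.mem_image_of_mem _ hy
    · have h1 := reg.h_le x y
      have h2 : ‖x - y‖ ≤ ‖tl n x‖ + Real.sqrt (p.dl n / (4 * p.K)) := by
        have : x - y = tl n x + ((x - tl n x) - y) := by abel
        rw [this]
        exact (norm_add_le _ _).trans (by linarith)
      have h3 : ‖x - y‖ ^ 2 ≤ 2 * ‖tl n x‖ ^ 2 + 2 * (p.dl n / (4 * p.K)) := by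
        have h4 : Real.sqrt (p.dl n / (4 * p.K)) ^ 2 = p.dl n / (4 * p.K) := by
          apply Real.sq_sqrt
          have := p.dl0 n; have := p.K0; positivity
        have h5 : ‖x - y‖ ^ 2 ≤ (‖tl n x‖ + Real.sqrt (p.dl n / (4 * p.K))) ^ 2 :=
          pow_le_pow_left₀ (norm_nonneg _) h2 2
        nlinarith [sq_nonneg (‖tl n x‖ - Real.sqrt (p.dl n / (4 * p.K)))]
      have h6 : p.K * ‖x - y‖ ^ 2 ≤ 2 * p.K * ‖tl n x‖ ^ 2 + p.dl n / 2 := by
        calc _ ≤ p.K * (2 * ‖tl n x‖ ^ 2 + 2 * (p.dl n / (4 * p.K))) :=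
              mul_le_mul_of_nonneg_left h3 p.K0.le
          _ = _ := by have := p.K0; field_simp; ring
      linarith

namespace Dat

variable {p : Par N a b} (D : Dat p)

/-- the exponents -/
def lam (n : ℕ) : ℝ := (n + 1) * (Real.log ((D.F n).card + 1) + (n + 2)) / p.η

lemma lam_pos (n : ℕ) : 0 < D.lam n := by
  have := p.η0
  have h : 0 ≤ Real.log ((D.F n).card + 1) := Real.log_nonneg (by
    have : (0 : ℝ) ≤ (D.F n).card := Nat.cast_nonneg _
    linarith)
  unfold lam
  positivity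

lemma card_exp (n : ℕ) {θ : ℝ} (hθ : 0 < θ) (hn : p.η ≤ (n + 1) * θ) :
    ((D.F n).card : ℝ) * Real.exp (-(D.lam n * θ)) ≤ (1 / 2) ^ (n + 2) := by
  have hη := p.η0
  have hcard : (0 : ℝ) ≤ (D.F n).card := Nat.cast_nonneg _
  have h : 0 ≤ Real.log ((D.F n).card + 1) := Real.log_nonneg (by linarith)
  set L := Real.log ((D.F n).card + 1) with hL
  have h1 : L + (n + 2) ≤ D.lam n * θ := by
    unfold lam
    rw [div_mul_eq_mul_div, le_div_iff₀ hη]
    have hp : 0 ≤ L + (n + 2) := by positivity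
    calc (L + (n + 2)) * p.η ≤ (L + (n + 2)) * ((n + 1) * θ) :=
          mul_le_mul_of_nonneg_left hn hp
      _ = _ := by ring
  have h2 : Real.exp (-(D.lam n * θ)) ≤ Real.exp (-(L + (n + 2))) :=
    Real.exp_le_exp.2 (by linarith)
  have h3 : Real.exp (-(L + (n + 2))) = ((D.F n).card + 1 : ℝ)⁻¹ * Real.exp (-(n + 2)) := by
    rw [neg_add, Real.exp_add, Real.exp_neg, hL, Real.exp_log (by linarith)]
  have h4 : Real.exp (-((n : ℝ) + 2)) ≤ (1 / 2) ^ (n + 2) := by
    have h5 : Real.exp (-((n : ℝ) + 2)) = (Real.exp (-1)) ^ (n + 2) := by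
      rw [← Real.exp_nat_mul]; push_cast; ring_nf
    rw [h5]
    apply pow_le_pow_left₀ (Real.exp_pos _).le
    rw [Real.exp_neg, one_div]
    apply inv_anti₀ (by norm_num)
    have := Real.add_one_le_exp (1 : ℝ)
    linarith
  calc _ ≤ ((D.F n).card : ℝ) * (((D.F n).card + 1 : ℝ)⁻¹ * Real.exp (-(n + 2))) := by
        rw [← h3]; exact mul_le_mul_of_nonneg_left h2 hcard
    _ = (((D.F n).card : ℝ) / ((D.F n).card + 1 : ℝ)) * Real.exp (-(n + 2)) := by
        rw [div_eq_mul_inv]; ring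
    _ ≤ 1 * Real.exp (-(n + 2)) := by
        apply mul_le_mul_of_nonneg_right _ (Real.exp_pos _).le
        rw [div_le_one (by linarith)]; linarith
    _ ≤ _ := by rw [one_mul]; exact h4

/-- the elementary functions -/
def g (n : ℕ) (f x : H) : ℝ := A p.K f x + p.dl n + p.ph (‖tl n x‖ ^ 2)

/-- the blocks -/
def G (n : ℕ) (x : H) : ℝ := ∑ f ∈ D.F n, Real.exp (D.lam n * (g (p := p) n f x - 1))

lemma G_nonneg (n : ℕ) (x : H) : 0 ≤ D.G n x :=
  Finset.sum_nonneg fun f _ => (Real.exp_pos _).le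

/-- partial sums -/
def S (m : ℕ) (x : H) : ℝ := ∑ n ∈ Finset.range m, D.G n x

/-- the new ball -/
def V : Set H := {x | ∀ m, D.S m x ≤ 1}

lemma tl_neg (n : ℕ) (x : H) : tl n (-x) = -tl n x := by
  have := tl_smul n (-1 : ℝ) x
  simpa using this

lemma G_neg (n : ℕ) (x : H) : D.G n (-x) = D.G n x := by
  unfold G
  apply Finset.sum_bij (fun f _ => -f) (fun f hf => D.symm n f hf)
  · intro f _ f' _ h
    exact neg_injective h
  · intro f hf
    exact ⟨-f, D.symm n f hf, neg_neg f⟩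
  · intro f _
    unfold g A
    rw [tl_neg, norm_neg, norm_neg, inner_neg_left, inner_neg_right]

lemma V_neg {x : H} (hx : x ∈ D.V) : -x ∈ D.V := by
  intro m
  have := hx m
  unfold S at *
  simpa [G_neg] using this

/-- convexity of the tail term -/
lemma tail_conv (n : ℕ) : ConvexOn ℝ Set.univ (fun x : H => p.ph (‖tl n x‖ ^ 2)) := by
  have h : ∀ x : H, p.ph (‖tl n x‖ ^ 2) =
      p.c * ‖(WithLp.toLp 2 (tl n x, p.δ) : WithLp 2 (H × ℝ))‖ + (-(p.c * p.δ)) := by
    intro x
    rw [WithLp.prod_norm_eq_of_L2]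
    unfold Par.ph
    have e1 : (WithLp.toLp 2 (tl n x, p.δ) : WithLp 2 (H × ℝ)).fst = tl n x := rfl
    have e2 : (WithLp.toLp 2 (tl n x, p.δ) : WithLp 2 (H × ℝ)).snd = p.δ := rfl
    rw [e1, e2, Real.norm_eq_abs, sq_abs]
    ring
  simp only [h]
  apply ConvexOn.add_const
  apply ConvexOn.smul p.c0.le
  refine ⟨convex_univ, ?_⟩
  intro x _ y _ s t hs ht hst
  have e : (WithLp.toLp 2 (tl n (s • x + t • y), p.δ) : WithLp 2 (H × ℝ)) =
      s • WithLp.toLp 2 (tl n x, p.δ) + t • WithLp.toLp 2 (tl n y, p.δ) := by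
    rw [tl_add, tl_smul, tl_smul, ← WithLp.toLp_smul, ← WithLp.toLp_smul, ← WithLp.toLp_add]
    congr 1
    ext
    · simp
    · simp only [Prod.smul_mk, Prod.mk_add_mk, smul_eq_mul]
      rw [← add_mul, hst, one_mul]
  simp only [e]
  refine (norm_add_le _ _).trans ?_
  rw [norm_smul, norm_smul, Real.norm_of_nonneg hs, Real.norm_of_nonneg ht]
  simp

lemma A_conv (K : ℝ) (f : H) : ConvexOn ℝ Set.univ (fun x : H => A K f x) := by
  refine ⟨convex_univ, ?_⟩
  intro x _ y _ s t hs ht hst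
  unfold A
  simp only [smul_eq_mul]
  rw [inner_add_right, inner_smul_right, inner_smul_right]
  have h2 : s * (inner ℝ f x - ‖f‖ ^ 2 / (4 * K)) + t * (inner ℝ f y - ‖f‖ ^ 2 / (4 * K)) =
      s * inner ℝ f x + t * inner ℝ f y - (s + t) * (‖f‖ ^ 2 / (4 * K)) := by ring
  rw [h2, hst, one_mul]

lemma G_conv (n : ℕ) : ConvexOn ℝ Set.univ (D.G n) := by
  have h1 : ∀ f : H, ConvexOn ℝ Set.univ (fun x => Real.exp (D.lam n * (g (p := p) n f x - 1))) := by
    intro f
    have h2 : ConvexOn ℝ Set.univ (fun x => D.lam n * (g (p := p) n f x - 1)) := by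
      apply ConvexOn.smul (D.lam_pos n).le
      unfold g
      have h3 := ((A_conv p.K f).add_const (p.dl n)).add (tail_conv (p := p) n)
      have h4 := h3.add_const (-1)
      exact h4
    refine ⟨convex_univ, ?_⟩
    intro x hx y hy s t hs ht hst
    have h3 := h2.2 hx hy hs ht hst
    have h4 := convexOn_exp.2 (Set.mem_univ (D.lam n * (g (p := p) n f x - 1)))
      (Set.mem_univ (D.lam n * (g (p := p) n f y - 1))) hs ht hst
    exact (Real.exp_le_exp.2 h3).trans h4
  unfold G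
  have : (fun x => ∑ f ∈ D.F n, Real.exp (D.lam n * (g (p := p) n f x - 1))) =
      ∑ f ∈ D.F n, (fun x => Real.exp (D.lam n * (g (p := p) n f x - 1))) := by
    funext x; simp
  rw [this]
  apply Finset.sum_induction _ (fun φ => ConvexOn ℝ Set.univ φ)
  · intro u v hu hv; exact hu.add hv
  · exact convexOn_const 0 convex_univ
  · intro f _; exact h1 f

lemma G_cont (n : ℕ) : Continuous (D.G n) := by
  unfold G g A Par.ph
  have : Continuous (fun x : H => tl n x) := (T (K := ℝ) n).continuous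
  fun_prop

lemma V_convex : Convex ℝ D.V := by
  intro x hx y hy s t hs ht hst m
  have h1 := hx m
  have h2 := hy m
  have h3 : D.S m (s • x + t • y) ≤ s * D.S m x + t * D.S m y := by
    unfold S
    rw [Finset.mul_sum, Finset.mul_sum, ← Finset.sum_add_distrib]
    apply Finset.sum_le_sum
    intro n _
    exact (D.G_conv n).2 (Set.mem_univ x) (Set.mem_univ y) hs ht hst
  calc _ ≤ s * D.S m x + t * D.S m y := h3
    _ ≤ s * 1 + t * 1 := add_le_add (mul_le_mul_of_nonneg_left h1 hs)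
        (mul_le_mul_of_nonneg_left h2 ht)
    _ = 1 := by rw [mul_one, mul_one, hst]

lemma V_closed : IsClosed D.V := by
  have : D.V = ⋂ m, {x | D.S m x ≤ 1} := by ext x; simp [V]
  rw [this]
  apply isClosed_iInter
  intro m
  refine isClosed_le ?_ continuous_const
  unfold S
  exact continuous_finsetSum _ fun n _ => D.G_cont n

/-- upper bound for the elementary functions -/
lemma g_le {n : ℕ} {f : H} (hf : f ∈ D.F n) (x : H) :
    g (p := p) n f x ≤ D.reg.h x + p.dl n + p.ph (‖tl n x‖ ^ 2) := by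
  unfold g
  have := D.reg.le_h (D.mem n f hf) x
  linarith

/-- the inner ball -/
lemma inner_ball {x : H} (hx : N x ≤ 1 - 3 * p.η) (m : ℕ) : D.S m x ≤ 1 / 2 := by
  have hη := p.η0
  have hη1 := p.η1
  have hR : ‖x‖ ≤ p.R := by
    unfold Par.R
    rw [le_div_iff₀ p.hN.a0]
    have := p.hN.lo x
    linarith
  have hb : ∀ n, ∀ f ∈ D.F n, g (p := p) n f x - 1 ≤ -p.η := by
    intro n f hf
    have h1 := D.g_le hf x
    have h2 := D.reg.h_le_N p.K0 x
    have h3 := p.dl_le n
    have h4 : p.ph (‖tl n x‖ ^ 2) ≤ p.η := by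
      refine (p.ph_le (by positivity)).trans ?_
      rw [Real.sqrt_sq (norm_nonneg _)]
      calc p.c * ‖tl n x‖ ≤ p.c * p.R :=
            mul_le_mul_of_nonneg_left ((tl_norm_le n x).trans hR) p.c0.le
        _ = p.η := by unfold Par.c; have := p.R0; field_simp
    linarith
  have hG : ∀ n, D.G n x ≤ (1 / 2) ^ (n + 2) := by
    intro n
    calc D.G n x ≤ ∑ _f ∈ D.F n, Real.exp (-(D.lam n * p.η)) := by
          unfold G
          apply Finset.sum_le_sum
          intro f hf
          apply Real.exp_le_exp.2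
          have := mul_le_mul_of_nonneg_left (hb n f hf) (D.lam_pos n).le
          linarith
      _ = ((D.F n).card : ℝ) * Real.exp (-(D.lam n * p.η)) := by
          rw [Finset.sum_const, nsmul_eq_mul]
      _ ≤ _ := by
          apply D.card_exp n hη
          have : (0 : ℝ) ≤ n := Nat.cast_nonneg n
          nlinarith
  calc D.S m x ≤ ∑ n ∈ Finset.range m, (1 / 2 : ℝ) ^ (n + 2) := by
        unfold S; exact Finset.sum_le_sum fun n _ => hG n
    _ ≤ 1 / 2 := by
        have h1 : ∀ m : ℕ, ∑ n ∈ Finset.range m, (1 / 2 : ℝ) ^ (n + 2) = 1 / 2 - (1 / 2) ^ (m + 1) := by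
          intro m
          induction m with
          | zero => norm_num
          | succ k ih => rw [Finset.sum_range_succ, ih]; ring
        rw [h1]
        have : (0 : ℝ) < (1 / 2) ^ (m + 1) := by positivity
        linarith

lemma tail_small (x : H) {e : ℝ} (he : 0 < e) : ∃ n0, ∀ n ≥ n0, ‖tl n x‖ ^ 2 ≤ e := by
  have h := ((tl_tendsto x).norm).pow 2
  rw [norm_zero] at h
  have h0 : (0 : ℝ) ^ 2 = 0 := by norm_num
  rw [h0] at h
  have := (h.eventually (gt_mem_nhds he))
  obtain ⟨n0, hn0⟩ := eventually_atTop.1 this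
  exact ⟨n0, fun n hn => (hn0 n hn).le⟩

/-- margin -/
lemma margin {x : H} (hR : ‖x‖ ≤ p.R) : ∃ n, ∃ f ∈ D.F n, D.reg.h x + p.dl n / 2 ≤ g (p := p) n f x := by
  obtain ⟨n, hn⟩ := tail_small x (pow_pos p.δ0 2)
  have h1 := hn n le_rfl
  obtain ⟨f, hf, h2⟩ := D.net n x hR
  refine ⟨n, f, hf, ?_⟩
  have h3 := p.ph_ge (by positivity) h1
  unfold g
  linarith

lemma term_le_S {n : ℕ} {f : H} (hf : f ∈ D.F n) (x : H) :
    Real.exp (D.lam n * (g (p := p) n f x - 1)) ≤ D.S (n + 1) x := by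
  have h1 : Real.exp (D.lam n * (g (p := p) n f x - 1)) ≤ D.G n x := by
    unfold G
    exact Finset.single_le_sum (f := fun f => Real.exp (D.lam n * (g (p := p) n f x - 1)))
      (fun f _ => (Real.exp_pos _).le) hf
  refine h1.trans ?_
  unfold S
  exact Finset.single_le_sum (f := fun n => D.G n x) (fun n _ => D.G_nonneg n x)
    (Finset.mem_range.2 (Nat.lt_succ_self n))

lemma g_le_one {x : H} (hx : x ∈ D.V) {n : ℕ} {f : H} (hf : f ∈ D.F n) :
    g (p := p) n f x ≤ 1 := by
  have h1 := (D.term_le_S hf x).trans (hx (n + 1))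
  rw [Real.exp_le_one_iff] at h1
  have := D.lam_pos n
  by_contra hc
  push Not at hc
  have := mul_pos this (sub_pos.2 hc)
  linarith

/-- the outer ball, first for points of the region -/
lemma outer_aux {x : H} (hx : x ∈ D.V) (hR : ‖x‖ ≤ p.R) : N x ≤ 1 + p.η := by
  obtain ⟨n, f, hf, h1⟩ := D.margin hR
  have h2 := D.g_le_one hx hf
  have h3 := D.reg.N_le_h p.hN p.K0 x
  have h4 : b ^ 2 / (4 * p.K) = p.η := by
    unfold Par.K
    have := p.η0; have := p.hN.b0
    field_simp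
  have := p.dl0 n
  linarith

lemma zero_mem_V : (0 : H) ∈ D.V := by
  intro m
  have h0 : N 0 = 0 := by
    have := p.hN.smul 0 0
    simpa using this
  have := D.inner_ball (x := 0) (by rw [h0]; have := p.η1; linarith) m
  linarith

lemma outer_ball {x : H} (hx : x ∈ D.V) : N x ≤ 1 + 2 * p.η := by
  by_contra hc
  push Not at hc
  have hη := p.η0
  have hη1 := p.η1
  have hpos : 0 < N x := by linarith
  set s := (1 + 2 * p.η) / N x with hs
  have hs0 : 0 < s := by positivity
  have hs1 : s ≤ 1 := by rw [hs, div_le_one hpos]; exact hc.le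
  have h1 : s • x ∈ D.V := by
    have := D.V_convex hx D.zero_mem_V hs0.le (by linarith : 0 ≤ 1 - s) (by ring)
    simpa using this
  have h2 : N (s • x) = 1 + 2 * p.η := by
    rw [p.hN.smul, abs_of_pos hs0, hs, div_mul_cancel₀ _ hpos.ne']
  have h3 : ‖s • x‖ ≤ p.R := by
    unfold Par.R
    rw [le_div_iff₀ p.hN.a0]
    have := p.hN.lo (s • x)
    linarith
  have h4 := D.outer_aux h1 h3
  linarith

lemma V_region {x : H} (hx : x ∈ D.V) : ‖x‖ ≤ p.R := by
  unfold Par.R
  rw [le_div_iff₀ p.hN.a0]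
  have := p.hN.lo x
  have := D.outer_ball hx
  have := p.η1
  linarith

end Dat

end Pool.Agent.H345R3.AnNorm
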