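import Mathlib
import Pool.Agent.H345R3.AnNormB

/-!
Holomorphic extension of the exponential sum near every point of the new ball.
-/

set_option autoImplicit false

noncomputable section

open Filter Topology
open scoped ENNReal

namespace Pool.Agent.H345R3.AnNorm

open Pool.Agent.H345R3.L2

variable {N : H → ℝ} {a b : ℝ}

namespace Par

variable (p : Par N a b)

/-- complex version of the tail term -/
def phC (w : ℂ) : ℂ :=
  (p.c : ℂ) * (Complex.exp (Complex.log (w + (p.δ : ℂ) ^ 2) * (1 / 2)) - (p.δ : ℂ))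

lemma phC_real {q : ℝ} (hq : 0 ≤ q) : p.phC (q : ℂ) = ((p.ph q : ℝ) : ℂ) := by
  have hδ := p.δ0
  have hpos : 0 < q + p.δ ^ 2 := by positivity
  unfold phC ph
  have h1 : ((q : ℂ) + (p.δ : ℂ) ^ 2) = ((q + p.δ ^ 2 : ℝ) : ℂ) := by push_cast; ring
  rw [h1, ← Complex.ofReal_log hpos.le]
  rw [Real.sqrt_eq_rpow, Real.rpow_def_of_pos hpos]
  push_cast
  ring_nf

lemma phC_zero : p.phC 0 = 0 := by
  have := p.phC_real (le_refl (0 : ℝ))
  rw [Complex.ofReal_zero] at this
  rw [this]
  unfold ph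
  rw [zero_add, Real.sqrt_sq p.δ0.le, sub_self, mul_zero, Complex.ofReal_zero]

lemma phC_analytic {w : ℂ} (hw : 0 < (w + (p.δ : ℂ) ^ 2).re) : AnalyticAt ℂ p.phC w := by
  unfold phC
  have h1 : AnalyticAt ℂ (fun w : ℂ => w + (p.δ : ℂ) ^ 2) w := analyticAt_id.add analyticAt_const
  have h2 : AnalyticAt ℂ (fun w : ℂ => Complex.log (w + (p.δ : ℂ) ^ 2)) w :=
    h1.clog (Or.inl hw)
  exact analyticAt_const.mul (((h2.mul analyticAt_const).cexp).sub analyticAt_const)

end Par

namespace Dat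

variable {p : Par N a b} (D : Dat p)

/-- complex elementary functions -/
def gC (p : Par N a b) (n : ℕ) (f : H) (z : HC) : ℂ :=
  B (io f) z - ((‖f‖ ^ 2 / (4 * p.K) : ℝ) : ℂ) + (p.dl n : ℂ) + p.phC (qC n z)

/-- complex blocks -/
def GC (n : ℕ) (z : HC) : ℂ := ∑ f ∈ D.F n, Complex.exp ((D.lam n : ℂ) * (gC p n f z - 1))

lemma gC_io (n : ℕ) (f x : H) : gC p n f (io x) = ((g (p := p) n f x : ℝ) : ℂ) := by
  unfold gC g A
  rw [B_io, qC_io, p.phC_real (by positivity)]
  push_cast
  ring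

lemma GC_io (n : ℕ) (x : H) : D.GC n (io x) = ((D.G n x : ℝ) : ℂ) := by
  unfold GC G
  rw [Complex.ofReal_sum]
  apply Finset.sum_congr rfl
  intro f _
  rw [gC_io]
  push_cast
  ring_nf

lemma slit {n : ℕ} {u : H} {z : HC} (hz : ‖z - io u‖ ≤ p.δ / 2) :
    0 < (qC n z + (p.δ : ℂ) ^ 2).re := by
  have h1 := qC_re_lower n u z
  have h2 : ((p.δ : ℂ) ^ 2).re = p.δ ^ 2 := by
    rw [← Complex.ofReal_pow, Complex.ofReal_re]
  rw [Complex.add_re, h2]
  have hδ := p.δ0
  have h3 : ‖z - io u‖ ^ 2 ≤ (p.δ / 2) ^ 2 := pow_le_pow_left₀ (norm_nonneg _) hz 2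
  nlinarith

lemma gC_analytic (n : ℕ) (f : H) {u : H} {z : HC} (hz : ‖z - io u‖ ≤ p.δ / 2) :
    AnalyticAt ℂ (gC p n f) z := by
  have h1 : AnalyticAt ℂ (fun z => B (io f) z) z := B_lin_analytic _ _
  have h2 : AnalyticAt ℂ (fun z => p.phC (qC n z)) z :=
    (p.phC_analytic (slit hz)).comp (qC_analytic n z)
  exact ((h1.sub analyticAt_const).add analyticAt_const).add h2

lemma GC_analytic (n : ℕ) {u : H} {z : HC} (hz : ‖z - io u‖ ≤ p.δ / 2) :
    AnalyticAt ℂ (D.GC n) z := by
  unfold GC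
  apply Finset.analyticAt_fun_sum
  intro f _
  exact (analyticAt_const.mul ((gC_analytic n f hz).sub analyticAt_const)).cexp

lemma gC_re_le {n : ℕ} {f : H} (hf : f ∈ D.F n) (u : H) (z : HC) :
    (gC p n f z).re ≤ D.reg.h u + b * ‖z - io u‖ + p.dl n + ‖p.phC (qC n z)‖ := by
  have h1 : B (io f) z = ((inner ℝ f u : ℝ) : ℂ) + B (io f) (z - io u) := by
    rw [← B_io, ← B_add_right]; congr 1; abel
  have h2 : (B (io f) z).re ≤ inner ℝ f u + b * ‖z - io u‖ := by
    rw [h1, Complex.add_re, Complex.ofReal_re]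
    have h3 := (Complex.re_le_norm (B (io f) (z - io u))).trans (B_norm_le (io f) (z - io u))
    rw [io_norm] at h3
    have h4 : ‖f‖ * ‖z - io u‖ ≤ b * ‖z - io u‖ :=
      mul_le_mul_of_nonneg_right (norm_C p.hN (D.mem n f hf)) (norm_nonneg _)
    linarith
  have h3 := D.reg.le_h (D.mem n f hf) u
  have h4 := Complex.re_le_norm (p.phC (qC n z))
  unfold A at h3
  unfold gC
  rw [Complex.add_re, Complex.add_re, Complex.sub_re, Complex.ofReal_re, Complex.ofReal_re]
  linarith

lemma qC_norm_le (n : ℕ) (u : H) (z : HC) : ‖qC n z‖ ≤ (‖tl n u‖ + ‖z - io u‖) ^ 2 := by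
  have h1 := qC_near n u z
  have h2 : ‖qC n z‖ ≤ ‖qC n z - ((‖tl n u‖ ^ 2 : ℝ) : ℂ)‖ + ‖((‖tl n u‖ ^ 2 : ℝ) : ℂ)‖ := by
    have := norm_add_le (qC n z - ((‖tl n u‖ ^ 2 : ℝ) : ℂ)) ((‖tl n u‖ ^ 2 : ℝ) : ℂ)
    rwa [sub_add_cancel] at this
  have h3 : ‖((‖tl n u‖ ^ 2 : ℝ) : ℂ)‖ = ‖tl n u‖ ^ 2 := by
    rw [Complex.norm_real, Real.norm_of_nonneg (by positivity)]
  rw [h3] at h2
  nlinarith

/-- the local M-test data -/
theorem local_data {u : H} (hu : u ∈ D.V) : ∃ r : ℝ, 0 < r ∧ ∃ v : ℕ → ℝ, Summable v ∧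
    (∀ n, ∀ z ∈ Metric.ball (io u) r, AnalyticAt ℂ (D.GC n) z) ∧
    (∀ n, ∀ z ∈ Metric.ball (io u) r, ‖D.GC n z‖ ≤ v n) := by
  obtain ⟨n1, f1, hf1, hm⟩ := D.margin (D.V_region hu)
  have hg1 := D.g_le_one hu hf1
  set θ := p.dl n1 / 8 with hθ
  have hθ0 : 0 < θ := by have := p.dl0 n1; positivity
  have hh : D.reg.h u ≤ 1 - 4 * θ := by rw [hθ]; linarith
  -- continuity of the complex tail term at zero
  have hcont : ContinuousAt p.phC 0 := by
    have han : AnalyticAt ℂ p.phC 0 := by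
      apply p.phC_analytic
      rw [zero_add, ← Complex.ofReal_pow, Complex.ofReal_re]
      have := p.δ0
      positivity
    exact han.continuousAt
  obtain ⟨s, hs0, hs⟩ := Metric.continuousAt_iff.1 hcont θ hθ0
  have hs' : ∀ w : ℂ, ‖w‖ < s → ‖p.phC w‖ ≤ θ := by
    intro w hw
    have := hs (x := w) (by rw [dist_zero_right]; exact hw)
    rw [p.phC_zero, dist_zero_right] at this
    exact this.le
  set σ := Real.sqrt s / 3 with hσ
  have hσ0 : 0 < σ := by have := Real.sqrt_pos.2 hs0; positivity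
  obtain ⟨n2, hn2⟩ := tail_small u (pow_pos hσ0 2)
  obtain ⟨n3, hn3⟩ := eventually_atTop.1 (p.dl_tendsto.eventually (gt_mem_nhds hθ0))
  obtain ⟨n4, hn4⟩ := exists_nat_gt (p.η / θ)
  set M := max (max n2 n3) n4 with hM
  -- bounds for the first blocks
  have hfin : ∀ᶠ z in 𝓝 (io u), ∀ n ∈ Finset.range M, ‖D.GC n z‖ ≤ ‖D.GC n (io u)‖ + 1 := by
    rw [Filter.eventually_all_finset]
    intro n _
    have hc : ContinuousAt (D.GC n) (io u) :=
      (D.GC_analytic n (u := u) (z := io u) (by rw [sub_self, norm_zero]; have := p.δ0; positivity)).continuousAt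
    have := hc.norm.eventually (gt_mem_nhds (lt_add_one ‖D.GC n (io u)‖))
    filter_upwards [this] with z hz
    exact hz.le
  obtain ⟨r0, hr0, hr0'⟩ := Metric.eventually_nhds_iff_ball.1 hfin
  have hb := p.hN.b0
  set r := min r0 (min (p.δ / 2) (min σ (θ / b))) with hr
  have hrpos : 0 < r := by
    have := p.δ0
    rw [hr]
    refine lt_min hr0 (lt_min (by positivity) (lt_min hσ0 (by positivity)))
  have hr1 : r ≤ r0 := min_le_left _ _
  have hr2 : r ≤ p.δ / 2 := (min_le_right _ _).trans (min_le_left _ _)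
  have hr3 : r ≤ σ := (min_le_right _ _).trans ((min_le_right _ _).trans (min_le_left _ _))
  have hr4 : r ≤ θ / b := (min_le_right _ _).trans ((min_le_right _ _).trans (min_le_right _ _))
  refine ⟨r, hrpos, fun n => (if n < M then ‖D.GC n (io u)‖ + 1 else 0) + (1 / 2) ^ (n + 2),
    ?_, ?_, ?_⟩
  · apply Summable.add
    · apply summable_of_finite_support
      apply (Finset.finite_toSet (Finset.range M)).subset
      intro n hn
      rw [Function.mem_support] at hn
      by_contra hc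
      apply hn
      rw [if_neg]
      intro h; exact hc (by simpa using h)
    · have := (summable_geometric_two).mul_right ((1 / 2 : ℝ) ^ 2)
      refine this.congr fun n => ?_
      rw [pow_add]
  · intro n z hz
    rw [Metric.mem_ball, dist_eq_norm] at hz
    exact D.GC_analytic n (u := u) (hz.le.trans hr2)
  · intro n z hz
    show ‖D.GC n z‖ ≤ (if n < M then ‖D.GC n (io u)‖ + 1 else 0) + (1 / 2) ^ (n + 2)
    by_cases hn : n < M
    · rw [if_pos hn]
      have h1 := hr0' z (Metric.ball_subset_ball hr1 hz) n (Finset.mem_range.2 hn)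
      have : (0 : ℝ) < (1 / 2) ^ (n + 2) := by positivity
      linarith
    · rw [if_neg hn, zero_add]
      push Not at hn
      have hn2' : n2 ≤ n := ((le_max_left _ _).trans (le_max_left _ _)).trans hn
      have hn3' : n3 ≤ n := ((le_max_right _ _).trans (le_max_left _ _)).trans hn
      have hn4' : n4 ≤ n := (le_max_right _ _).trans hn
      rw [Metric.mem_ball, dist_eq_norm] at hz
      have hq : ‖qC n z‖ < s := by
        have h1 := qC_norm_le n u z
        have h2 : ‖tl n u‖ ≤ σ := by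
          apply le_of_sq_le_sq (hn2 n hn2') hσ0.le
        have h3 : ‖z - io u‖ ≤ σ := hz.le.trans hr3
        have h4 : (‖tl n u‖ + ‖z - io u‖) ^ 2 ≤ (σ + σ) ^ 2 :=
          pow_le_pow_left₀ (by positivity) (add_le_add h2 h3) 2
        have h5 : (σ + σ) ^ 2 = 4 / 9 * s := by
          rw [hσ]
          have := Real.sq_sqrt hs0.le
          nlinarith
        linarith
      have hph := hs' _ hq
      have hterm : ∀ f ∈ D.F n, ‖Complex.exp ((D.lam n : ℂ) * (gC p n f z - 1))‖ ≤
          Real.exp (-(D.lam n * θ)) := by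
        intro f hf
        rw [Complex.norm_exp]
        apply Real.exp_le_exp.2
        have h1 := D.gC_re_le hf u z
        have h2 : b * ‖z - io u‖ ≤ θ := by
          have : ‖z - io u‖ ≤ θ / b := hz.le.trans hr4
          rw [le_div_iff₀ hb] at this
          linarith
        have h3 := hn3 n hn3'
        have h4 : ((D.lam n : ℂ) * (gC p n f z - 1)).re = D.lam n * ((gC p n f z).re - 1) := by
          rw [Complex.re_ofReal_mul]; simp
        rw [h4]
        have h5 : (gC p n f z).re - 1 ≤ -θ := by linarith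
        have := mul_le_mul_of_nonneg_left h5 (D.lam_pos n).le
        linarith
      calc ‖D.GC n z‖ ≤ ∑ f ∈ D.F n, ‖Complex.exp ((D.lam n : ℂ) * (gC p n f z - 1))‖ := by
            unfold GC; exact norm_sum_le _ _
        _ ≤ ∑ _f ∈ D.F n, Real.exp (-(D.lam n * θ)) := Finset.sum_le_sum hterm
        _ = ((D.F n).card : ℝ) * Real.exp (-(D.lam n * θ)) := by
            rw [Finset.sum_const, nsmul_eq_mul]
        _ ≤ _ := by
            apply D.card_exp n hθ0
            rw [div_lt_iff₀ hθ0] at hn4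
            have h6 : (n4 : ℝ) ≤ n := by exact_mod_cast hn4'
            nlinarith

/-- the full sum -/
def Fr (x : H) : ℝ := ∑' n, D.G n x

theorem Fr_analytic {u : H} (hu : u ∈ D.V) : AnalyticAt ℝ D.Fr u := by
  obtain ⟨r, hr, v, hv, h1, h2⟩ := D.local_data hu
  have h3 := Pool.Agent.H345R3.Holo.analyticAt_tsum hr hv h1 h2
  have h4 := analyticAt_real h3
  have h5 : (fun x => ((∑' n, D.GC n (io x)) : ℂ).re) = D.Fr := by
    funext x
    unfold Fr
    simp only [GC_io]
    rw [← Complex.ofReal_tsum, Complex.ofReal_re]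
  rw [← h5]
  exact h4

theorem summable_near {u : H} (hu : u ∈ D.V) : ∀ᶠ x in 𝓝 u, Summable fun n => D.G n x := by
  obtain ⟨r, hr, v, hv, _, h2⟩ := D.local_data hu
  filter_upwards [Metric.ball_mem_nhds u hr] with x hx
  refine Summable.of_norm_bounded hv fun n => ?_
  have h3 := h2 n (io x) (by
    rw [Metric.mem_ball, dist_eq_norm, ← map_sub, io_norm, ← dist_eq_norm]
    exact hx)
  rw [GC_io, Complex.norm_real] at h3
  exact h3

end Dat

end Pool.Agent.H345R3.AnNorm
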