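import Mathlib
import Pool.Agent.H345R3.AnNormC

/-!
The Minkowski functional of the new ball is a real analytic norm.
-/

set_option autoImplicit false

noncomputable section

open Filter Topology
open scoped ENNReal ContDiff

namespace Pool.Agent.H345R3.AnNorm

open Pool.Agent.H345R3.L2

variable {N : H → ℝ} {a b : ℝ}

namespace Dat

variable {p : Par N a b} (D : Dat p)

lemma N_cont (hN : IsN N a b) : Continuous N := by
  have h : ∀ x y, |N x - N y| ≤ b * ‖x - y‖ := by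
    intro x y
    have h1 := hN.add (x - y) y
    have h2 := hN.add (y - x) x
    rw [sub_add_cancel] at h1 h2
    have h3 := hN.hi (x - y)
    have h4 := hN.hi (y - x)
    rw [norm_sub_rev y x] at h4
    rw [abs_le]; constructor <;> linarith
  have : LipschitzWith (Real.toNNReal b) N := by
    apply LipschitzWith.of_dist_le_mul
    intro x y
    rw [Real.dist_eq, dist_eq_norm, Real.coe_toNNReal _ hN.b0.le]
    exact h x y
  exact this.continuous

lemma V_nhds : D.V ∈ 𝓝 (0 : H) := by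
  have h0 : N 0 = 0 := by
    have := p.hN.smul 0 0
    simpa using this
  have h1 : ∀ᶠ x in 𝓝 (0 : H), N x < 1 - 3 * p.η := by
    apply (N_cont p.hN).continuousAt.eventually (gt_mem_nhds _)
    rw [h0]; have := p.η1; linarith
  filter_upwards [h1] with x hx m
  have := D.inner_ball hx.le m
  linarith

/-- the new norm -/
def M (x : H) : ℝ := gauge D.V x

lemma M_nonneg (x : H) : 0 ≤ D.M x := gauge_nonneg _

lemma M_add (x y : H) : D.M (x + y) ≤ D.M x + D.M y :=
  gauge_add_le D.V_convex (absorbent_nhds_zero D.V_nhds) x y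

lemma M_smul (c : ℝ) (x : H) : D.M (c • x) = |c| * D.M x := by
  rcases le_total 0 c with hc | hc
  · rw [abs_of_nonneg hc]
    unfold M
    rw [gauge_smul_of_nonneg hc, smul_eq_mul]
  · rw [abs_of_nonpos hc]
    have h1 : D.M (c • x) = D.M ((-c) • x) := by
      unfold M
      rw [neg_smul, gauge_neg (fun x hx => D.V_neg hx)]
    rw [h1]
    unfold M
    rw [gauge_smul_of_nonneg (by linarith), smul_eq_mul]

lemma M_cont : Continuous D.M := continuous_gauge D.V_convex D.V_nhds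

lemma M_le_one {x : H} : D.M x ≤ 1 ↔ x ∈ D.V := by
  unfold M
  rw [gauge_le_one_iff_mem_closure D.V_convex D.V_nhds, D.V_closed.closure_eq]

lemma M_lower (x : H) : N x ≤ (1 + 2 * p.η) * D.M x := by
  have hη := p.η0
  apply le_of_forall_pos_le_add
  intro e he
  -- scale by t slightly larger than M x
  set t := D.M x + e / (1 + 2 * p.η) with ht
  have ht0 : 0 < t := by
    have := D.M_nonneg x
    have : 0 < e / (1 + 2 * p.η) := by positivity
    linarith
  have h1 : D.M (t⁻¹ • x) ≤ 1 := by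
    rw [D.M_smul, abs_of_pos (inv_pos.2 ht0), inv_mul_le_iff₀ ht0, mul_one, ht]
    have : 0 < e / (1 + 2 * p.η) := by positivity
    linarith
  have h2 := D.outer_ball (D.M_le_one.1 h1)
  rw [p.hN.smul, abs_of_pos (inv_pos.2 ht0), inv_mul_le_iff₀ ht0, ht] at h2
  calc N x ≤ (D.M x + e / (1 + 2 * p.η)) * (1 + 2 * p.η) := h2
    _ = _ := by field_simp

lemma M_upper (x : H) : (1 - 3 * p.η) * D.M x ≤ N x := by
  have hη := p.η0
  have hη1 := p.η1
  by_cases hx : x = 0
  · have h0 : D.M x = 0 := by rw [hx]; unfold M; exact gauge_zero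
    rw [h0, mul_zero]; exact p.hN.nonneg x
  · have hNx : 0 < N x := lt_of_lt_of_le (mul_pos p.hN.a0 (norm_pos_iff.2 hx)) (p.hN.lo x)
    set t := (1 - 3 * p.η) / N x with ht
    have ht0 : 0 < t := div_pos (by linarith) hNx
    have h1 : t • x ∈ D.V := by
      intro m
      have := D.inner_ball (x := t • x) (by
        rw [p.hN.smul, abs_of_pos ht0, ht, div_mul_cancel₀ _ hNx.ne']) m
      linarith
    have h2 := D.M_le_one.2 h1
    rw [D.M_smul, abs_of_pos ht0, ht, div_mul_eq_mul_div, div_le_one hNx] at h2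
    exact h2

lemma M_pos {x : H} (hx : x ≠ 0) : 0 < D.M x := by
  have h1 := D.M_lower x
  have hNx : 0 < N x := lt_of_lt_of_le (mul_pos p.hN.a0 (norm_pos_iff.2 hx)) (p.hN.lo x)
  have hη := p.η0
  by_contra hc
  push Not at hc
  have : (1 + 2 * p.η) * D.M x ≤ 0 := mul_nonpos_of_nonneg_of_nonpos (by linarith) hc
  linarith

lemma summable_V {u : H} (hu : u ∈ D.V) : Summable fun n => D.G n u :=
  (D.summable_near hu).self_of_nhds

lemma S_le_Fr {x : H} (hx : Summable fun n => D.G n x) (m : ℕ) : D.S m x ≤ D.Fr x := by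
  unfold S Fr
  exact hx.sum_le_tsum _ fun n _ => D.G_nonneg n x

lemma Fr_le_one {u : H} (hu : u ∈ D.V) : D.Fr u ≤ 1 := by
  unfold Fr
  exact (D.summable_V hu).tsum_le_of_sum_range_le fun m => hu m

lemma Fr_eq_one {u : H} (hu : D.M u = 1) : D.Fr u = 1 := by
  have hV := D.M_le_one.1 hu.le
  apply le_antisymm (D.Fr_le_one hV)
  by_contra hc
  push Not at hc
  have h1 : ∀ᶠ x in 𝓝 u, D.Fr x < 1 :=
    (D.Fr_analytic hV).continuousAt.eventually (gt_mem_nhds hc)
  have h2 : ∀ᶠ x in 𝓝 u, x ∈ D.V := by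
    filter_upwards [h1, D.summable_near hV] with x hx1 hx2 m
    exact (D.S_le_Fr hx2 m).trans hx1.le
  have h3 : Tendsto (fun s : ℝ => s • u) (𝓝 1) (𝓝 u) := by
    have : Continuous fun s : ℝ => s • u := by fun_prop
    have := this.tendsto 1
    rwa [one_smul] at this
  have h4 : ∀ᶠ s : ℝ in 𝓝 1, s • u ∈ D.V := h3.eventually h2
  obtain ⟨e, he, he'⟩ := Metric.eventually_nhds_iff_ball.1 h4
  have h5 := he' (1 + e / 2) (by
    rw [Metric.mem_ball, Real.dist_eq]
    rw [show 1 + e / 2 - 1 = e / 2 by ring, abs_of_pos (by positivity)]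
    linarith)
  have h6 := D.M_le_one.2 h5
  rw [D.M_smul, hu, abs_of_pos (by positivity)] at h6
  linarith

lemma Fr_zero_lt : D.Fr 0 ≤ 1 / 2 := by
  unfold Fr
  refine (D.summable_V D.zero_mem_V).tsum_le_of_sum_range_le fun m => ?_
  have h0 : N 0 = 0 := by
    have := p.hN.smul 0 0
    simpa using this
  exact D.inner_ball (x := 0) (by rw [h0]; have := p.η1; linarith) m

lemma Fr_seg {u : H} (hu : u ∈ D.V) {s : ℝ} (hs : 0 ≤ s) (hs1 : s ≤ 1) :
    D.Fr (s • u) ≤ (1 - s) * D.Fr 0 + s * D.Fr u := by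
  have h1 : s • u ∈ D.V := by
    have := D.V_convex hu D.zero_mem_V hs (by linarith : 0 ≤ 1 - s) (by ring)
    simpa using this
  unfold Fr
  rw [← tsum_mul_left, ← tsum_mul_left,
    ← ((D.summable_V D.zero_mem_V).mul_left (1 - s)).tsum_add ((D.summable_V hu).mul_left s)]
  refine (D.summable_V h1).tsum_le_tsum (fun n => ?_)
    (((D.summable_V D.zero_mem_V).mul_left (1 - s)).add ((D.summable_V hu).mul_left s))
  have := (D.G_conv n).2 (Set.mem_univ (0 : H)) (Set.mem_univ u) (by linarith : 0 ≤ 1 - s) hs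
    (by ring)
  simpa using this

/-- radial derivative is positive -/
lemma radial {u : H} (hu : D.M u = 1) : 1 / 2 ≤ fderiv ℝ D.Fr u u := by
  have hV := D.M_le_one.1 hu.le
  have hd : HasFDerivAt D.Fr (fderiv ℝ D.Fr u) u :=
    (D.Fr_analytic hV).differentiableAt.hasFDerivAt
  have hline : HasDerivAt (fun s : ℝ => s • u) u 1 := by
    have := (hasDerivAt_id (1 : ℝ)).smul_const u
    simpa using this
  have hd' : HasFDerivAt D.Fr (fderiv ℝ D.Fr u) ((1 : ℝ) • u) := by rw [one_smul]; exact hd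
  have hc : HasDerivAt (fun s : ℝ => D.Fr (s • u)) (fderiv ℝ D.Fr u u) 1 :=
    HasFDerivAt.comp_hasDerivAt (l := D.Fr) (f := fun s : ℝ => s • u) (1 : ℝ) hd' hline
  have hslope := hc.hasDerivWithinAt (s := Set.Iio 1)
  rw [hasDerivWithinAt_iff_tendsto_slope' (by simp)] at hslope
  refine ge_of_tendsto hslope ?_
  have hev : ∀ᶠ s : ℝ in 𝓝[<] 1, s ∈ Set.Ioo (0 : ℝ) 1 := Ioo_mem_nhdsLT (by norm_num)
  filter_upwards [hev] with s hs
  have h1 := D.Fr_seg hV hs.1.le hs.2.le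
  rw [D.Fr_eq_one hu] at h1
  have h2 := D.Fr_zero_lt
  rw [slope_def_field, one_smul, D.Fr_eq_one hu, le_div_iff_of_neg (by linarith [hs.2])]
  nlinarith [hs.1, hs.2]

theorem M_analytic {x : H} (hx : x ≠ 0) : AnalyticAt ℝ D.M x := by
  have hM := D.M_pos hx
  set s0 := (D.M x)⁻¹ with hs0
  have hs0pos : 0 < s0 := inv_pos.2 hM
  set u := s0 • x with hu
  have hMu : D.M u = 1 := by
    rw [hu, D.M_smul, abs_of_pos hs0pos, hs0, inv_mul_cancel₀ hM.ne']
  have hV := D.M_le_one.1 hMu.le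
  set Φ : H × ℝ → ℝ := fun q => D.Fr (q.2 • q.1) with hΦ
  have hsm : AnalyticAt ℝ (fun q : H × ℝ => q.2 • q.1) (x, s0) := analyticAt_snd.smul analyticAt_fst
  have hΦa : AnalyticAt ℝ Φ (x, s0) := by
    have h1 : AnalyticAt ℝ D.Fr ((fun q : H × ℝ => q.2 • q.1) (x, s0)) := D.Fr_analytic hV
    exact AnalyticAt.comp (g := D.Fr) (f := fun q : H × ℝ => q.2 • q.1) h1 hsm
  have hΦc : ContDiffAt ℝ ω Φ (x, s0) := hΦa.contDiffAt
  -- partial derivative in the scalar variable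
  have hline : HasDerivAt (fun s : ℝ => s • x) x s0 := by
    have := (hasDerivAt_id s0).smul_const x
    simpa using this
  have hFd : HasFDerivAt D.Fr (fderiv ℝ D.Fr u) (s0 • x) :=
    (D.Fr_analytic hV).differentiableAt.hasFDerivAt
  have h1 : HasDerivAt (fun s : ℝ => D.Fr (s • x)) (fderiv ℝ D.Fr u x) s0 :=
    HasFDerivAt.comp_hasDerivAt (l := D.Fr) (f := fun s : ℝ => s • x) s0 hFd hline
  have h2 : HasDerivAt (fun s : ℝ => D.Fr (s • x)) (fderiv ℝ Φ (x, s0) (0, 1)) s0 := by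
    have hΦd : HasFDerivAt Φ (fderiv ℝ Φ (x, s0)) (x, s0) := hΦa.differentiableAt.hasFDerivAt
    have hpair : HasDerivAt (fun s : ℝ => ((x, s) : H × ℝ)) (0, 1) s0 :=
      (hasDerivAt_const s0 x).prodMk (hasDerivAt_id s0)
    exact hΦd.comp_hasDerivAt s0 hpair
  have h3 : fderiv ℝ Φ (x, s0) (0, 1) = fderiv ℝ D.Fr u x := h2.unique h1
  have h4 : fderiv ℝ D.Fr u x ≠ 0 := by
    have h5 := D.radial hMu
    have h6 : fderiv ℝ D.Fr u u = s0 * fderiv ℝ D.Fr u x := by
      conv_lhs => rw [hu]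
      rw [map_smul, smul_eq_mul]
    rw [h6] at h5
    intro h7
    rw [h7, mul_zero] at h5
    linarith
  have hinv : (fderiv ℝ Φ (x, s0) ∘L .inr ℝ H ℝ).IsInvertible := by
    have hc : fderiv ℝ Φ (x, s0) ∘L .inr ℝ H ℝ =
        ((ContinuousLinearEquiv.unitsEquivAut ℝ (Units.mk0 (fderiv ℝ D.Fr u x) h4) : ℝ ≃L[ℝ] ℝ) :
          ℝ →L[ℝ] ℝ) := by
      ext
      simp [h3]
    rw [hc]
    exact ⟨_, rfl⟩
  have hpn : (ω : ℕ∞ω) ≠ 0 := by simp
  set ψ := hΦc.implicitFunction hpn hinv with hψ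
  have hψa : ContDiffAt ℝ ω ψ x := hΦc.contDiffAt_implicitFunction hpn hinv
  have hψx : ψ x = s0 := hΦc.implicitFunction_apply_self hpn hinv
  have hiff := hΦc.eventually_apply_eq_iff_implicitFunction hpn hinv
  have htend : Tendsto (fun y : H => ((y, (D.M y)⁻¹) : H × ℝ)) (𝓝 x) (𝓝 (x, s0)) := by
    have hc : ContinuousAt (fun y : H => ((y, (D.M y)⁻¹) : H × ℝ)) x :=
      continuousAt_id.prodMk (D.M_cont.continuousAt.inv₀ hM.ne')
    exact hc
  have hev := htend.eventually hiff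
  have hne : ∀ᶠ y in 𝓝 x, y ≠ 0 := isOpen_ne.mem_nhds hx
  have heq : ∀ᶠ y in 𝓝 x, ψ y = (D.M y)⁻¹ := by
    filter_upwards [hev, hne] with y hy hy0
    apply hy.1
    have hMy := D.M_pos hy0
    have h7 : D.M ((D.M y)⁻¹ • y) = 1 := by
      rw [D.M_smul, abs_of_pos (inv_pos.2 hMy), inv_mul_cancel₀ hMy.ne']
    show D.Fr ((D.M y)⁻¹ • y) = D.Fr (s0 • x)
    rw [D.Fr_eq_one h7, D.Fr_eq_one hMu]
  have hψinv : ContDiffAt ℝ ω (fun y => (ψ y)⁻¹) x :=
    hψa.inv (by rw [hψx]; exact hs0pos.ne')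
  have hMeq : D.M =ᶠ[𝓝 x] fun y => (ψ y)⁻¹ := by
    filter_upwards [heq] with y hy
    rw [hy, inv_inv]
  have hfin : ContDiffAt ℝ ω D.M x := hψinv.congr_of_eventuallyEq hMeq
  exact hfin.analyticAt

end Dat

/-- **Every equivalent norm on real `ℓ₂` is uniformly approximable on the unit ball by real
analytic norms.** -/
theorem main (N : H → ℝ) (hadd : ∀ x y, N (x + y) ≤ N x + N y)
    (hsmul : ∀ (c : ℝ) x, N (c • x) = |c| * N x)
    (heq : ∃ a b : ℝ, 0 < a ∧ 0 < b ∧ ∀ x, a * ‖x‖ ≤ N x ∧ N x ≤ b * ‖x‖) (ε : ℝ) (hε : 0 < ε) :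
    ∃ M : H → ℝ, (∀ x y, M (x + y) ≤ M x + M y) ∧ (∀ (c : ℝ) x, M (c • x) = |c| * M x) ∧
      (∃ a b : ℝ, 0 < a ∧ 0 < b ∧ ∀ x, a * ‖x‖ ≤ M x ∧ M x ≤ b * ‖x‖) ∧
      AnalyticOnNhd ℝ M {x : H | x ≠ 0} ∧ ∀ x : H, ‖x‖ ≤ 1 → |N x - M x| ≤ ε := by
  obtain ⟨a, b, ha, hb, hab⟩ := heq
  have hN : IsN N a b := ⟨hadd, hsmul, ha, hb, fun x => (hab x).1, fun x => (hab x).2⟩
  set η := min (1 / 8) (ε / (8 * b)) with hη
  have hη0 : 0 < η := lt_min (by norm_num) (by positivity)
  have hη1 : η ≤ 1 / 8 := min_le_left _ _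
  have hη2 : η ≤ ε / (8 * b) := min_le_right _ _
  set p : Par N a b := ⟨hN, η, hη0, hη1⟩ with hp
  obtain ⟨D⟩ := exists_Dat p
  have hpη : p.η = η := rfl
  have hlow := D.M_lower
  have hup := D.M_upper
  rw [hpη] at hlow hup
  refine ⟨D.M, D.M_add, D.M_smul, ⟨a / 2, 2 * b, by positivity, by positivity, ?_⟩, ?_, ?_⟩
  · intro x
    have h1 := hlow x
    have h2 := hup x
    have h3 := D.M_nonneg x
    have h4 := hN.lo x
    have h5 := hN.hi x
    constructor
    · nlinarith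
    · nlinarith
  · intro x hx
    exact D.M_analytic hx
  · intro x hx
    have h1 := hlow x
    have h2 := hup x
    have h3 := D.M_nonneg x
    have h5 := hN.hi x
    have h6 : N x ≤ b := h5.trans (by nlinarith)
    have h7 : D.M x ≤ 2 * b := by nlinarith
    have h8 : η * b ≤ ε / 8 := by
      have := mul_le_mul_of_nonneg_right hη2 hb.le
      calc η * b ≤ ε / (8 * b) * b := this
        _ = ε / 8 := by field_simp
    have h9 : η * D.M x ≤ η * (2 * b) := mul_le_mul_of_nonneg_left h7 hη0.le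
    rw [abs_le]
    constructor <;> nlinarith

end Pool.Agent.H345R3.AnNorm
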