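import Mathlib

set_option autoImplicit false
set_option linter.unusedSectionVars false

noncomputable section

namespace Pool.Agent.H345R3.Decoup

open scoped ENNReal

/-- the sign attached to a Boolean -/
def sg (b : Bool) : ℝ := if b then 1 else -1

lemma sg_sq (b : Bool) : sg b * sg b = 1 := by cases b <;> simp [sg]

section Words

variable {X : Type} [NormedAddCommGroup X] [NormedSpace ℝ X]
variable {Y : Type} [NormedAddCommGroup Y] [NormedSpace ℝ Y]

/-- the Paley-Walsh sum attached to a family of vectors indexed by words -/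
def sumF : (List Bool → X) → List Bool → X
  | _, [] => 0
  | f, (b :: l) => sg b • f [] + sumF (fun p => f (b :: p)) l

/-- the decoupled sum -/
def sumD : (List Bool → X) → List Bool → List Bool → X
  | _, [], _ => 0
  | _, _ :: _, [] => 0
  | f, (b :: l), (d :: m) => sg d • f [] + sumD (fun p => f (b :: p)) l m

/-- average over all words of a given length -/
def Ex : ℕ → (List Bool → ℝ) → ℝ
  | 0, φ => φ []
  | (n + 1), φ => (Ex n (fun l => φ (true :: l)) + Ex n (fun l => φ (false :: l))) / 2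

lemma Ex_mono : ∀ (n : ℕ) (φ ψ : List Bool → ℝ), (∀ l, l.length = n → φ l ≤ ψ l) →
    Ex n φ ≤ Ex n ψ
  | 0, φ, ψ, h => h [] rfl
  | (n + 1), φ, ψ, h => by
    have h1 := Ex_mono n (fun l => φ (true :: l)) (fun l => ψ (true :: l))
      (fun l hl => h _ (by simp [hl]))
    have h2 := Ex_mono n (fun l => φ (false :: l)) (fun l => ψ (false :: l))
      (fun l hl => h _ (by simp [hl]))
    simp only [Ex]
    linarith

lemma Ex_const (n : ℕ) (c : ℝ) : Ex n (fun _ => c) = c := by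
  induction n with
  | zero => rfl
  | succ n ih => simp only [Ex, ih]; ring

lemma Ex_add : ∀ (n : ℕ) (φ ψ : List Bool → ℝ),
    Ex n (fun l => φ l + ψ l) = Ex n φ + Ex n ψ
  | 0, φ, ψ => rfl
  | (n + 1), φ, ψ => by
    simp only [Ex]
    rw [Ex_add n (fun l => φ (true :: l)) (fun l => ψ (true :: l)),
      Ex_add n (fun l => φ (false :: l)) (fun l => ψ (false :: l))]
    ring

lemma Ex_mul : ∀ (n : ℕ) (c : ℝ) (φ : List Bool → ℝ),
    Ex n (fun l => c * φ l) = c * Ex n φ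
  | 0, c, φ => rfl
  | (n + 1), c, φ => by
    simp only [Ex]
    rw [Ex_mul n c (fun l => φ (true :: l)), Ex_mul n c (fun l => φ (false :: l))]
    ring

lemma Ex_append : ∀ (n m : ℕ) (φ : List Bool → ℝ),
    Ex (n + m) φ = Ex n (fun l => Ex m (fun l' => φ (l ++ l')))
  | 0, m, φ => by simp [Ex]
  | (n + 1), m, φ => by
    have : n + 1 + m = (n + m) + 1 := by omega
    rw [this]
    simp only [Ex]
    rw [Ex_append n m (fun l => φ (true :: l)), Ex_append n m (fun l => φ (false :: l))]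
    simp

/-- Cauchy-Schwarz for averages -/
lemma Ex_le_of_sq (n : ℕ) (u : List Bool → ℝ) (m : ℝ) (hm : 0 < m)
    (h : Ex n (fun l => u l ^ 2) ≤ m ^ 2) : Ex n u ≤ m := by
  have h1 : Ex n (fun l => (fun _ => (0 : ℝ)) l) ≤ Ex n (fun l => u l ^ 2 + ((-2 * m) * u l + m ^ 2)) := by
    apply Ex_mono
    intro l _
    show (0 : ℝ) ≤ _
    nlinarith [sq_nonneg (u l - m)]
  rw [Ex_add n (fun l => u l ^ 2) (fun l => (-2 * m) * u l + m ^ 2),
    Ex_add n (fun l => (-2 * m) * u l) (fun _ => m ^ 2), Ex_mul, Ex_const, Ex_const] at h1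
  nlinarith

lemma Ex_sq_add (n : ℕ) (u : List Bool → ℝ) (m t : ℝ) (hm : 0 < m) (ht : 0 ≤ t)
    (h : Ex n (fun l => u l ^ 2) ≤ m ^ 2) : Ex n (fun l => (u l + t) ^ 2) ≤ (m + t) ^ 2 := by
  have h1 := Ex_le_of_sq n u m hm h
  have h2 : (fun l => (u l + t) ^ 2) = (fun l => u l ^ 2 + ((2 * t) * u l + t ^ 2)) := by
    funext l; ring
  rw [h2, Ex_add n (fun l => u l ^ 2) (fun l => (2 * t) * u l + t ^ 2),
    Ex_add n (fun l => (2 * t) * u l) (fun _ => t ^ 2), Ex_mul, Ex_const]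
  nlinarith

/-- follow the first family for `n` steps and then a family depending on the past -/
def cat (n : ℕ) (f : List Bool → X) (h : List Bool → List Bool → X) : List Bool → X :=
  fun p => if p.length < n then f p else h (p.take n) (p.drop n)

lemma cat_zero (f : List Bool → X) (h : List Bool → List Bool → X) : cat 0 f h = h [] := by
  funext p
  simp [cat]

lemma cat_succ_nil (n : ℕ) (f : List Bool → X) (h : List Bool → List Bool → X) :
    cat (n + 1) f h [] = f [] := by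
  simp [cat]

lemma cat_succ_cons (n : ℕ) (f : List Bool → X) (h : List Bool → List Bool → X) (b : Bool) :
    (fun p => cat (n + 1) f h (b :: p)) = cat n (fun p => f (b :: p)) (fun q => h (b :: q)) := by
  funext p
  simp [cat]

lemma sumF_cat : ∀ (n : ℕ) (f : List Bool → X) (h : List Bool → List Bool → X)
    (l l' : List Bool), l.length = n →
    sumF (cat n f h) (l ++ l') = sumF f l + sumF (h l) l'
  | 0, f, h, l, l', hl => by
    have : l = [] := List.length_eq_zero_iff.mp hl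
    subst this
    simp [cat_zero, sumF]
  | (n + 1), f, h, [], l', hl => by simp at hl
  | (n + 1), f, h, b :: l, l', hl => by
    have hl' : l.length = n := by simpa using hl
    simp only [List.cons_append, sumF]
    rw [cat_succ_nil, cat_succ_cons, sumF_cat n _ _ l l' hl', add_assoc]

lemma sumD_cat : ∀ (n : ℕ) (f : List Bool → X) (h : List Bool → List Bool → X)
    (l l' m m' : List Bool), l.length = n → m.length = n →
    sumD (cat n f h) (l ++ l') (m ++ m') = sumD f l m + sumD (h l) l' m'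
  | 0, f, h, l, l', m, m', hl, hm => by
    have : l = [] := List.length_eq_zero_iff.mp hl
    subst this
    have : m = [] := List.length_eq_zero_iff.mp hm
    subst this
    simp [cat_zero, sumD]
  | (n + 1), f, h, [], l', m, m', hl, hm => by simp at hl
  | (n + 1), f, h, b :: l, l', [], m', hl, hm => by simp at hm
  | (n + 1), f, h, b :: l, l', d :: m, m', hl, hm => by
    have hl' : l.length = n := by simpa using hl
    have hm' : m.length = n := by simpa using hm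
    simp only [List.cons_append, sumD]
    rw [cat_succ_nil, cat_succ_cons, sumD_cat n _ _ l l' m m' hl' hm', add_assoc]

lemma sumF_map (T : X →ₗ[ℝ] Y) : ∀ (f : List Bool → X) (l : List Bool),
    sumF (fun p => T (f p)) l = T (sumF f l)
  | f, [] => by simp [sumF]
  | f, (b :: l) => by
    simp only [sumF]
    rw [sumF_map T (fun p => f (b :: p)) l, map_add, map_smul]

lemma sumD_map (T : X →ₗ[ℝ] Y) : ∀ (f : List Bool → X) (l m : List Bool),
    sumD (fun p => T (f p)) l m = T (sumD f l m)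
  | f, [], m => by simp [sumD]
  | f, (b :: l), [] => by simp [sumD]
  | f, (b :: l), (d :: m) => by
    simp only [sumD]
    rw [sumD_map T (fun p => f (b :: p)) l m, map_add, map_smul]

end Words

section Spaces

/-- quantitative smoothness of fourth-moment type with constant three -/
def S4 (X : Type) [NormedAddCommGroup X] : Prop :=
  ∀ x y : X, (‖x + y‖ ^ 4 + ‖x - y‖ ^ 4) / 2 ≤ (‖x‖ ^ 2 + 3 * ‖y‖ ^ 2) ^ 2

instance fact4 : Fact ((1 : ℝ≥0∞) ≤ 4) := ⟨by norm_num⟩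

variable {X : Type} [NormedAddCommGroup X] [NormedSpace ℝ X]

/-- the space `ℓ₂²(X)` -/
abbrev L2 (X : Type) := PiLp 2 (fun _ : Bool => X)

/-- the space `ℓ₄²(X)` -/
abbrev L4 (X : Type) := PiLp 4 (fun _ : Bool => X)

lemma normL2 (x : L2 X) : ‖x‖ ^ 2 = ‖x true‖ ^ 2 + ‖x false‖ ^ 2 := by
  rw [PiLp.norm_sq_eq_of_L2]
  simp

lemma normL4 (x : L4 X) : ‖x‖ ^ 4 = ‖x true‖ ^ 4 + ‖x false‖ ^ 4 := by
  have h := PiLp.norm_eq_sum (p := 4) (β := fun _ : Bool => X) (by norm_num) x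
  have h4 : (4 : ℝ≥0∞).toReal = 4 := by norm_num
  rw [h4] at h
  have h0 : (0 : ℝ) ≤ ∑ i, ‖x i‖ ^ (4 : ℝ) := Finset.sum_nonneg (fun i _ => by positivity)
  rw [h, ← Real.rpow_natCast, ← Real.rpow_mul h0]
  norm_num

lemma S4_real : S4 ℝ := by
  intro x y
  simp only [Real.norm_eq_abs]
  have e1 : |x + y| ^ 4 = (x + y) ^ 4 := by
    rw [show |x + y| ^ 4 = (|x + y| ^ 2) ^ 2 by ring, sq_abs]; ring
  have e2 : |x - y| ^ 4 = (x - y) ^ 4 := by
    rw [show |x - y| ^ 4 = (|x - y| ^ 2) ^ 2 by ring, sq_abs]; ring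
  rw [e1, e2, sq_abs, sq_abs]
  nlinarith [sq_nonneg (y ^ 2)]

lemma S4_two (h : S4 X) (x y : X) : (‖x + y‖ ^ 2 + ‖x - y‖ ^ 2) / 2 ≤ ‖x‖ ^ 2 + 3 * ‖y‖ ^ 2 := by
  have h1 := h x y
  have hp : (0 : ℝ) ≤ ‖x‖ ^ 2 + 3 * ‖y‖ ^ 2 := by positivity
  apply le_of_sq_le_sq _ hp
  calc ((‖x + y‖ ^ 2 + ‖x - y‖ ^ 2) / 2) ^ 2 ≤ (‖x + y‖ ^ 4 + ‖x - y‖ ^ 4) / 2 := by
        nlinarith [sq_nonneg (‖x + y‖ ^ 2 - ‖x - y‖ ^ 2)]
    _ ≤ _ := h1

lemma S4_L2 (h : S4 X) : S4 (L2 X) := by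
  intro x y
  have a1 := h (x true) (y true)
  have a2 := h (x false) (y false)
  have hp1 : (0 : ℝ) ≤ ‖x true‖ ^ 2 + 3 * ‖y true‖ ^ 2 := by positivity
  have hp2 : (0 : ℝ) ≤ ‖x false‖ ^ 2 + 3 * ‖y false‖ ^ 2 := by positivity
  have e1 : ‖x + y‖ ^ 4 = (‖x true + y true‖ ^ 2 + ‖x false + y false‖ ^ 2) ^ 2 := by
    rw [show ‖x + y‖ ^ 4 = (‖x + y‖ ^ 2) ^ 2 by ring, normL2]; rfl
  have e2 : ‖x - y‖ ^ 4 = (‖x true - y true‖ ^ 2 + ‖x false - y false‖ ^ 2) ^ 2 := by
    rw [show ‖x - y‖ ^ 4 = (‖x - y‖ ^ 2) ^ 2 by ring, normL2]; rfl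
  rw [e1, e2, normL2 x, normL2 y]
  set A := ‖x true + y true‖ ^ 2 with hA
  set A' := ‖x true - y true‖ ^ 2 with hA'
  set B := ‖x false + y false‖ ^ 2 with hB
  set B' := ‖x false - y false‖ ^ 2 with hB'
  set P := ‖x true‖ ^ 2 + 3 * ‖y true‖ ^ 2 with hP
  set Q := ‖x false‖ ^ 2 + 3 * ‖y false‖ ^ 2 with hQ
  have b1 : (A ^ 2 + A' ^ 2) / 2 ≤ P ^ 2 := by
    rw [hA, hA']; nlinarith [a1]
  have b2 : (B ^ 2 + B' ^ 2) / 2 ≤ Q ^ 2 := by
    rw [hB, hB']; nlinarith [a2]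
  have hA0 : 0 ≤ A := by positivity
  have hA'0 : 0 ≤ A' := by positivity
  have hB0 : 0 ≤ B := by positivity
  have hB'0 : 0 ≤ B' := by positivity
  have key : (A * B + A' * B') / 2 ≤ P * Q := by
    apply le_of_sq_le_sq _ (mul_nonneg hp1 hp2)
    have c1 : ((A * B + A' * B') / 2) ^ 2 ≤ ((A ^ 2 + A' ^ 2) / 2) * ((B ^ 2 + B' ^ 2) / 2) := by
      nlinarith [sq_nonneg (A * B' - A' * B)]
    have c2 : ((A ^ 2 + A' ^ 2) / 2) * ((B ^ 2 + B' ^ 2) / 2) ≤ P ^ 2 * Q ^ 2 :=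
      mul_le_mul b1 b2 (by positivity) (by positivity)
    calc _ ≤ _ := c1
      _ ≤ _ := c2
      _ = _ := by ring
  have : ‖x true‖ ^ 2 + ‖x false‖ ^ 2 + 3 * (‖y true‖ ^ 2 + ‖y false‖ ^ 2) = P + Q := by
    rw [hP, hQ]; ring
  rw [this]
  nlinarith

/-- Minkowski in the plane -/
lemma mink (a b c d : ℝ) (U V : ℝ) (hU : 0 ≤ U) (hV : 0 ≤ V)
    (h1 : a ^ 2 + b ^ 2 = U ^ 2) (h2 : c ^ 2 + d ^ 2 = V ^ 2) :
    (a + 3 * c) ^ 2 + (b + 3 * d) ^ 2 ≤ (U + 3 * V) ^ 2 := by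
  have h3 : a * c + b * d ≤ U * V := by
    apply le_of_sq_le_sq _ (mul_nonneg hU hV)
    have : (U * V) ^ 2 = (a ^ 2 + b ^ 2) * (c ^ 2 + d ^ 2) := by rw [h1, h2]; ring
    rw [this]
    nlinarith [sq_nonneg (a * d - b * c)]
  nlinarith

lemma S4_L4 (h : S4 X) : S4 (L4 X) := by
  intro x y
  rw [normL4 (x + y), normL4 (x - y)]
  have a1 := h (x true) (y true)
  have a2 := h (x false) (y false)
  have m := mink (‖x true‖ ^ 2) (‖x false‖ ^ 2) (‖y true‖ ^ 2) (‖y false‖ ^ 2)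
    (‖x‖ ^ 2) (‖y‖ ^ 2) (by positivity) (by positivity)
    (by have := normL4 x; nlinarith [this]) (by have := normL4 y; nlinarith [this])
  have e1 : ‖(x + y) true‖ = ‖x true + y true‖ := rfl
  have e2 : ‖(x + y) false‖ = ‖x false + y false‖ := rfl
  have e3 : ‖(x - y) true‖ = ‖x true - y true‖ := rfl
  have e4 : ‖(x - y) false‖ = ‖x false - y false‖ := rfl
  rw [e1, e2, e3, e4]
  linarith

/-- the space used in the induction step -/
abbrev YY (X : Type) := L4 (L2 X)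

lemma normYY (w : YY X) : ‖w‖ ^ 4 =
    (‖(w true) true‖ ^ 2 + ‖(w true) false‖ ^ 2) ^ 2 +
    (‖(w false) true‖ ^ 2 + ‖(w false) false‖ ^ 2) ^ 2 := by
  rw [normL4, show ‖w true‖ ^ 4 = (‖w true‖ ^ 2) ^ 2 by ring,
    show ‖w false‖ ^ 4 = (‖w false‖ ^ 2) ^ 2 by ring, normL2, normL2]

/-- embedding in the first row with weights -/
def inj1 (a : Bool → ℝ) : X →ₗ[ℝ] YY X where
  toFun x := WithLp.toLp 4 (fun z => WithLp.toLp 2 (fun i => if i then a z • x else 0))
  map_add' x y := by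
    ext z i
    cases i <;> simp
  map_smul' c x := by
    ext z i
    cases i <;> simp [smul_smul, mul_comm]

/-- embedding in the second row with weights -/
def inj2 (a : Bool → ℝ) : X →ₗ[ℝ] YY X where
  toFun x := WithLp.toLp 4 (fun z => WithLp.toLp 2 (fun i => if i then 0 else a z • x))
  map_add' x y := by
    ext z i
    cases i <;> simp
  map_smul' c x := by
    ext z i
    cases i <;> simp [smul_smul, mul_comm]

@[simp] lemma inj1_t (a : Bool → ℝ) (x : X) (z : Bool) : ((inj1 a x) z) true = a z • x := rfl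
@[simp] lemma inj1_f (a : Bool → ℝ) (x : X) (z : Bool) : ((inj1 a x) z) false = 0 := rfl
@[simp] lemma inj2_t (a : Bool → ℝ) (x : X) (z : Bool) : ((inj2 a x) z) true = 0 := rfl
@[simp] lemma inj2_f (a : Bool → ℝ) (x : X) (z : Bool) : ((inj2 a x) z) false = a z • x := rfl

/-- indicator weight -/
def wt (c : List Bool) (z : Bool) : ℝ := if c = [z] then 1 else 0

/-- the composed family -/
def comp (n : ℕ) (t : ℝ) (f : List Bool → X) : List Bool → YY X :=
  cat n (fun p => inj1 (fun _ => 1) (f p))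
    (fun q => cat 1 (fun _ => inj1 (fun z => t * sg z) (sumF f q))
      (fun c p => inj2 (wt c) (f p)))

lemma sumF_comp (n : ℕ) (t : ℝ) (f : List Bool → X) (l l' : List Bool) (c : Bool)
    (hl : l.length = n) :
    sumF (comp n t f) (l ++ c :: l') =
      inj1 (fun _ => 1) (sumF f l) + (sg c • inj1 (fun z => t * sg z) (sumF f l)
        + inj2 (wt [c]) (sumF f l')) := by
  unfold comp
  rw [sumF_cat n _ _ _ _ hl, sumF_map, show c :: l' = [c] ++ l' by rfl,
    sumF_cat 1 _ _ _ _ rfl, sumF_map (inj2 (wt [c])) f l']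
  simp [sumF]

lemma sumD_comp (n : ℕ) (t : ℝ) (f : List Bool → X) (l l' m m' : List Bool) (c d : Bool)
    (hl : l.length = n) (hm : m.length = n) :
    sumD (comp n t f) (l ++ c :: l') (m ++ d :: m') =
      inj1 (fun _ => 1) (sumD f l m) + (sg d • inj1 (fun z => t * sg z) (sumF f l)
        + inj2 (wt [c]) (sumD f l' m')) := by
  unfold comp
  rw [sumD_cat n _ _ _ _ _ _ hl hm, sumD_map, show c :: l' = [c] ++ l' by rfl,
    show d :: m' = [d] ++ m' by rfl,
    sumD_cat 1 _ _ _ _ _ _ rfl rfl, sumD_map (inj2 (wt [c])) f l' m']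
  simp [sumD]

/-- norm of a typical vector of the composed family -/
lemma norm_typ (x y w : X) (t : ℝ) (c d : Bool) :
    ‖inj1 (fun _ => 1) x + (sg d • inj1 (fun z => t * sg z) y + inj2 (wt [c]) w)‖ ^ 4 =
      (‖x + (t * sg d) • y‖ ^ 2 + wt [c] true * ‖w‖ ^ 2) ^ 2 +
      (‖x - (t * sg d) • y‖ ^ 2 + wt [c] false * ‖w‖ ^ 2) ^ 2 := by
  rw [normYY]
  simp only [PiLp.add_apply, PiLp.smul_apply, inj1_t, inj1_f, inj2_t, inj2_f]
  simp only [one_smul, add_zero, zero_add, smul_zero]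
  have e1 : sg d • (t * sg true) • y = (t * sg d) • y := by
    rw [smul_smul]; congr 1; simp [sg, mul_comm]
  have e2 : x + sg d • (t * sg false) • y = x - (t * sg d) • y := by
    rw [smul_smul, sub_eq_add_neg, ← neg_smul]; congr 2; simp [sg]
  have e3 : ∀ z : Bool, ‖wt [c] z • w‖ ^ 2 = wt [c] z * ‖w‖ ^ 2 := by
    intro z
    rw [norm_smul, mul_pow]
    cases c <;> cases z <;> simp [wt]
  rw [e1, e2, e3, e3]

/-- the property propagated by the induction -/
def Good (X : Type) [NormedAddCommGroup X] [NormedSpace ℝ X] (k : ℝ) : Prop :=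
  ∃ (n : ℕ) (f : List Bool → X) (b : ℝ), 0 < b ∧ (∀ l, l.length = n → ‖sumF f l‖ ^ 2 = b) ∧
    ∀ l, l.length = n → Ex n (fun m => ‖sumD f l m‖ ^ 4) ≤ (k * b) ^ 2

lemma good_real : Good ℝ 1 := by
  refine ⟨1, fun _ => 1, 1, one_pos, ?_, ?_⟩
  · intro l hl
    match l, hl with
    | [c], _ => cases c <;> simp [sumF, sg]
  · intro l hl
    match l, hl with
    | [c], _ => simp [sumD, sg, Ex]

lemma normF (n : ℕ) (t : ℝ) (f : List Bool → X) (b : ℝ) (l l' : List Bool) (c : Bool)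
    (hl : l.length = n) (h1 : ‖sumF f l‖ ^ 2 = b) (h2 : ‖sumF f l'‖ ^ 2 = b) :
    ‖sumF (comp n t f) (l ++ c :: l')‖ ^ 4 = (((1 + t) ^ 2 + 1) ^ 2 + (1 - t) ^ 4) * b ^ 2 := by
  rw [sumF_comp n t f l l' c hl, norm_typ]
  have e1 : ∀ (r : ℝ), ‖r • sumF f l‖ ^ 2 = r ^ 2 * b := by
    intro r; rw [norm_smul, mul_pow, h1, Real.norm_eq_abs, sq_abs]
  have e2 : ∀ r : ℝ, sumF f l + r • sumF f l = (1 + r) • sumF f l := by
    intro r; rw [add_smul, one_smul]
  have e3 : ∀ r : ℝ, sumF f l - r • sumF f l = (1 - r) • sumF f l := by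
    intro r; rw [sub_smul, one_smul]
  rw [e2, e3, e1, e1, h2]
  cases c <;> simp [wt, sg] <;> ring

lemma ExD (hX : S4 X) (n : ℕ) (k t : ℝ) (hk : 0 < k) (f : List Bool → X) (b : ℝ) (hb : 0 < b)
    (l l' : List Bool) (c : Bool) (hl : l.length = n)
    (h1 : ‖sumF f l‖ ^ 2 = b)
    (hD : Ex n (fun m => ‖sumD f l m‖ ^ 4) ≤ (k * b) ^ 2)
    (hD' : Ex n (fun m => ‖sumD f l' m‖ ^ 4) ≤ (k * b) ^ 2) :
    Ex (n + (n + 1)) (fun m => ‖sumD (comp n t f) (l ++ c :: l') m‖ ^ 4) ≤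
      ((2 * k + 3 * t ^ 2) ^ 2 + (k + 3 * t ^ 2) ^ 2) * b ^ 2 := by
  have hkb : 0 < k * b := mul_pos hk hb
  have ht : 0 ≤ 3 * t ^ 2 * b := by positivity
  rw [Ex_append]
  have hA : Ex n (fun m => (‖sumD f l m‖ ^ 2) ^ 2) ≤ (k * b) ^ 2 := by
    calc _ = Ex n (fun m => ‖sumD f l m‖ ^ 4) := by congr 1; funext m; ring
      _ ≤ _ := hD
  have hB : Ex n (fun m => (‖sumD f l' m‖ ^ 2) ^ 2) ≤ (k * b) ^ 2 := by
    calc _ = Ex n (fun m => ‖sumD f l' m‖ ^ 4) := by congr 1; funext m; ring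
      _ ≤ _ := hD'
  -- bound of the inner average
  have key : ∀ m, m.length = n →
      Ex (n + 1) (fun m' => ‖sumD (comp n t f) (l ++ c :: l') (m ++ m')‖ ^ 4) ≤
        (‖sumD f l m‖ ^ 2 + (3 * t ^ 2 * b + k * b)) ^ 2 +
        (‖sumD f l m‖ ^ 2 + 3 * t ^ 2 * b) ^ 2 := by
    intro m hm
    simp only [Ex]
    set x := sumD f l m with hx
    set y := t • sumF f l with hy
    have hy2 : ‖y‖ ^ 2 = t ^ 2 * b := by
      rw [hy, norm_smul, mul_pow, h1, Real.norm_eq_abs, sq_abs]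
    have hS := hX x y
    rw [hy2] at hS
    have hS2 := S4_two hX x y
    rw [hy2] at hS2
    set A := ‖x + y‖ ^ 2 with hAdef
    set A' := ‖x - y‖ ^ 2 with hA'def
    have hA0 : 0 ≤ A := by positivity
    have hA'0 : 0 ≤ A' := by positivity
    have s1 : (A ^ 2 + A' ^ 2) / 2 ≤ (‖x‖ ^ 2 + 3 * t ^ 2 * b) ^ 2 := by
      rw [hAdef, hA'def]
      calc _ = (‖x + y‖ ^ 4 + ‖x - y‖ ^ 4) / 2 := by ring
        _ ≤ _ := hS
        _ = _ := by ring
    have s2 : (A + A') / 2 ≤ ‖x‖ ^ 2 + 3 * t ^ 2 * b := by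
      calc _ ≤ _ := hS2
        _ = _ := by ring
    -- averages over the second block with an additive parameter
    have q1 : ∀ a : ℝ, 0 ≤ a → Ex n (fun m' => (a + ‖sumD f l' m'‖ ^ 2) ^ 2) ≤
        a ^ 2 + 2 * a * (k * b) + (k * b) ^ 2 := by
      intro a ha
      have := Ex_sq_add n (fun m' => ‖sumD f l' m'‖ ^ 2) (k * b) a hkb ha hB
      calc _ = Ex n (fun m' => (‖sumD f l' m'‖ ^ 2 + a) ^ 2) := by
            congr 1; funext m'; ring
        _ ≤ _ := this
        _ = _ := by ring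
    have ft : ∀ m' : List Bool, ‖sumD (comp n t f) (l ++ c :: l') (m ++ true :: m')‖ ^ 4 =
        (A + wt [c] true * ‖sumD f l' m'‖ ^ 2) ^ 2 +
        (A' + wt [c] false * ‖sumD f l' m'‖ ^ 2) ^ 2 := by
      intro m'
      rw [sumD_comp n t f l l' m m' c true hl hm, norm_typ]
      simp [sg, hAdef, hA'def, hy, hx]
    have ff : ∀ m' : List Bool, ‖sumD (comp n t f) (l ++ c :: l') (m ++ false :: m')‖ ^ 4 =
        (A' + wt [c] true * ‖sumD f l' m'‖ ^ 2) ^ 2 +
        (A + wt [c] false * ‖sumD f l' m'‖ ^ 2) ^ 2 := by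
      intro m'
      rw [sumD_comp n t f l l' m m' c false hl hm, norm_typ]
      simp [sg, hAdef, hA'def, hy, hx, sub_eq_add_neg]
    simp only [ft, ff]
    have qA := q1 A hA0
    have qA' := q1 A' hA'0
    cases c
    · simp only [wt, List.cons.injEq, and_true, Bool.false_eq_true, if_false, if_true, zero_mul,
        add_zero, one_mul]
      rw [Ex_add n (fun _ => A ^ 2) (fun m' => (A' + ‖sumD f l' m'‖ ^ 2) ^ 2),
        Ex_add n (fun _ => A' ^ 2) (fun m' => (A + ‖sumD f l' m'‖ ^ 2) ^ 2), Ex_const, Ex_const]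
      nlinarith [mul_le_mul_of_nonneg_right s2 hkb.le]
    · simp only [wt, List.cons.injEq, and_true, Bool.true_eq_false, if_false, if_true, zero_mul,
        add_zero, one_mul]
      rw [Ex_add n (fun m' => (A + ‖sumD f l' m'‖ ^ 2) ^ 2) (fun _ => A' ^ 2),
        Ex_add n (fun m' => (A' + ‖sumD f l' m'‖ ^ 2) ^ 2) (fun _ => A ^ 2), Ex_const, Ex_const]
      nlinarith [mul_le_mul_of_nonneg_right s2 hkb.le]
  refine le_trans (Ex_mono n _ _ key) ?_
  rw [Ex_add n (fun m => (‖sumD f l m‖ ^ 2 + (3 * t ^ 2 * b + k * b)) ^ 2)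
    (fun m => (‖sumD f l m‖ ^ 2 + 3 * t ^ 2 * b) ^ 2)]
  have r1 := Ex_sq_add n (fun m => ‖sumD f l m‖ ^ 2) (k * b) (3 * t ^ 2 * b + k * b) hkb
    (by positivity) hA
  have r2 := Ex_sq_add n (fun m => ‖sumD f l m‖ ^ 2) (k * b) (3 * t ^ 2 * b) hkb
    (by positivity) hA
  calc _ ≤ (k * b + (3 * t ^ 2 * b + k * b)) ^ 2 + (k * b + 3 * t ^ 2 * b) ^ 2 :=
        add_le_add r1 r2
    _ = _ := by ring

/-- the numerical heart -/
lemma numer (k : ℝ) (hk : 0 < k) (hk1 : k ≤ 1) :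
    ((2 * k + 3 * (k / 9) ^ 2) ^ 2 + (k + 3 * (k / 9) ^ 2) ^ 2) ≤
      (k / (1 + k / 50)) ^ 2 * (((1 + k / 9) ^ 2 + 1) ^ 2 + (1 - k / 9) ^ 4) := by
  have h1 : 0 < 1 + k / 50 := by positivity
  rw [div_pow k (1 + k / 50), div_mul_eq_mul_div, le_div_iff₀ (by positivity)]
  have e1 : ((2 * k + 3 * (k / 9) ^ 2) ^ 2 + (k + 3 * (k / 9) ^ 2) ^ 2) * (1 + k / 50) ^ 2 =
      k ^ 2 * ((5 + 2 / 9 * k + 2 / 729 * k ^ 2) * (1 + k / 50) ^ 2) := by ring
  have e2 : k ^ 2 * (((1 + k / 9) ^ 2 + 1) ^ 2 + (1 - k / 9) ^ 4) =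
      k ^ 2 * (5 + 4 / 9 * k + 14 / 81 * k ^ 2 + 2 / 6561 * k ^ 4) := by ring
  rw [e1, e2]
  apply mul_le_mul_of_nonneg_left _ (by positivity)
  have k2 : k ^ 2 ≤ k := by nlinarith
  have k3 : k ^ 3 ≤ k := by nlinarith [mul_pos hk hk]
  have k4 : k ^ 4 ≤ k := by nlinarith [mul_pos hk hk, mul_pos (mul_pos hk hk) hk]
  have k4' : 0 ≤ k ^ 4 := by positivity
  have k2' : 0 ≤ k ^ 2 := by positivity
  nlinarith

lemma good_step (hX : S4 X) (k : ℝ) (hk : 0 < k) (hk1 : k ≤ 1) (h : Good X k) :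
    Good (YY X) (k / (1 + k / 50)) := by
  obtain ⟨n, f, b, hb, hF, hD⟩ := h
  set N : ℝ := ((1 + k / 9) ^ 2 + 1) ^ 2 + (1 - k / 9) ^ 4 with hN
  have hNpos : 0 < N := by positivity
  refine ⟨n + (n + 1), comp n (k / 9) f, b * Real.sqrt N, by positivity, ?_, ?_⟩
  · intro l hl
    obtain ⟨l1, c, l2, rfl, h1, h2⟩ : ∃ l1 c l2, l = l1 ++ c :: l2 ∧ l1.length = n ∧
        l2.length = n := by
      have hd : (l.drop n).length = n + 1 := by simp [hl]
      match hq : l.drop n, hd with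
      | c :: l2, hd =>
        refine ⟨l.take n, c, l2, ?_, by simp [hl], by simpa using hd⟩
        rw [← hq, List.take_append_drop]
    have := normF n (k / 9) f b l1 l2 c h1 (hF l1 h1) (hF l2 h2)
    have hp : 0 ≤ ‖sumF (comp n (k / 9) f) (l1 ++ c :: l2)‖ ^ 2 := by positivity
    have hq : 0 ≤ b * Real.sqrt N := by positivity
    rw [← sq_eq_sq₀ hp hq]
    rw [mul_pow, Real.sq_sqrt hNpos.le]
    calc _ = ‖sumF (comp n (k / 9) f) (l1 ++ c :: l2)‖ ^ 4 := by ring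
      _ = _ := this
      _ = _ := by ring
  · intro l hl
    obtain ⟨l1, c, l2, rfl, h1, h2⟩ : ∃ l1 c l2, l = l1 ++ c :: l2 ∧ l1.length = n ∧
        l2.length = n := by
      have hd : (l.drop n).length = n + 1 := by simp [hl]
      match hq : l.drop n, hd with
      | c :: l2, hd =>
        refine ⟨l.take n, c, l2, ?_, by simp [hl], by simpa using hd⟩
        rw [← hq, List.take_append_drop]
    have := ExD hX n k (k / 9) hk f b hb l1 l2 c h1 (hF l1 h1) (hD l1 h1) (hD l2 h2)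
    refine le_trans this ?_
    have hn := numer k hk hk1
    rw [mul_pow, mul_pow, Real.sq_sqrt hNpos.le]
    calc _ ≤ ((k / (1 + k / 50)) ^ 2 * N) * b ^ 2 :=
          mul_le_mul_of_nonneg_right hn (by positivity)
      _ = _ := by ring

end Spaces

/-- bundled existence -/
theorem exists_good (n : ℕ) : ∃ (X : Type) (_ : NormedAddCommGroup X) (_ : NormedSpace ℝ X)
    (_ : CompleteSpace X), S4 X ∧ Good X (50 / (50 + n)) := by
  induction n with
  | zero => exact ⟨ℝ, inferInstance, inferInstance, inferInstance, S4_real, by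
      simpa using good_real⟩
  | succ n ih =>
    obtain ⟨X, i1, i2, i3, h4, hg⟩ := ih
    refine ⟨YY X, inferInstance, inferInstance, inferInstance, S4_L4 (S4_L2 h4), ?_⟩
    have hn : (0 : ℝ) < 50 + n := by positivity
    have := good_step h4 (50 / (50 + n)) (by positivity)
      (by rw [div_le_one hn]; have : (0 : ℝ) ≤ n := by positivity
          linarith) hg
    have e : (50 / (50 + (n : ℝ))) / (1 + (50 / (50 + (n : ℝ))) / 50) = 50 / (50 + ((n + 1 : ℕ) : ℝ)) := by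
      push_cast
      field_simp
      ring
    rw [e] at this
    exact this

end Pool.Agent.H345R3.Decoup
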