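import Pool.Agent.H345R3.Decoup

set_option autoImplicit false
set_option linter.unusedSectionVars false

noncomputable section

namespace Pool.Agent.H345R3.Decoup

open scoped ENNReal

lemma sum_bool_fun (n : ℕ) (g : (Fin (n + 1) → Bool) → ℝ) :
    ∑ ε : Fin (n + 1) → Bool, g ε =
      ∑ ε : Fin n → Bool, g (Fin.cons true ε) + ∑ ε : Fin n → Bool, g (Fin.cons false ε) := by
  rw [← (Fin.consEquiv (fun _ => Bool)).sum_comp, Fintype.sum_prod_type]
  simp [Fin.consEquiv]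

lemma avg_eq_Ex : ∀ (n : ℕ) (φ : List Bool → ℝ),
    (1 / 2 ^ n : ℝ) * ∑ ε : Fin n → Bool, φ (List.ofFn ε) = Ex n φ
  | 0, φ => by simp [Ex]
  | (n + 1), φ => by
    rw [sum_bool_fun n (fun ε => φ (List.ofFn ε))]
    simp only [Ex, List.ofFn_cons]
    rw [← avg_eq_Ex n (fun l => φ (true :: l)), ← avg_eq_Ex n (fun l => φ (false :: l))]
    rw [pow_succ]
    field_simp

section
variable {X : Type} [NormedAddCommGroup X] [NormedSpace ℝ X]

lemma sumF_ofFn : ∀ (n : ℕ) (f : List Bool → X) (ε : Fin n → Bool),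
    ∑ j : Fin n, (if ε j then (1 : ℝ) else -1) •
      f (List.ofFn (fun i : Fin (j : ℕ) => ε (Fin.castLE j.isLt.le i))) = sumF f (List.ofFn ε)
  | 0, f, ε => by simp [sumF]
  | (n + 1), f, ε => by
    rw [Fin.sum_univ_succ, List.ofFn_succ]
    simp only [sumF]
    rw [← sumF_ofFn n (fun p => f (ε 0 :: p)) (fun i => ε i.succ)]
    congr 1
    apply Finset.sum_congr rfl
    intro j _
    exact congrArg (fun w => (if ε j.succ then (1 : ℝ) else -1) • f w)
      (List.ofFn_succ (n := (j : ℕ)) (f := fun i : Fin ((j : ℕ) + 1) => ε (Fin.castLE j.succ.isLt.le i)))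

lemma sumD_ofFn : ∀ (n : ℕ) (f : List Bool → X) (ε δ : Fin n → Bool),
    ∑ j : Fin n, (if δ j then (1 : ℝ) else -1) •
      f (List.ofFn (fun i : Fin (j : ℕ) => ε (Fin.castLE j.isLt.le i))) =
      sumD f (List.ofFn ε) (List.ofFn δ)
  | 0, f, ε, δ => by simp [sumD]
  | (n + 1), f, ε, δ => by
    rw [Fin.sum_univ_succ, List.ofFn_succ, List.ofFn_succ]
    simp only [sumD]
    rw [← sumD_ofFn n (fun p => f (ε 0 :: p)) (fun i => ε i.succ) (fun i => δ i.succ)]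
    congr 1
    apply Finset.sum_congr rfl
    intro j _
    exact congrArg (fun w => (if δ j.succ then (1 : ℝ) else -1) • f w)
      (List.ofFn_succ (n := (j : ℕ)) (f := fun i : Fin ((j : ℕ) + 1) => ε (Fin.castLE j.succ.isLt.le i)))

end

lemma smooth_lp (X : ℕ → Type) [∀ n, NormedAddCommGroup (X n)] [∀ n, NormedSpace ℝ (X n)]
    (h : ∀ n, S4 (X n)) (x y : lp X 2) :
    ‖x + y‖ ^ 2 + ‖x - y‖ ^ 2 ≤ 2 * ‖x‖ ^ 2 + 2 * (Real.sqrt 3) ^ 2 * ‖y‖ ^ 2 := by
  have hs : ∀ z : lp X 2, HasSum (fun i => ‖z i‖ ^ 2) (‖z‖ ^ 2) := by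
    intro z
    have := lp.hasSum_norm (p := 2) (by norm_num) z
    simpa using this
  have h1 := (hs (x + y)).add (hs (x - y))
  have h2 := ((hs x).mul_left 2).add ((hs y).mul_left (2 * (Real.sqrt 3) ^ 2))
  refine hasSum_le ?_ h1 h2
  intro i
  have h3 := S4_two (h i) (x i) (y i)
  have e1 : ‖(x + y) i‖ = ‖x i + y i‖ := rfl
  have e2 : ‖(x - y) i‖ = ‖x i - y i‖ := rfl
  rw [e1, e2, Real.sq_sqrt (by norm_num)]
  linarith

theorem main :
    ¬ (∀ (X : Type) [NormedAddCommGroup X] [NormedSpace ℝ X] [CompleteSpace X],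
      (∃ D : ℝ, ∀ x y : X, ‖x + y‖ ^ 2 + ‖x - y‖ ^ 2 ≤ 2 * ‖x‖ ^ 2 + 2 * D ^ 2 * ‖y‖ ^ 2) →
      ∃ C : ℝ, 0 ≤ C ∧
        ∀ (n : ℕ) (f : (j : Fin n) → (Fin (j : ℕ) → Bool) → X),
          (1 / 2 ^ n : ℝ) * ∑ ε : Fin n → Bool,
              ‖∑ j : Fin n, (if ε j then (1 : ℝ) else -1) •
                  f j (fun i => ε (Fin.castLE j.isLt.le i))‖ ^ 2
            ≤ C ^ 2 * ((1 / 4 ^ n : ℝ) * ∑ ε : Fin n → Bool, ∑ δ : Fin n → Bool,
              ‖∑ j : Fin n, (if δ j then (1 : ℝ) else -1) •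
                  f j (fun i => ε (Fin.castLE j.isLt.le i))‖ ^ 2)) := by
  intro H
  choose X i1 i2 i3 h4 hg using exists_good
  obtain ⟨C, hC, hineq⟩ := H (lp X 2) ⟨Real.sqrt 3, smooth_lp X h4⟩
  obtain ⟨N, hN⟩ := exists_nat_gt (50 * C ^ 2)
  obtain ⟨n, f, b, hb, hF, hD⟩ := hg N
  have hnorm : ∀ x : X N, ‖lp.single (E := X) 2 N x‖ = ‖x‖ := fun x =>
    lp.norm_single (by norm_num) N x
  have hmap : ∀ x : X N, lp.single (E := X) 2 N x = lp.lsingle (𝕜 := ℝ) (E := X) 2 N x :=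
    fun x => rfl
  have := hineq n (fun j u => lp.single (E := X) 2 N (f (List.ofFn u)))
  have e1 : ∀ ε : Fin n → Bool, ‖∑ j : Fin n, (if ε j then (1 : ℝ) else -1) •
      lp.single (E := X) 2 N (f (List.ofFn (fun i : Fin (j : ℕ) => ε (Fin.castLE j.isLt.le i))))‖ ^ 2
      = b := by
    intro ε
    rw [sumF_ofFn n (fun l => lp.single (E := X) 2 N (f l)) ε]
    simp only [hmap]
    rw [sumF_map, ← hmap, hnorm]
    exact hF _ (by simp)
  have e2 : ∀ ε δ : Fin n → Bool, ‖∑ j : Fin n, (if δ j then (1 : ℝ) else -1) •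
      lp.single (E := X) 2 N (f (List.ofFn (fun i : Fin (j : ℕ) => ε (Fin.castLE j.isLt.le i))))‖ ^ 2
      = ‖sumD f (List.ofFn ε) (List.ofFn δ)‖ ^ 2 := by
    intro ε δ
    rw [sumD_ofFn n (fun l => lp.single (E := X) 2 N (f l)) ε δ]
    simp only [hmap]
    rw [sumD_map, ← hmap, hnorm]
  simp only [e1, e2] at this
  have k0 : (0 : ℝ) < 50 / (50 + N) := by positivity
  have e3 : (1 / 2 ^ n : ℝ) * ∑ _ε : Fin n → Bool, b = b := by
    have := avg_eq_Ex n (fun _ => b)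
    rw [Ex_const] at this
    exact this
  have e4 : ∀ ε : Fin n → Bool, (1 / 2 ^ n : ℝ) * ∑ δ : Fin n → Bool,
      ‖sumD f (List.ofFn ε) (List.ofFn δ)‖ ^ 2 ≤ 50 / (50 + N) * b := by
    intro ε
    rw [avg_eq_Ex n (fun m => ‖sumD f (List.ofFn ε) m‖ ^ 2)]
    apply Ex_le_of_sq n _ _ (by positivity)
    have := hD (List.ofFn ε) (by simp)
    calc _ = Ex n (fun m => ‖sumD f (List.ofFn ε) m‖ ^ 4) := by congr 1; funext m; ring
      _ ≤ _ := this
  have e5 : (1 / 4 ^ n : ℝ) * ∑ ε : Fin n → Bool, ∑ δ : Fin n → Bool,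
      ‖sumD f (List.ofFn ε) (List.ofFn δ)‖ ^ 2 ≤ 50 / (50 + N) * b := by
    have e6 : (1 / 4 ^ n : ℝ) * ∑ ε : Fin n → Bool, ∑ δ : Fin n → Bool,
        ‖sumD f (List.ofFn ε) (List.ofFn δ)‖ ^ 2 =
        (1 / 2 ^ n : ℝ) * ∑ ε : Fin n → Bool, ((1 / 2 ^ n : ℝ) * ∑ δ : Fin n → Bool,
          ‖sumD f (List.ofFn ε) (List.ofFn δ)‖ ^ 2) := by
      rw [← Finset.mul_sum, ← mul_assoc]
      congr 1
      rw [show (4 : ℝ) = 2 * 2 by norm_num, mul_pow]
      field_simp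
    rw [e6]
    calc _ ≤ (1 / 2 ^ n : ℝ) * ∑ _ε : Fin n → Bool, (50 / (50 + N) * b) := by
          apply mul_le_mul_of_nonneg_left _ (by positivity)
          exact Finset.sum_le_sum (fun ε _ => e4 ε)
      _ = _ := by
          have := avg_eq_Ex n (fun _ => 50 / (50 + (N : ℝ)) * b)
          rw [Ex_const] at this
          exact this
  rw [e3] at this
  have h5 : b ≤ C ^ 2 * (50 / (50 + N) * b) :=
    le_trans this (mul_le_mul_of_nonneg_left e5 (by positivity))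
  have h6 : C ^ 2 * (50 / (50 + N) * b) < b := by
    have : C ^ 2 * (50 / (50 + N)) < 1 := by
      rw [mul_div_assoc', div_lt_one (by positivity)]
      linarith
    calc _ = (C ^ 2 * (50 / (50 + N))) * b := by ring
      _ < 1 * b := mul_lt_mul_of_pos_right this hb
      _ = b := one_mul b
  linarith

end Pool.Agent.H345R3.Decoup
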