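import Mathlib
import Pool.Agent.H611R4.Fin2
import Pool.Agent.H611R4.TaskB2

/-!
The homomorphism property fails for a semisimple regular amenable commutative Banach algebra
(the algebra `T.BB` of helper611, library `H611R4`).
-/

set_option autoImplicit false
set_option maxSynthPendingDepth 3

open Filter Topology BoundedContinuousFunction WeakDual

namespace Pool.Agent.H345R3.HomP

open H611R4 H611R4.TB8

noncomputable section

variable {A : Type} [NormedCommRing A] [NormedAlgebra ℂ A] [CompleteSpace A] (T : Tower A)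

/-- the ideal of the null sequences -/
def JJ0 : Ideal T.BB where
  carrier := {a | Tendsto (fun n => ‖(a : ℕ →ᵇ A) n‖) atTop (𝓝 0)}
  zero_mem' := by
    have h : (fun n => ‖((0 : T.BB) : ℕ →ᵇ A) n‖) = fun _ => (0 : ℝ) := by
      funext n
      simp
    show Tendsto (fun n => ‖((0 : T.BB) : ℕ →ᵇ A) n‖) atTop (𝓝 0)
    rw [h]
    exact tendsto_const_nhds
  add_mem' := by
    intro a b ha hb
    have h := Tendsto.add ha hb
    rw [add_zero] at h
    refine squeeze_zero (fun n => norm_nonneg _) (fun n => ?_) h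
    exact norm_add_le _ _
  smul_mem' := by
    intro c a ha
    have h : Tendsto (fun n => ‖c‖ * ‖(a : ℕ →ᵇ A) n‖) atTop (𝓝 (‖c‖ * 0)) := Tendsto.const_mul _ ha
    rw [mul_zero] at h
    refine squeeze_zero (fun n => norm_nonneg _) (fun n => ?_) h
    refine (norm_mul_le _ _).trans ?_
    refine mul_le_mul_of_nonneg_right ?_ (norm_nonneg _)
    exact BoundedContinuousFunction.norm_coe_le_norm (c : ℕ →ᵇ A) n

theorem mem_JJ0 (a : T.BB) :
    a ∈ JJ0 T ↔ Tendsto (fun n => ‖(a : ℕ →ᵇ A) n‖) atTop (𝓝 0) := Iff.rfl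

theorem closed_JJ0 : IsClosed (JJ0 T : Set T.BB) := by
  rw [← isSeqClosed_iff_isClosed]
  intro x a hx hxa
  change Tendsto (fun n => ‖(a : ℕ →ᵇ A) n‖) atTop (𝓝 0)
  rw [Metric.tendsto_atTop]
  intro ε hε
  obtain ⟨k, hk⟩ := (Metric.tendsto_atTop.1 hxa (ε / 2) (by positivity))
  have h1 := hk k le_rfl
  have h2 : Tendsto (fun n => ‖((x k : T.BB) : ℕ →ᵇ A) n‖) atTop (𝓝 0) := hx k
  rw [Metric.tendsto_atTop] at h2
  obtain ⟨N, hN⟩ := h2 (ε / 2) (by positivity)
  refine ⟨N, fun n hn => ?_⟩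
  have h3 := hN n hn
  rw [dist_zero_right, norm_norm] at h3 ⊢
  have h4 : ‖((x k - a : T.BB) : ℕ →ᵇ A) n‖ ≤ ‖x k - a‖ :=
    BoundedContinuousFunction.norm_coe_le_norm ((x k - a : T.BB) : ℕ →ᵇ A) n
  rw [dist_eq_norm] at h1
  have h5 : (a : ℕ →ᵇ A) n = ((x k : T.BB) : ℕ →ᵇ A) n - ((x k - a : T.BB) : ℕ →ᵇ A) n := by
    have : ((x k - a : T.BB) : ℕ →ᵇ A) n = ((x k : T.BB) : ℕ →ᵇ A) n - (a : ℕ →ᵇ A) n := rfl
    rw [this]
    abel
  rw [h5]
  refine (norm_sub_le _ _).trans_lt ?_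
  linarith

instance : IsClosed (JJ0 T : Set T.BB) := closed_JJ0 T

/-- the quotient -/
abbrev QQ : Type := T.BB ⧸ JJ0 T

/-- the quotient map, continuous linear -/
def piL : T.BB →L[ℂ] QQ T :=
  LinearMap.mkContinuous (Ideal.Quotient.mkₐ ℂ (JJ0 T)).toLinearMap 1 (fun x => by
    rw [one_mul]
    exact Ideal.Quotient.norm_mk_le (JJ0 T) x)

theorem piL_apply (a : T.BB) : piL T a = Ideal.Quotient.mkₐ ℂ (JJ0 T) a := rfl

theorem pi_cont : Continuous (Ideal.Quotient.mkₐ ℂ (JJ0 T)) := (piL T).continuous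

theorem pi_surj : Function.Surjective (Ideal.Quotient.mkₐ ℂ (JJ0 T)) :=
  Ideal.Quotient.mkₐ_surjective ℂ (JJ0 T)

/-- quotients of amenable algebras are amenable -/
theorem quot_amenable (h : H611R3.ZL.IsAmenable T.BB) : H611R3.ZL.IsAmenable (QQ T) := by
  intro E _ _ _ L R hL hR hLR D hD
  obtain ⟨f, hf⟩ := h E inferInstance inferInstance inferInstance (L.comp (piL T))
    (R.comp (piL T)) (fun a b x => by
      simp only [ContinuousLinearMap.comp_apply, piL_apply, map_mul]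
      exact hL _ _ _) (fun a b x => by
      simp only [ContinuousLinearMap.comp_apply, piL_apply, map_mul]
      exact hR _ _ _) (fun a b x => by
      simp only [ContinuousLinearMap.comp_apply]
      exact hLR _ _ _) (D.comp (piL T)) (fun a b x => by
      simp only [ContinuousLinearMap.comp_apply, piL_apply, map_mul]
      exact hD _ _ _)
  refine ⟨f, fun a x => ?_⟩
  obtain ⟨a', rfl⟩ := pi_surj T a
  exact hf a' x

/-- the sequence with `1` at `n` and `0` elsewhere -/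
def dl (n : ℕ) : ℕ →ᵇ A :=
  BoundedContinuousFunction.ofNormedAddCommGroup (fun k => if k = n then (1 : A) else 0)
    continuous_of_discreteTopology ‖(1:A)‖ (fun k => by
      show ‖(if k = n then (1 : A) else 0)‖ ≤ ‖(1:A)‖
      split_ifs
      · exact le_rfl
      · simp)

omit [CompleteSpace A] in
theorem dl_apply (n k : ℕ) : (dl n : ℕ →ᵇ A) k = if k = n then (1 : A) else 0 := rfl

omit [CompleteSpace A] in
theorem dl_B0 (n : ℕ) : (dl n : ℕ →ᵇ A) ∈ T.B0 := by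
  refine ⟨fun k => ?_, n + 1, 0, Subalgebra.zero_mem _, fun k hk => ?_⟩
  · rw [dl_apply]
    split_ifs
    · exact Subalgebra.one_mem _
    · exact Subalgebra.zero_mem _
  · rw [dl_apply, if_neg (by omega), zero_mul]

/-- the null sequence `dl n` as an element of the ideal -/
theorem dl_J (n : ℕ) : (⟨dl n, B0_le T (dl_B0 T n)⟩ : T.BB) ∈ JJ0 T := by
  rw [mem_JJ0]
  refine tendsto_const_nhds.congr' ?_
  filter_upwards [eventually_gt_atTop n] with k hk
  show (0:ℝ) = ‖(dl n : ℕ →ᵇ A) k‖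
  rw [dl_apply, if_neg (by omega), norm_zero]

/-- a character which vanishes on the null sequences is `ω` -/
theorem char_eq (ω : characterSpace ℂ T.BB)
    (hω : ∀ a : T.BB, (a : ℕ →ᵇ A) ∈ T.B0 → ω a = 0) (χ : characterSpace ℂ T.BB)
    (hχ : ∀ a ∈ JJ0 T, χ a = 0) : χ = ω := by
  refine char_unique T taskB1 χ ω ?_ hω
  rcases taskB3 A T χ with ⟨n, s, _, h⟩ | h
  · exfalso
    have h1 := hχ _ (dl_J T n)
    rw [h] at h1
    have h2 : ((⟨dl n, B0_le T (dl_B0 T n)⟩ : T.BB) : ℕ →ᵇ A) n = 1 := by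
      show (dl n : ℕ →ᵇ A) n = 1
      rw [dl_apply, if_pos rfl]
    rw [h2, map_one] at h1
    exact one_ne_zero h1
  · exact h

/-- the characters of the quotient -/
theorem quot_char (ω : characterSpace ℂ T.BB)
    (hω : ∀ a : T.BB, (a : ℕ →ᵇ A) ∈ T.B0 → ω a = 0) (θ : characterSpace ℂ (QQ T)) (a : T.BB) :
    θ (Ideal.Quotient.mkₐ ℂ (JJ0 T) a) = ω a := by
  set χ : characterSpace ℂ T.BB := CharacterSpace.equivAlgHom.symm
    ((CharacterSpace.equivAlgHom θ).comp (Ideal.Quotient.mkₐ ℂ (JJ0 T))) with hχ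
  have h1 : ∀ b : T.BB, χ b = θ (Ideal.Quotient.mkₐ ℂ (JJ0 T) b) := by
    intro b
    rw [hχ, CharacterSpace.equivAlgHom_symm_coe]
    rfl
  have h2 : χ = ω := by
    refine char_eq T ω hω χ fun b hb => ?_
    rw [h1]
    have : Ideal.Quotient.mkₐ ℂ (JJ0 T) b = 0 := by
      rw [Ideal.Quotient.mkₐ_eq_mk]
      exact Ideal.Quotient.eq_zero_iff_mem.2 hb
    rw [this, map_zero]
  rw [← h1, h2]

/-- the difference is in the radical -/
theorem diff_rad (ω : characterSpace ℂ T.BB)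
    (hω : ∀ a : T.BB, (a : ℕ →ᵇ A) ∈ T.B0 → ω a = 0) (a : T.BB) :
    Ideal.Quotient.mkₐ ℂ (JJ0 T) a - algebraMap ℂ (QQ T) (ω a) ∈
      Ideal.jacobson (⊥ : Ideal (QQ T)) := by
  unfold Ideal.jacobson
  rw [Ideal.mem_sInf]
  rintro M ⟨_, hM⟩
  haveI : M.IsMaximal := hM
  set θ : characterSpace ℂ (QQ T) := M.toCharacterSpace with hθ
  have h1 : ∀ b ∈ M, θ b = 0 := fun b hb => M.toCharacterSpace_apply_eq_zero_of_mem hb
  set K : Ideal (QQ T) := RingHom.ker (CharacterSpace.equivAlgHom θ : QQ T →ₐ[ℂ] ℂ) with hK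
  have h2 : M ≤ K := by
    intro b hb
    rw [hK, RingHom.mem_ker]
    exact h1 b hb
  have h3 : K ≠ ⊤ := by
    intro h
    have h4 : (1 : QQ T) ∈ K := by rw [h]; trivial
    rw [hK, RingHom.mem_ker, map_one] at h4
    exact one_ne_zero h4
  have h5 : M = K := hM.eq_of_le h3 h2
  rw [h5, hK, RingHom.mem_ker]
  rw [map_sub, AlgHom.commutes]
  have h6 : (CharacterSpace.equivAlgHom θ : QQ T →ₐ[ℂ] ℂ) (Ideal.Quotient.mkₐ ℂ (JJ0 T) a) =
      θ (Ideal.Quotient.mkₐ ℂ (JJ0 T) a) := rfl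
  rw [h6, quot_char T ω hω]
  simp

/-- the sequence of the products -/
def a0 : T.BB := ⟨BoundedContinuousFunction.ofNormedAddCommGroup (T.t 0)
    continuous_of_discreteTopology 1 (T.t_norm 0), B0_le T
      ⟨fun _ => T.t_mem le_rfl, 0, 1, Subalgebra.one_mem _, fun n _ => by
        show T.t 0 n = 1 * T.t 0 n
        rw [one_mul]⟩⟩

theorem a0_B0 : (a0 T : ℕ →ᵇ A) ∈ T.B0 :=
  ⟨fun _ => T.t_mem le_rfl, 0, 1, Subalgebra.one_mem _, fun n _ => by
        show T.t 0 n = 1 * T.t 0 n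
        rw [one_mul]⟩

theorem a0_ne : Ideal.Quotient.mkₐ ℂ (JJ0 T) (a0 T) ≠ 0 := by
  rw [Ideal.Quotient.mkₐ_eq_mk]
  intro h
  have h1 := Ideal.Quotient.eq_zero_iff_mem.1 h
  rw [mem_JJ0] at h1
  have h2 := h1.eventually (gt_mem_nhds (by norm_num : (0:ℝ) < 1/2))
  obtain ⟨n, hn⟩ := h2.exists
  have h3 : ((a0 T : T.BB) : ℕ →ᵇ A) n = T.t 0 n := rfl
  rw [h3] at hn
  have h4 := T.nondeg n
  unfold Tower.t at hn
  rw [← Finset.range_eq_Ico] at hn
  linarith

/-- the counterexample -/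
theorem main : ∃ (A : Type) (_ : NormedCommRing A) (_ : NormedAlgebra ℂ A),
    CompleteSpace A ∧ Semisimple A ∧ Regular A ∧ H611R3.ZL.Amenable A ∧
    ∃ (B : Type) (_ : NormedCommRing B) (_ : NormedAlgebra ℂ B),
      CompleteSpace B ∧ H611R3.ZL.Amenable B ∧
      ∃ (φ ψ : A →ₐ[ℂ] B), Continuous φ ∧ Continuous ψ ∧ Function.Surjective φ ∧
        (∃ ω : A →ₐ[ℂ] ℂ, ∀ a, ψ a = algebraMap ℂ B (ω a)) ∧
        (∀ a, φ a - ψ a ∈ Ideal.jacobson (⊥ : Ideal B)) ∧ φ ≠ ψ := by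
  obtain ⟨A, i1, i2, i3, ⟨T⟩⟩ := taskT
  have hA : H611R3.ZL.IsAmenable T.BB := taskB2 taskD taskB1 A T
  obtain ⟨ω, hω⟩ := taskB6 taskB1 A T
  refine ⟨T.BB, inferInstance, inferInstance, inferInstance, semisimple_BB T,
    taskB4 taskB1 taskB3 A T, ?_, QQ T, inferInstance, inferInstance, inferInstance, ?_,
    Ideal.Quotient.mkₐ ℂ (JJ0 T),
    (Algebra.ofId ℂ (QQ T)).comp (CharacterSpace.equivAlgHom ω), pi_cont T, ?_, pi_surj T,
    ⟨CharacterSpace.equivAlgHom ω, fun a => rfl⟩, ?_, ?_⟩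
  · rw [H611R3.ZL.amenable_iff]
    exact hA
  · rw [H611R3.ZL.amenable_iff]
    exact quot_amenable T hA
  · have h1 : Continuous fun a : T.BB => ω a := map_continuous ω
    exact (continuous_algebraMap ℂ (QQ T)).comp h1
  · intro a
    exact diff_rad T ω hω a
  · intro h
    have h1 := DFunLike.congr_fun h (a0 T)
    have h2 : ((Algebra.ofId ℂ (QQ T)).comp (CharacterSpace.equivAlgHom ω)) (a0 T) =
        algebraMap ℂ (QQ T) (ω (a0 T)) := rfl
    rw [h2, hω _ (a0_B0 T), map_zero] at h1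
    exact a0_ne T h1

end

end Pool.Agent.H345R3.HomP
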