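import Mathlib
import Pool.Agent.H376R3.PC.Defs

set_option autoImplicit false

universe u

namespace Pool.Agent.H345R3.PC3

open Cardinal Topology Set Pool.Agent.H376R3.PC

section basics

variable {K : Type u} [AddCommGroup K] [TopologicalSpace K]

theorem gdsub_top : GdSub (⊤ : AddSubgroup K) := by
  refine ⟨?_, ?_⟩
  · rw [AddSubgroup.coe_top]; exact isClosed_univ
  · rw [AddSubgroup.coe_top]; exact IsGδ.univ

theorem gdsub_iInf {ι : Type*} [Countable ι] (N : ι → AddSubgroup K) (h : ∀ i, GdSub (N i)) :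
    GdSub (⨅ i, N i) := by
  refine ⟨?_, ?_⟩
  · rw [AddSubgroup.coe_iInf]; exact isClosed_iInter fun i => (h i).1
  · rw [AddSubgroup.coe_iInf]; exact IsGδ.iInter fun i => (h i).2

variable [IsTopologicalAddGroup K]

theorem exists_half (U : Set K) (hU : U ∈ 𝓝 (0:K)) : ∃ V : Set K, IsOpen V ∧ (0:K) ∈ V ∧
    (∀ x ∈ V, -x ∈ V) ∧ (∀ x ∈ V, ∀ y ∈ V, x + y ∈ U) := by
  obtain ⟨V, hVo, hV0, hV⟩ := exists_open_nhds_zero_half hU
  refine ⟨V ∩ {x | -x ∈ V}, hVo.inter (hVo.preimage continuous_neg), ⟨hV0, by simpa using hV0⟩,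
    ?_, ?_⟩
  · rintro x ⟨h1, h2⟩
    exact ⟨h2, by simpa using h1⟩
  · rintro x ⟨h1, -⟩ y ⟨h2, -⟩
    exact hV x h1 y h2

theorem small (U : Set K) (hU : U ∈ 𝓝 (0:K)) : ∃ N : AddSubgroup K, GdSub N ∧ (N : Set K) ⊆ U := by
  classical
  choose! H hHo hH0 hHs hHa using (exists_half (K := K))
  let V : ℕ → Set K := fun n => Nat.rec (H U) (fun _ W => H W) n
  have hVs : ∀ n, V (n + 1) = H (V n) := fun n => rfl
  have hV : ∀ n, IsOpen (V n) ∧ (0:K) ∈ V n ∧ (∀ x ∈ V n, -x ∈ V n) := by
    intro n
    induction n with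
    | zero => exact ⟨hHo U hU, hH0 U hU, hHs U hU⟩
    | succ n ih =>
      have h1 : V n ∈ 𝓝 (0:K) := ih.1.mem_nhds ih.2.1
      exact ⟨hHo _ h1, hH0 _ h1, hHs _ h1⟩
  have hadd : ∀ n, ∀ x ∈ V (n+1), ∀ y ∈ V (n+1), x + y ∈ V n :=
    fun n => hHa (V n) ((hV n).1.mem_nhds (hV n).2.1)
  have hsub0 : V 0 ⊆ U := fun x hx => by simpa using hHa U hU x hx 0 (hV 0).2.1
  have hcl : ∀ n, closure (V (n+1)) ⊆ V n := by
    intro n y hy
    have h1 : IsOpen ((fun z => z - y) ⁻¹' V (n+1)) := (hV (n+1)).1.preimage (by fun_prop)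
    obtain ⟨z, hz1, hz2⟩ := mem_closure_iff.1 hy _ h1 (by simpa using (hV (n+1)).2.1)
    have h2 : y = z + -(z - y) := by abel
    rw [h2]
    exact hadd n z hz2 _ ((hV (n+1)).2.2 _ hz1)
  have hmono : ∀ n, V (n+1) ⊆ V n := fun n => subset_closure.trans (hcl n)
  have hclosed : IsClosed (⋂ n, V n) := by
    have h1 : (⋂ n, V n) = ⋂ n, closure (V n) := by
      apply subset_antisymm
      · exact iInter_mono fun n => subset_closure
      · exact subset_iInter fun n => (iInter_subset _ (n + 1)).trans (hcl n)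
    rw [h1]
    exact isClosed_iInter fun n => isClosed_closure
  refine ⟨{ carrier := ⋂ n, V n
            zero_mem' := mem_iInter.2 fun n => (hV n).2.1
            add_mem' := fun {a b} ha hb => mem_iInter.2 fun n =>
              hadd n a (mem_iInter.1 ha (n+1)) b (mem_iInter.1 hb (n+1))
            neg_mem' := fun {a} ha => mem_iInter.2 fun n => (hV n).2.2 a (mem_iInter.1 ha n) },
    ⟨hclosed, ?_⟩, ?_⟩
  · exact IsGδ.iInter fun n => (hV n).1.isGδ
  · exact (iInter_subset _ 0).trans hsub0

theorem small_ne [T1Space K] (x : K) (hx : x ≠ 0) : ∃ N : AddSubgroup K, GdSub N ∧ x ∉ N := by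
  obtain ⟨N, hN, hNU⟩ := small ({x}ᶜ : Set K) (isOpen_compl_singleton.mem_nhds (by
    simpa using hx.symm))
  exact ⟨N, hN, fun h => hNU h rfl⟩

theorem code [CompactSpace K] (N : Set K) (hN : IsGδ N) (h0 : (0:K) ∈ N) :
    ∃ c : K → ℕ → ℕ, ∀ x y, c x = c y → x - y ∈ N := by
  obtain ⟨O, hO, rfl⟩ := isGδ_iff_eq_iInter_nat.1 hN
  have key : ∀ n, ∃ c : K → ℕ, ∀ x y, c x = c y → x - y ∈ O n := by
    intro n
    obtain ⟨W, hWo, hW0, hWs, hWa⟩ := exists_half (O n) ((hO n).mem_nhds (mem_iInter.1 h0 n))
    obtain ⟨t, -, ht⟩ := isCompact_univ.elim_nhds_subcover (fun x : K => {y | y - x ∈ W})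
      (fun x _ => (hWo.preimage (by fun_prop : Continuous fun y : K => y - x)).mem_nhds
        (by simpa using hW0))
    have h1 : ∀ y : K, ∃ x ∈ t, y - x ∈ W := by
      intro y
      have := ht (mem_univ y)
      simpa using this
    choose g hg1 hg2 using h1
    obtain ⟨f, hf⟩ := Set.countable_iff_exists_injOn.1 (Finset.countable_toSet t)
    refine ⟨fun y => f (g y), fun x y hxy => ?_⟩
    have h2 : g x = g y := hf (hg1 x) (hg1 y) hxy
    have h3 : x - y = (x - g x) + -(y - g y) := by rw [h2]; abel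
    rw [h3]
    exact hWa _ (hg2 x) _ (hWs _ (hg2 y))
  choose c hc using key
  exact ⟨fun x n => c n x, fun x y hxy => mem_iInter.2 fun n => hc n x y (congrFun hxy n)⟩

theorem two_open [CompactSpace K] [T2Space K] [Infinite K] (U : Set K) (hU : IsOpen U)
    (hne : U.Nonempty) : ∃ A B : Set K, (IsOpen A ∧ A.Nonempty) ∧ (IsOpen B ∧ B.Nonempty) ∧
      closure A ⊆ U ∧ closure B ⊆ U ∧ Disjoint (closure A) (closure B) := by
  obtain ⟨a, ha⟩ := hne
  have h1 : ∃ b ∈ U, b ≠ a := by
    by_contra hcon
    push Not at hcon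
    have h2 : U = {a} := by
      ext z
      exact ⟨fun hz => hcon z hz, fun hz => by rw [mem_singleton_iff.1 hz]; exact ha⟩
    have h3 : IsOpen ({0} : Set K) := by
      have h4 : ({0} : Set K) = (fun z => z + a) ⁻¹' U := by
        rw [h2]
        ext z
        simp
      rw [h4]
      exact hU.preimage (by fun_prop)
    have h5 : DiscreteTopology K := discreteTopology_of_isOpen_singleton_zero h3
    have h6 : Finite K := finite_of_compact_of_discrete
    exact not_finite K
  obtain ⟨b, hb, hba⟩ := h1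
  obtain ⟨u, hau, huo, v, hbv, hvo, huv⟩ := exists_open_nhds_disjoint_closure hba.symm
  obtain ⟨u', hu'1, hu'2, hu'3⟩ := exists_mem_nhds_isClosed_subset (hU.mem_nhds ha)
  obtain ⟨v', hv'1, hv'2, hv'3⟩ := exists_mem_nhds_isClosed_subset (hU.mem_nhds hb)
  refine ⟨u ∩ interior u', v ∩ interior v', ⟨huo.inter isOpen_interior,
    ⟨a, hau, mem_interior_iff_mem_nhds.2 hu'1⟩⟩, ⟨hvo.inter isOpen_interior,
    ⟨b, hbv, mem_interior_iff_mem_nhds.2 hv'1⟩⟩, ?_, ?_, ?_⟩
  · exact ((closure_mono (inter_subset_right.trans interior_subset)).trans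
      hu'2.closure_subset).trans hu'3
  · exact ((closure_mono (inter_subset_right.trans interior_subset)).trans
      hv'2.closure_subset).trans hv'3
  · exact huv.mono (closure_mono inter_subset_left) (closure_mono inter_subset_left)

theorem cont_le [CompactSpace K] [T2Space K] [Infinite K] : 𝔠 ≤ #K := by
  classical
  choose! P Q hP hQ hPc hQc hPQ using (two_open (K := K))
  let A : List Bool → Set K := fun l => List.rec univ (fun b _ U => if b then P U else Q U) l
  have hAc : ∀ b l, A (b :: l) = if b then P (A l) else Q (A l) := fun b l => rfl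
  have hA : ∀ l, IsOpen (A l) ∧ (A l).Nonempty := by
    intro l
    induction l with
    | nil => exact ⟨isOpen_univ, univ_nonempty⟩
    | cons b l ih =>
      rw [hAc]
      cases b
      · simpa using hQ _ ih.1 ih.2
      · simpa using hP _ ih.1 ih.2
  have hcl : ∀ b l, closure (A (b :: l)) ⊆ A l := by
    intro b l
    rw [hAc]
    cases b
    · simpa using hQc _ (hA l).1 (hA l).2
    · simpa using hPc _ (hA l).1 (hA l).2
  have hdis : ∀ l, Disjoint (closure (A (true :: l))) (closure (A (false :: l))) := by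
    intro l
    rw [hAc, hAc]
    simpa using hPQ _ (hA l).1 (hA l).2
  have hpt : ∀ x : ℕ → Bool, ∃ z : K, ∀ n, z ∈ closure (A (PiNat.res x n)) := by
    intro x
    have h1 : (⋂ n, closure (A (PiNat.res x n))).Nonempty := by
      apply IsCompact.nonempty_iInter_of_sequence_nonempty_isCompact_isClosed
      · intro n
        rw [PiNat.res_succ]
        exact (hcl _ _).trans subset_closure
      · intro n
        exact (hA _).2.closure
      · exact isClosed_closure.isCompact
      · intro n
        exact isClosed_closure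
    obtain ⟨z, hz⟩ := h1
    exact ⟨z, fun n => mem_iInter.1 hz n⟩
  choose f hf using hpt
  have hinj : Function.Injective f := by
    intro x y hxy
    have h1 : ∀ n, PiNat.res x n = PiNat.res y n ∧ x n = y n := by
      intro n
      induction n with
      | zero =>
        refine ⟨rfl, ?_⟩
        by_contra hne
        have hx := hf x 1
        have hy := hf y 1
        rw [PiNat.res_succ, PiNat.res_zero] at hx hy
        rw [← hxy] at hy
        have := hdis []
        cases hx0 : x 0 <;> cases hy0 : y 0 <;> rw [hx0, hy0] at hne <;>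
          rw [hx0] at hx <;> rw [hy0] at hy
        · exact hne rfl
        · exact Set.disjoint_left.1 this hy hx
        · exact Set.disjoint_left.1 this hx hy
        · exact hne rfl
      | succ n ih =>
        have e : PiNat.res x (n + 1) = PiNat.res y (n + 1) := by
          rw [PiNat.res_succ, PiNat.res_succ, ih.1, ih.2]
        refine ⟨e, ?_⟩
        by_contra hne
        have hx := hf x (n + 1 + 1)
        have hy := hf y (n + 1 + 1)
        rw [PiNat.res_succ] at hx hy
        rw [← hxy, ← e] at hy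
        have := hdis (PiNat.res x (n + 1))
        cases hx0 : x (n + 1) <;> cases hy0 : y (n + 1) <;> rw [hx0, hy0] at hne <;>
          rw [hx0] at hx <;> rw [hy0] at hy
        · exact hne rfl
        · exact Set.disjoint_left.1 this hy hx
        · exact Set.disjoint_left.1 this hx hy
        · exact hne rfl
    funext n
    exact (h1 n).2
  have h2 := Cardinal.lift_mk_le_lift_mk_of_injective hinj
  simpa using h2

end basics

end Pool.Agent.H345R3.PC3
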