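import Mathlib
import Pool.Agent.H345R3.PC3a

set_option autoImplicit false

universe u

namespace Pool.Agent.H345R3.PC3

open Cardinal Topology Set Pool.Agent.H376R3.PC

/-- Case of a metrizable group. -/
theorem caseA (κ : Cardinal.{u}) (hκ : 𝔠 ≤ κ) : ∃ J : Type u, ℵ₁ ≤ #J ∧ 𝔠 ≤ 2 ^ #J ∧ InjFam J κ := by
  classical
  let J : Type u := (ℵ₁ : Cardinal.{u}).out
  have hJ : #J = ℵ₁ := mk_out _
  have hJne : Nonempty J := by
    rw [← mk_ne_zero_iff, hJ]
    exact (aleph0_pos.trans_le (aleph0_le_aleph 1)).ne'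
  refine ⟨J, hJ.ge, ?_, ?_⟩
  · rw [hJ, ← two_power_aleph0]
    exact power_le_power_left two_ne_zero (aleph0_le_aleph 1)
  · refine ⟨ℕ → J, fun g j => if h : ∃ n, g n = j then Nat.find h else 0, ?_, ?_⟩
    · have h1 : #(ℕ → J) = ℵ₁ ^ ℵ₀ := by
        rw [mk_arrow, hJ]
        simp
      rw [h1]
      calc (ℵ₁ : Cardinal.{u}) ^ ℵ₀ ≤ 𝔠 ^ ℵ₀ := power_le_power_right aleph_one_le_continuum
        _ = 𝔠 := continuum_power_aleph0
        _ ≤ κ := hκ
    · intro A hA
      obtain ⟨g, hg⟩ : ∃ g : ℕ → J, A ⊆ range g := by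
        rcases A.eq_empty_or_nonempty with h | h
        · exact ⟨fun _ => Classical.arbitrary J, by rw [h]; exact empty_subset _⟩
        · obtain ⟨g, hg⟩ := hA.exists_eq_range h
          exact ⟨g, hg.le⟩
      refine ⟨g, ?_⟩
      intro a ha b hb hab
      have h1 : ∃ n, g n = a := hg ha
      have h2 : ∃ n, g n = b := hg hb
      simp only [dif_pos h1, dif_pos h2] at hab
      rw [← Nat.find_spec h1, ← Nat.find_spec h2, hab]

section main

variable {K : Type u} [AddCommGroup K]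

/-- the separating functions -/
theorem theta (H N : AddSubgroup K)
    (hinf : ((QuotientAddGroup.mk : K → K ⧸ N) '' (H : Set K)).Infinite) :
    ∃ θ : K → ℕ, (∀ x y, x - y ∈ N → θ x = θ y) ∧
      ∀ (x : K) (m : ℕ), ∃ y, y - x ∈ H ∧ θ y = m := by
  classical
  -- a function on the quotient, onto on the image of `H`
  obtain ⟨s, hs⟩ : ∃ s : K ⧸ N → ℕ, ∀ m, ∃ k ∈ H, s (QuotientAddGroup.mk k) = m := by
    have e := hinf.natEmbedding
    refine ⟨fun q => if h : ∃ m, ((e m : _) : K ⧸ N) = q then h.choose else 0, fun m => ?_⟩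
    obtain ⟨k, hk, hkm⟩ := (e m).2
    refine ⟨k, hk, ?_⟩
    have h : ∃ m', ((e m' : _) : K ⧸ N) = (QuotientAddGroup.mk k : K ⧸ N) := ⟨m, hkm.symm⟩
    beta_reduce
    rw [dif_pos h]
    exact e.injective (Subtype.ext (h.choose_spec.trans hkm))
  let r : K ⧸ (H ⊔ N) → K := fun q => q.out
  refine ⟨fun x => s (QuotientAddGroup.mk (x - r (QuotientAddGroup.mk x))), ?_, ?_⟩
  · intro x y hxy
    have h1 : (QuotientAddGroup.mk x : K ⧸ (H ⊔ N)) = QuotientAddGroup.mk y := by
      rw [QuotientAddGroup.eq]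
      have : -x + y = -(x - y) := by abel
      rw [this]
      exact neg_mem ((le_sup_right : N ≤ H ⊔ N) hxy)
    have h2 : (QuotientAddGroup.mk (x - r (QuotientAddGroup.mk x)) : K ⧸ N) =
        QuotientAddGroup.mk (y - r (QuotientAddGroup.mk y)) := by
      rw [QuotientAddGroup.eq, h1]
      have : -(x - r (QuotientAddGroup.mk y)) + (y - r (QuotientAddGroup.mk y)) = -(x - y) := by
        abel
      rw [this]
      exact neg_mem hxy
    show s _ = s _
    rw [h2]
  · intro x m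
    obtain ⟨k0, hk0, hs0⟩ := hs m
    have h1 : x - r (QuotientAddGroup.mk x) ∈ H ⊔ N := by
      have h2 : (QuotientAddGroup.mk (r (QuotientAddGroup.mk x)) : K ⧸ (H ⊔ N)) =
          QuotientAddGroup.mk x := Quotient.out_eq _
      rw [QuotientAddGroup.eq] at h2
      have : x - r (QuotientAddGroup.mk x) = -r (QuotientAddGroup.mk x) + x := by abel
      rw [this]
      exact h2
    obtain ⟨k1, hk1, n1, hn1, hkn⟩ := AddSubgroup.mem_sup.1 h1
    refine ⟨x + (k0 - k1), ?_, ?_⟩
    · have : x + (k0 - k1) - x = k0 - k1 := by abel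
      rw [this]
      exact sub_mem hk0 hk1
    · have h3 : (QuotientAddGroup.mk (x + (k0 - k1)) : K ⧸ (H ⊔ N)) = QuotientAddGroup.mk x := by
        rw [QuotientAddGroup.eq]
        have : -(x + (k0 - k1)) + x = k1 - k0 := by abel
        rw [this]
        exact (le_sup_left : H ≤ H ⊔ N) (sub_mem hk1 hk0)
      show s _ = m
      rw [← hs0, h3]
      congr 1
      rw [QuotientAddGroup.eq]
      have : -(x + (k0 - k1) - r (QuotientAddGroup.mk x)) + k0 =
          k1 - (x - r (QuotientAddGroup.mk x)) := by abel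
      rw [this, ← hkn]
      have : k1 - (k1 + n1) = -n1 := by abel
      rw [this]
      exact neg_mem hn1

variable [TopologicalSpace K] [IsTopologicalAddGroup K]

theorem inf_image [T1Space K] (H : AddSubgroup K) (hH : (H : Set K).Infinite) :
    ∃ N : AddSubgroup K, GdSub N ∧
      ((QuotientAddGroup.mk : K → K ⧸ N) '' (H : Set K)).Infinite := by
  classical
  let e := hH.natEmbedding
  have h1 : ∀ p : ℕ × ℕ, ∃ N : AddSubgroup K, GdSub N ∧
      (p.1 ≠ p.2 → ((e p.1 : K) - (e p.2 : K)) ∉ N) := by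
    intro p
    by_cases hp : p.1 = p.2
    · exact ⟨⊤, gdsub_top, fun h => absurd hp h⟩
    · have h2 : (e p.1 : K) - (e p.2 : K) ≠ 0 := by
        intro h
        exact hp (e.injective (Subtype.ext (sub_eq_zero.1 h)))
      obtain ⟨N, hN, hx⟩ := small_ne _ h2
      exact ⟨N, hN, fun _ => hx⟩
  choose M hM1 hM2 using h1
  refine ⟨⨅ p, M p, gdsub_iInf M hM1, ?_⟩
  have h3 : Function.Injective (fun n : ℕ => (QuotientAddGroup.mk (e n : K) : K ⧸ (⨅ p, M p))) := by
    intro m n hmn
    by_contra hne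
    have h4 : (QuotientAddGroup.mk (e m : K) : K ⧸ (⨅ p, M p)) = QuotientAddGroup.mk (e n : K) := hmn
    rw [QuotientAddGroup.eq] at h4
    have h5 := AddSubgroup.mem_iInf.1 h4 (m, n)
    apply hM2 (m, n) hne
    have : (e m : K) - (e n : K) = -(-(e m : K) + (e n : K)) := by abel
    show (e m : K) - (e n : K) ∈ M (m, n)
    rw [this]
    exact neg_mem h5
  refine (infinite_range_of_injective h3).mono ?_
  rintro _ ⟨n, rfl⟩
  exact ⟨(e n : K), (e n).2, rfl⟩

/-- the simultaneous value problem, by Zorn's lemma and compactness -/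
theorem solve [CompactSpace K] {J : Type u} [LinearOrder J] [WellFoundedLT J]
    (N : J → AddSubgroup K) (hN : ∀ α, IsClosed (N α : Set K)) (θ : J → K → ℕ)
    (h1 : ∀ α x y, x - y ∈ N α → θ α x = θ α y)
    (h2 : ∀ α x m, ∃ y, y - x ∈ (⨅ β : Iio α, N β) ∧ θ α y = m) (s : J → ℕ) :
    ∃ x, ∀ α, θ α x = s α := by
  classical
  let P : Type u := {p : Set J × K // IsLowerSet p.1 ∧ ∀ β ∈ p.1, θ β p.2 = s β}
  let r : P → P → Prop := fun p q => p.1.1 ⊆ q.1.1 ∧ ∀ β ∈ p.1.1, q.1.2 - p.1.2 ∈ N β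
  have htrans : ∀ {a b c : P}, r a b → r b c → r a c := by
    rintro a b c ⟨hab1, hab2⟩ ⟨hbc1, hbc2⟩
    refine ⟨hab1.trans hbc1, fun β hβ => ?_⟩
    have : c.1.2 - a.1.2 = (c.1.2 - b.1.2) + (b.1.2 - a.1.2) := by abel
    rw [this]
    exact add_mem (hbc2 β (hab1 hβ)) (hab2 β hβ)
  have hrefl : ∀ a : P, r a a := fun a => ⟨subset_rfl, fun β _ => by
    rw [sub_self]; exact zero_mem _⟩
  have hchain : ∀ c : Set P, IsChain r c → ∃ ub, ∀ a ∈ c, r a ub := by
    intro c hc
    rcases c.eq_empty_or_nonempty with hce | hcne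
    · refine ⟨⟨(∅, 0), ⟨fun _ _ _ h => h.elim, fun β hβ => hβ.elim⟩⟩, ?_⟩
      rw [hce]
      exact fun a ha => ha.elim
    -- the closed sets
    let C : c → Set K := fun a => {y | ∀ β ∈ a.1.1.1, y - a.1.1.2 ∈ N β}
    have hCc : ∀ a, IsClosed (C a) := by
      intro a
      have : C a = ⋂ β ∈ a.1.1.1, (fun y => y - a.1.1.2) ⁻¹' (N β : Set K) := by
        ext y
        simp [C]
      rw [this]
      exact isClosed_biInter fun β _ => (hN β).preimage (by fun_prop)
    have hne : (⋂ a, C a).Nonempty := by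
      have : Nonempty c := hcne.to_subtype
      apply IsCompact.nonempty_iInter_of_directed_nonempty_isCompact_isClosed
      · intro a b
        have hab : r a.1 b.1 ∨ r b.1 a.1 := by
          by_cases h : a.1 = b.1
          · left; rw [h]; exact hrefl _
          · exact hc a.2 b.2 h
        rcases hab with h | h
        · refine ⟨b, ?_, subset_rfl⟩
          intro y hy β hβ
          have : y - a.1.1.2 = (y - b.1.1.2) + (b.1.1.2 - a.1.1.2) := by abel
          rw [this]
          exact add_mem (hy β (h.1 hβ)) (h.2 β hβ)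
        · refine ⟨a, subset_rfl, ?_⟩
          intro y hy β hβ
          have : y - b.1.1.2 = (y - a.1.1.2) + (a.1.1.2 - b.1.1.2) := by abel
          rw [this]
          exact add_mem (hy β (h.1 hβ)) (h.2 β hβ)
      · intro a
        refine ⟨a.1.1.2, fun β _ => ?_⟩
        rw [sub_self]
        exact zero_mem _
      · exact fun a => (hCc a).isCompact
      · exact hCc
    obtain ⟨y, hy⟩ := hne
    refine ⟨⟨(⋃ a : c, a.1.1.1, y), ?_, ?_⟩, ?_⟩
    · exact isLowerSet_iUnion fun a => a.1.2.1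
    · intro β hβ
      obtain ⟨a, ha⟩ := mem_iUnion.1 hβ
      have := mem_iInter.1 hy a β ha
      rw [h1 β y a.1.1.2 this]
      exact a.1.2.2 β ha
    · intro a ha
      exact ⟨subset_iUnion (fun a : c => a.1.1.1) ⟨a, ha⟩, fun β hβ => mem_iInter.1 hy ⟨a, ha⟩ β hβ⟩
  obtain ⟨m, hm⟩ := exists_maximal_of_chains_bounded hchain htrans
  have huniv : m.1.1 = Set.univ := by
    by_contra hne
    obtain ⟨a, ha⟩ := (ne_univ_iff_exists_notMem _).1 hne
    have hwf : WellFounded ((· < ·) : J → J → Prop) := wellFounded_lt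
    let α := hwf.min (m.1.1ᶜ) ⟨a, ha⟩
    have hα : α ∉ m.1.1 := hwf.min_mem (m.1.1ᶜ) ⟨a, ha⟩
    have hlt : ∀ β, β < α → β ∈ m.1.1 := by
      intro β hβ
      by_contra hcon
      exact hwf.not_lt_min (m.1.1ᶜ) hcon hβ
    have hgt : ∀ β ∈ m.1.1, β < α := by
      intro β hβ
      by_contra hcon
      exact hα (m.2.1 (not_lt.1 hcon) hβ)
    obtain ⟨y, hy1, hy2⟩ := h2 α m.1.2 (s α)
    have hy3 : ∀ β ∈ m.1.1, y - m.1.2 ∈ N β := by
      intro β hβ
      exact AddSubgroup.mem_iInf.1 hy1 ⟨β, hgt β hβ⟩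
    have hq := hm ⟨(insert α m.1.1, y), ?_, ?_⟩ ⟨subset_insert _ _, hy3⟩
    · exact hα (hq.1 (mem_insert _ _))
    · intro b c hcb hb
      rcases hb with hb | hb
      · rcases hcb.eq_or_lt with h | h
        · left; rw [h, hb]
        · right; exact hlt c (by rw [← hb]; exact h)
      · right; exact m.2.1 hcb hb
    · intro β hβ
      rcases hβ with hβ | hβ
      · rw [hβ]; exact hy2
      · show θ β y = s β
        rw [h1 β y m.1.2 (hy3 β hβ)]
        exact m.2.2 β hβ
  refine ⟨m.1.2, fun α => m.2.2 α ?_⟩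
  rw [huniv]
  exact mem_univ _

end main

end Pool.Agent.H345R3.PC3
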