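import Mathlib
import Pool.Agent.H345R3.PC3b

set_option autoImplicit false

universe u

namespace Pool.Agent.H345R3.PC3

open Cardinal Topology Set Pool.Agent.H376R3.PC

theorem pc3 : TaskPC3.{u} := by
  classical
  intro K _ _ _ _ _ _ L hL
  by_cases h0 : IsGδ ({0} : Set K)
  · -- metrizable case
    have hLK : L = Set.univ := by
      ext x
      refine ⟨fun _ => mem_univ _, fun _ => ?_⟩
      have h1 : IsGδ ({x} : Set K) := by
        have h2 : ({x} : Set K) = (fun y => y - x) ⁻¹' {0} := by
          ext y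
          simp [sub_eq_zero]
        rw [h2]
        exact h0.preimage (by fun_prop)
      obtain ⟨y, hy1, hy2⟩ := hL {x} h1 (singleton_nonempty x)
      rw [mem_singleton_iff.1 hy1] at hy2
      exact hy2
    obtain ⟨J, hJ1, hJ2, hJ3⟩ := caseA (#K) cont_le
    refine ⟨J, hJ1, ?_, ?_⟩
    · refine le_trans ?_ hJ2
      obtain ⟨c, hc⟩ := code ({0} : Set K) h0 rfl
      have hinj : Function.Injective c := fun x y hxy => sub_eq_zero.1 (hc x y hxy)
      have h2 := Cardinal.lift_mk_le_lift_mk_of_injective hinj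
      simpa using h2
    · rw [hLK, mk_univ]
      exact hJ3
  · -- main case
    let S : Set Cardinal.{u} := {κ | ∃ F : Set (AddSubgroup K), (∀ N ∈ F, GdSub N) ∧
      (∀ x, (∀ N ∈ F, x ∈ N) → x = 0) ∧ #F = κ}
    have hSne : S.Nonempty := by
      refine ⟨_, {N | GdSub N}, fun N hN => hN, fun x hx => ?_, rfl⟩
      by_contra hne
      obtain ⟨N, hN, hxN⟩ := small_ne x hne
      exact hxN (hx N hN)
    obtain ⟨F, hF1, hF2, hF3⟩ := csInf_mem hSne
    set σ : Cardinal.{u} := sInf S with hσ
    have hmin : ∀ (ι : Type u) (M : ι → AddSubgroup K), (∀ i, GdSub (M i)) →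
        (∀ x, (∀ i, x ∈ M i) → x = 0) → σ ≤ #ι := by
      intro ι M hM1 hM2
      have hmem : #(Set.range M) ∈ S := by
        refine ⟨Set.range M, ?_, ?_, rfl⟩
        · rintro _ ⟨i, rfl⟩
          exact hM1 i
        · intro x hx
          exact hM2 x fun i => hx _ ⟨i, rfl⟩
      exact (csInf_le' hmem).trans mk_range_le
    have hunc : ℵ₀ < σ := by
      by_contra hcon
      have h1 : #F ≤ ℵ₀ := by rw [hF3]; exact not_lt.1 hcon
      have h2 : Countable F := mk_le_aleph0_iff.1 h1
      have h3 := gdsub_iInf (fun N : F => (N : AddSubgroup K)) (fun N => hF1 N N.2)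
      apply h0
      have h4 : ({0} : Set K) = ((⨅ N : F, (N : AddSubgroup K)) : AddSubgroup K) := by
        ext x
        rw [mem_singleton_iff, SetLike.mem_coe, AddSubgroup.mem_iInf]
        exact ⟨fun h N => by rw [h]; exact zero_mem _, fun h => hF2 x fun N hN => h ⟨N, hN⟩⟩
      rw [h4]
      exact h3.2
    let J : Type u := σ.ord.ToType
    have hJ : #J = σ := mk_ord_toType σ
    have hIio : ∀ α : J, #(Iio α) < σ := fun α => mk_Iio_toType_ord_lt α
    -- recursion
    let step : ∀ α : J, (∀ β : J, β < α → AddSubgroup K) → AddSubgroup K := fun α prev =>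
      if h : ∃ N : AddSubgroup K, GdSub N ∧ ((QuotientAddGroup.mk : K → K ⧸ N) ''
        ((⨅ β : Iio α, prev β β.2 : AddSubgroup K) : Set K)).Infinite then h.choose else ⊤
    let hwf : WellFounded ((· < ·) : J → J → Prop) := wellFounded_lt
    let N : J → AddSubgroup K := hwf.fix step
    have hNeq : ∀ α : J, N α = step α (fun β _ => N β) := fun α => hwf.fix_eq step α
    have hNgd : ∀ α : J, GdSub (N α) := by
      intro α
      rw [hNeq]
      by_cases h : ∃ N' : AddSubgroup K, GdSub N' ∧ ((QuotientAddGroup.mk : K → K ⧸ N') ''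
        ((⨅ β : Iio α, N β : AddSubgroup K) : Set K)).Infinite
      · simp only [step, dif_pos h]
        exact h.choose_spec.1
      · simp only [step, dif_neg h]
        exact gdsub_top
    have hinf : ∀ α : J, ((⨅ β : Iio α, N β : AddSubgroup K) : Set K).Infinite := by
      intro α hfin
      -- finitely many more subgroups
      have h1 : ∀ x : ((⨅ β : Iio α, N β : AddSubgroup K) : Set K), ∃ M : AddSubgroup K,
          GdSub M ∧ ((x : K) ≠ 0 → (x : K) ∉ M) := by
        intro x
        by_cases hx : (x : K) = 0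
        · exact ⟨⊤, gdsub_top, fun h => absurd hx h⟩
        · obtain ⟨M, hM, hxM⟩ := small_ne (x : K) hx
          exact ⟨M, hM, fun _ => hxM⟩
      choose M hM1 hM2 using h1
      have h2 := hmin (Iio α ⊕ ((⨅ β : Iio α, N β : AddSubgroup K) : Set K))
        (Sum.elim (fun β : Iio α => N (β : J)) M) (by
          rintro (β | x)
          · exact hNgd (β : J)
          · exact hM1 x) (by
          intro x hx
          by_contra hne
          have h3 : x ∈ (⨅ β : Iio α, N (β : J) : AddSubgroup K) :=
            AddSubgroup.mem_iInf.2 fun β => hx (Sum.inl β)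
          exact hM2 ⟨x, h3⟩ hne (hx (Sum.inr ⟨x, h3⟩)))
      have h3 : #((⨅ β : Iio α, N β : AddSubgroup K) : Set K) < ℵ₀ := by
        have := hfin.to_subtype
        exact mk_lt_aleph0
      rw [mk_sum, lift_id, lift_id] at h2
      exact absurd h2 (not_le.2 (add_lt_of_lt hunc.le (hIio α) (h3.trans hunc)))
    have himg : ∀ α : J, ((QuotientAddGroup.mk : K → K ⧸ (N α)) ''
        ((⨅ β : Iio α, N β : AddSubgroup K) : Set K)).Infinite := by
      intro α
      have h : ∃ N' : AddSubgroup K, GdSub N' ∧ ((QuotientAddGroup.mk : K → K ⧸ N') ''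
        ((⨅ β : Iio α, N β : AddSubgroup K) : Set K)).Infinite := inf_image _ (hinf α)
      have h1 : N α = h.choose := by
        rw [hNeq]
        simp only [step, dif_pos h]
      rw [h1]
      exact h.choose_spec.2
    choose θ hθ1 hθ2 using fun α : J => theta (⨅ β : Iio α, N β : AddSubgroup K) (N α) (himg α)
    refine ⟨J, ?_, ?_, ?_⟩
    · rw [hJ, aleph_one_le_iff]
      exact hunc
    · -- cardinality of `K`
      have h1 : ∀ M : F, ∃ c : K → ℕ → ℕ, ∀ x y, c x = c y → x - y ∈ ((M : AddSubgroup K) : Set K) :=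
        fun M => code _ (hF1 M M.2).2 (zero_mem (M : AddSubgroup K))
      choose c hc using h1
      have hinj : Function.Injective (fun x : K => fun M : F => c M x) := by
        intro x y hxy
        rw [← sub_eq_zero]
        refine hF2 _ fun M hM => hc ⟨M, hM⟩ x y (congrFun hxy ⟨M, hM⟩)
      have h2 := mk_le_of_injective hinj
      refine h2.trans ?_
      rw [mk_arrow, hJ, hF3]
      have h3 : #(ℕ → ℕ) = 𝔠 := by simp
      rw [h3, lift_continuum, lift_uzero, ← two_power_aleph0, ← power_mul]
      rw [aleph0_mul_eq hunc.le]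
    · refine ⟨L, fun y α => θ α y, le_rfl, ?_⟩
      intro A hA
      obtain ⟨s, hs⟩ := Set.countable_iff_exists_injOn.1 hA
      obtain ⟨x, hx⟩ := solve N (fun α => (hNgd α).1) θ (fun α x y h => hθ1 α x y h)
        (fun α x m => hθ2 α x m) s
      -- move `x` into `L`
      have hAc : Countable A := hA.to_subtype
      have h3 := gdsub_iInf (fun α : A => N α) (fun α => hNgd α)
      have h4 : IsGδ ((fun y => y - x) ⁻¹' ((⨅ α : A, N α : AddSubgroup K) : Set K)) :=
        h3.2.preimage (by fun_prop)
      obtain ⟨y, hy1, hy2⟩ := hL _ h4 ⟨x, by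
        rw [mem_preimage, sub_self]; exact zero_mem _⟩
      refine ⟨⟨y, hy2⟩, ?_⟩
      have h5 : ∀ α ∈ A, θ α y = s α := by
        intro α hα
        rw [← hx α]
        exact hθ1 α y x (AddSubgroup.mem_iInf.1 hy1 ⟨α, hα⟩)
      intro a ha b hb hab
      apply hs ha hb
      rw [← h5 a ha, ← h5 b hb]
      exact hab

end Pool.Agent.H345R3.PC3

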