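import Mathlib
import Pool.Agent.H345R3.WA

/-!
A weakly compactly generated space has a family `x : Γ → X` with `(f (x γ)) ∈ c₀(Γ)` for every functional,
which is total.
-/

open Set Topology Filter
open Pool.Agent.Helper639.Cor Pool.Agent.Helper639.Ebl

namespace Pool.Agent.H345R3.WCG

/-- A total family which is `c₀` on every functional. -/
structure Fam {X : Type} [NormedAddCommGroup X] [NormedSpace ℝ X] {Γ : Type} (x : Γ → X) : Prop where
  le_one : ∀ γ, ‖x γ‖ ≤ 1
  fin : ∀ (f : X →L[ℝ] ℝ) (ε : ℝ), 0 < ε → {γ | ε ≤ |f (x γ)|}.Finite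
  total : ∀ f : X →L[ℝ] ℝ, (∀ γ, f (x γ) = 0) → f = 0

theorem fam_of_compact (X : Type) [NormedAddCommGroup X] [NormedSpace ℝ X] [CompleteSpace X]
    (K : Type) [TopologicalSpace K] [CompactSpace K] (e : K → X)
    (he : ∀ f : X →L[ℝ] ℝ, Continuous (fun s => f (e s)))
    (hd : Dense ((Submodule.span ℝ (range e) : Submodule ℝ X) : Set X)) :
    ∃ (Γ : Type) (x : Γ → X), Fam x := by
  classical
  -- `K` is norm bounded
  have hbd : ∃ M : ℝ, 0 < M ∧ ∀ s, ‖e s‖ ≤ M := by
    have h1 : ∀ f : X →L[ℝ] ℝ, ∃ C, ∀ s : K, ‖(NormedSpace.inclusionInDoubleDual ℝ X (e s)) f‖ ≤ C := by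
      intro f
      obtain ⟨C, hC⟩ := (isCompact_range (he f)).isBounded.exists_norm_le
      exact ⟨C, fun x => hC _ ⟨x, rfl⟩⟩
    obtain ⟨C, hC⟩ := banach_steinhaus h1
    refine ⟨max C 1, lt_of_lt_of_le one_pos (le_max_right _ _), fun s => ?_⟩
    have := hC s
    have h4 : ‖NormedSpace.inclusionInDoubleDual ℝ X (e s)‖ = ‖e s‖ :=
      (NormedSpace.inclusionInDoubleDualLi ℝ).norm_map (e s)
    rw [← h4]
    exact this.trans (le_max_left _ _)
  obtain ⟨M, hM0, hM⟩ := hbd
  -- the compact spaces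
  let B : Type := {ψ : WeakDual ℝ X // ψ ∈ WeakDual.toStrongDual ⁻¹' Metric.closedBall (0 : StrongDual ℝ X) 1}
  have hBc : CompactSpace B := isCompact_iff_compactSpace.mp
    (WeakDual.isCompact_closedBall (𝕜 := ℝ) (E := X) (0 : StrongDual ℝ X) 1)
  let φ : B → K → ℝ := fun ψ s => ψ.1 ((1 / M) • e s)
  have h1 : ∀ x : K, Continuous (fun ψ : B => φ ψ x) := fun x =>
    (WeakDual.eval_continuous _).comp continuous_subtype_val
  have h2 : ∀ ψ : B, Continuous (φ ψ) := by
    intro ψ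
    have h4 : φ ψ = fun s : K => (1 / M) * (WeakDual.toStrongDual ψ.1) (e s) := by
      funext x
      exact map_smul ψ.1 (1 / M) (e x)
    rw [h4]
    exact continuous_const.mul (he _)
  have hnorm : ∀ ψ : B, ‖(WeakDual.toStrongDual ψ.1 : X →L[ℝ] ℝ)‖ ≤ 1 := fun ψ => by
    have h3 := ψ.2
    have h4 : (WeakDual.toStrongDual ψ.1 : StrongDual ℝ X) ∈ Metric.closedBall (0 : StrongDual ℝ X) 1 := h3
    rw [mem_closedBall_zero_iff] at h4
    exact h4
  have hb : ∀ (ψ : B) (x : K), |φ ψ x| ≤ 1 := by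
    intro ψ x
    have h3 : ‖(WeakDual.toStrongDual ψ.1) ((1 / M) • e x)‖ ≤ 1 * ‖(1 / M) • e x‖ :=
      (WeakDual.toStrongDual ψ.1).le_of_opNorm_le (hnorm ψ) _
    have h4 : ‖(1 / M) • e x‖ ≤ 1 := by
      rw [norm_smul, Real.norm_of_nonneg (by positivity), one_div, inv_mul_le_iff₀ hM0, mul_one]
      exact hM x
    have h5 : |φ ψ x| = ‖(WeakDual.toStrongDual ψ.1) ((1 / M) • e x)‖ := rfl
    rw [h5]
    linarith
  have hs : ∀ ψ ψ' : B, (∀ x, φ ψ x = φ ψ' x) → ψ = ψ' := by
    intro ψ ψ' h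
    apply Subtype.ext
    apply WeakDual.toStrongDual.injective
    have h3 : EqOn (WeakDual.toStrongDual ψ.1) (WeakDual.toStrongDual ψ'.1) (Submodule.span ℝ (range e)) := by
      apply LinearMap.eqOn_span (f := (WeakDual.toStrongDual ψ.1 : X →L[ℝ] ℝ).toLinearMap)
        (g := (WeakDual.toStrongDual ψ'.1 : X →L[ℝ] ℝ).toLinearMap)
      rintro _ ⟨s, rfl⟩
      have h4 : (1 / M) * ψ.1 (e s) = (1 / M) * ψ'.1 (e s) := by
        have := h s
        have e1 : φ ψ s = (1 / M) * ψ.1 (e s) := map_smul ψ.1 (1 / M) (e s)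
        have e2 : φ ψ' s = (1 / M) * ψ'.1 (e s) := map_smul ψ'.1 (1 / M) (e s)
        rw [← e1, ← e2, this]
      exact mul_left_cancel₀ (by positivity) h4
    exact DFunLike.ext' (Continuous.ext_on hd (ContinuousLinearMap.continuous _)
      (ContinuousLinearMap.continuous _) h3)
  have : T2Space B := inferInstance
  obtain ⟨Γ, h, hh, hinj, -, hspan⟩ := al_lin_aux _ B K φ h1 h2 hb hs univ dense_univ rfl
  -- the coordinates are evaluations
  let ev : X →ₗ[ℝ] (B → ℝ) :=
    { toFun := fun x ψ => ψ.1 x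
      map_add' := fun x y => by funext ψ; exact map_add ψ.1 x y
      map_smul' := fun c x => by funext ψ; exact map_smul ψ.1 c x }
  have hev : ∀ γ, ∃ x : X, ∀ ψ : B, h ψ γ = ψ.1 x := by
    intro γ
    have h3 : Submodule.span ℝ (range fun (x : K) (ψ : B) => φ ψ x) ≤ LinearMap.range ev := by
      rw [Submodule.span_le]
      rintro _ ⟨x, rfl⟩
      exact ⟨(1 / M) • e x, rfl⟩
    obtain ⟨x, hx⟩ := h3 (hspan γ)
    exact ⟨x, fun ψ => (congrFun hx ψ).symm⟩
  choose x hx using hev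
  let toB : (X →L[ℝ] ℝ) → B := fun f => ⟨StrongDual.toWeakDual ((1 / (‖f‖ + 1)) • f), by
    simp only [mem_preimage, mem_closedBall_zero_iff]
    change ‖(1 / (‖f‖ + 1)) • f‖ ≤ 1
    rw [norm_smul, Real.norm_of_nonneg (by positivity), one_div, inv_mul_le_iff₀ (by positivity)]
    linarith⟩
  have htoB : ∀ f γ, h (toB f) γ = (1 / (‖f‖ + 1)) * f (x γ) := by
    intro f γ
    rw [hx]
    rfl
  refine ⟨Γ, x, ⟨fun γ => ?_, fun f ε hε => ?_, fun f hf => ?_⟩⟩
  · refine NormedSpace.norm_le_dual_bound ℝ (x γ) zero_le_one (fun f => ?_)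
    by_cases hf0 : f = 0
    · simp [hf0]
    have hfn : 0 < ‖f‖ := norm_pos_iff.mpr hf0
    have h3 := hh.bd (⟨StrongDual.toWeakDual ((1 / ‖f‖) • f), by
      simp only [mem_preimage, mem_closedBall_zero_iff]
      change ‖(1 / ‖f‖) • f‖ ≤ 1
      rw [norm_smul, Real.norm_of_nonneg (by positivity), one_div, inv_mul_cancel₀ hfn.ne']⟩ : B) γ
    rw [hx] at h3
    have h4 : |(1 / ‖f‖) * f (x γ)| ≤ 1 := h3
    rw [abs_mul, abs_of_pos (by positivity), one_div, inv_mul_le_iff₀ hfn, mul_one] at h4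
    rw [one_mul]
    exact h4
  · have h3 := hh.fin (toB f) (ε / (‖f‖ + 1)) (by positivity)
    refine h3.subset ?_
    intro γ hγ
    simp only [mem_ofPred_eq] at hγ ⊢
    rw [htoB, abs_mul, abs_of_pos (by positivity), one_div, inv_mul_eq_div]
    gcongr
  · have h3 : toB f = toB 0 := by
      apply hinj
      funext γ
      rw [htoB, htoB, hf γ]
      simp
    have h4 : (1 / (‖f‖ + 1)) • f = 0 := by
      have := congrArg Subtype.val h3
      have h5 := StrongDual.toWeakDual.injective this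
      rw [h5]; simp
    rcases smul_eq_zero.mp h4 with h5 | h5
    · exfalso
      have : (0:ℝ) < 1 / (‖f‖ + 1) := by positivity
      linarith
    · exact h5

theorem wcg_family (X : Type) [NormedAddCommGroup X] [NormedSpace ℝ X] [CompleteSpace X] (K : Set X)
    (hK : @IsCompact X (TopologicalSpace.induced (fun (x : X) (f : X →L[ℝ] ℝ) => f x) inferInstance) K)
    (hd : Dense ((Submodule.span ℝ K : Submodule ℝ X) : Set X)) :
    ∃ (Γ : Type) (x : Γ → X), Fam x := by
  have h1 : @CompactSpace K (@instTopologicalSpaceSubtype X (· ∈ K)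
    (TopologicalSpace.induced (fun (x : X) (f : X →L[ℝ] ℝ) => f x) inferInstance)) :=
    (@isCompact_iff_compactSpace X
      (TopologicalSpace.induced (fun (x : X) (f : X →L[ℝ] ℝ) => f x) inferInstance) K).mp hK
  refine @fam_of_compact X _ _ _ K (@instTopologicalSpaceSubtype X (· ∈ K)
    (TopologicalSpace.induced (fun (x : X) (f : X →L[ℝ] ℝ) => f x) inferInstance)) h1
    Subtype.val ?_ ?_
  · intro f
    have h2 : @Continuous X ℝ (TopologicalSpace.induced (fun (x : X) (f : X →L[ℝ] ℝ) => f x) inferInstance) _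
        (fun x => f x) :=
      @Continuous.comp X ((X →L[ℝ] ℝ) → ℝ) ℝ
        (TopologicalSpace.induced (fun (x : X) (f : X →L[ℝ] ℝ) => f x) inferInstance) _ _
        (fun (x : X) (f : X →L[ℝ] ℝ) => f x) (fun p => p f) (continuous_apply f) continuous_induced_dom
    exact @Continuous.comp K X ℝ (@instTopologicalSpaceSubtype X (· ∈ K)
      (TopologicalSpace.induced (fun (x : X) (f : X →L[ℝ] ℝ) => f x) inferInstance))
      (TopologicalSpace.induced (fun (x : X) (f : X →L[ℝ] ℝ) => f x) inferInstance) _ _ _ h2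
      (@continuous_subtype_val X (TopologicalSpace.induced (fun (x : X) (f : X →L[ℝ] ℝ) => f x) inferInstance)
        (· ∈ K))
  · rw [Subtype.range_coe]
    exact hd

end Pool.Agent.H345R3.WCG
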