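import Mathlib
import Pool.Agent.H345R3.WB

/-!
Closing off: a norm one projection onto a separable subspace, compatible with a total `c₀`-family, which
keeps large norm oscillation of a bounded set of functionals in the weak* topology.
-/

open Set Topology Filter

namespace Pool.Agent.H345R3.WCG

theorem closing {α : Type*} (G : Finset α → Set α) (hG : ∀ F, (G F).Countable) (A₀ : Set α)
    (h₀ : A₀.Countable) :
    ∃ A : Set α, A.Countable ∧ A₀ ⊆ A ∧ ∀ F : Finset α, (F : Set α) ⊆ A → G F ⊆ A := by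
  classical
  let st : Set α → Set α := fun S => S ∪ ⋃ F ∈ {F : Finset α | (F : Set α) ⊆ S}, G F
  have hst : ∀ S, S.Countable → (st S).Countable := by
    intro S hS
    have h1 : {F : Finset α | (F : Set α) ⊆ S}.Countable := by
      have h2 := countable_setOf_finite_subset hS
      refine (h2.preimage_of_injOn (f := fun F : Finset α => (F : Set α))
        (Finset.coe_injective.injOn)).mono ?_
      intro F hF
      exact ⟨F.finite_toSet, hF⟩
    exact hS.union (h1.biUnion fun F _ => hG F)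
  have hsub : ∀ S, S ⊆ st S := fun S => subset_union_left
  let A : ℕ → Set α := fun n => st^[n] A₀
  have hA : ∀ n, A (n + 1) = st (A n) := fun n => Function.iterate_succ_apply' st n A₀
  have hmono : Monotone A := monotone_nat_of_le_succ (fun n => by rw [hA]; exact hsub _)
  refine ⟨⋃ n, A n, countable_iUnion fun n => ?_, subset_iUnion A 0, ?_⟩
  · induction n with
    | zero => exact h₀
    | succ n ih => rw [hA]; exact hst _ ih
  · intro F hF
    have h1 : ∃ n, (F : Set α) ⊆ A n := by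
      clear_value A
      induction F using Finset.induction_on with
      | empty => exact ⟨0, by simp⟩
      | insert a s _ ih =>
        rw [Finset.coe_insert, insert_subset_iff] at hF
        obtain ⟨n, hn⟩ := ih hF.2
        obtain ⟨m, hm⟩ := mem_iUnion.mp hF.1
        refine ⟨max n m, ?_⟩
        rw [Finset.coe_insert, insert_subset_iff]
        exact ⟨hmono (le_max_right _ _) hm, hn.trans (hmono (le_max_left _ _))⟩
    obtain ⟨n, hn⟩ := h1
    have h2 : G F ⊆ A (n + 1) := by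
      rw [hA]
      refine Subset.trans ?_ subset_union_right
      exact subset_biUnion_of_mem (u := fun F => G F) (show F ∈ {F : Finset α | (F : Set α) ⊆ A n} from hn)
    exact h2.trans (subset_iUnion A (n + 1))

section

variable {X : Type} [NormedAddCommGroup X] [NormedSpace ℝ X]

theorem Fam.supp {Γ : Type} {x : Γ → X} (hx : Fam x) (f : X →L[ℝ] ℝ) : {γ | f (x γ) ≠ 0}.Countable := by
  have h1 : {γ | f (x γ) ≠ 0} ⊆ ⋃ n : ℕ, {γ | 1 / ((n : ℝ) + 1) ≤ |f (x γ)|} := by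
    intro γ hγ
    obtain ⟨n, hn⟩ := exists_nat_one_div_lt (abs_pos.mpr hγ)
    exact mem_iUnion.mpr ⟨n, hn.le⟩
  exact (countable_iUnion fun n : ℕ => (hx.fin f _ (by positivity)).countable).mono h1

/-- a closed subspace containing a total family is everything -/
theorem Fam.top {Γ : Type} {x : Γ → X} (hx : Fam x) (W : Submodule ℝ X) (hW : IsClosed (W : Set X))
    (h : ∀ γ, x γ ∈ W) : W = ⊤ := by
  by_contra hne
  obtain ⟨z, hz⟩ : ∃ z, z ∉ W := by
    by_contra hall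
    push Not at hall
    exact hne (eq_top_iff.mpr fun z _ => hall z)
  obtain ⟨f, u, h1, h2⟩ := geometric_hahn_banach_closed_point (W.convex) hW hz
  have h0 : ∀ a ∈ W, f a = 0 := by
    intro a ha
    by_contra hfa
    have h3 := h1 (((u + 1) / f a) • a) (W.smul_mem _ ha)
    rw [map_smul, smul_eq_mul, div_mul_cancel₀ _ hfa] at h3
    linarith
  have h4 : f = 0 := hx.total f (fun γ => h0 _ (h γ))
  have h5 := h1 0 W.zero_mem
  rw [h4] at h5 h2
  simp at h5 h2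
  linarith

end

variable {X : Type} [NormedAddCommGroup X] [NormedSpace ℝ X] [CompleteSpace X]

theorem exists_proj {Γ : Type} {x : Γ → X} (hx : Fam x) (C : Set (X →L[ℝ] ℝ)) (ε : ℝ) (hε : 0 < ε)
    (M : ℝ) (hM : ∀ f ∈ C, ‖f‖ ≤ M)
    (hC : ∀ (F : Finset X), ∀ f₀ ∈ C, ∀ δ : ℝ, 0 < δ → ∃ f ∈ C, ∃ g ∈ C,
      (∀ v ∈ F, |f v - f₀ v| < δ ∧ |g v - f₀ v| < δ) ∧ ε < ‖f - g‖) :
    ∃ (P : X →L[ℝ] X) (Γ₀ : Set Γ), Γ₀.Countable ∧ (∀ γ ∈ Γ₀, P (x γ) = x γ) ∧ (∀ γ, γ ∉ Γ₀ → P (x γ) = 0) ∧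
      ∀ (F : Finset X), ∀ f₀ ∈ C, ∀ δ : ℝ, 0 < δ → ∃ f ∈ C, (∀ v ∈ F, |f (P v) - f₀ (P v)| < δ) ∧
        ∃ w, P w = w ∧ ‖w‖ ≤ 1 ∧ ε / 2 < (f w - f₀ w) := by
  classical
  -- norming functionals
  have hnf : ∀ a : X, ∃ f : X →L[ℝ] ℝ, ‖f‖ ≤ 1 ∧ f a = ‖a‖ := fun a => exists_dual_vector'' ℝ a
  choose nf hnf1 hnfa using hnf
  -- witnesses
  have hwit : ∀ (F : Finset X) (d : F → ℚ × ℚ), ∃ w : X, (∃ f₀ ∈ C, ∀ v : F, ((d v).1 : ℝ) < f₀ v ∧ f₀ v < (d v).2) →
      ‖w‖ ≤ 1 ∧ ∃ f ∈ C, ∃ g ∈ C, (∀ v : F, (((d v).1 : ℝ) < f v ∧ f v < (d v).2) ∧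
        (((d v).1 : ℝ) < g v ∧ g v < (d v).2)) ∧ ε < f w - g w := by
    intro F d
    by_cases hex : ∃ f₀ ∈ C, ∀ v : F, ((d v).1 : ℝ) < f₀ v ∧ f₀ v < (d v).2
    · obtain ⟨f₀, hf₀, hd⟩ := hex
      have h1 : ∃ δ : ℝ, 0 < δ ∧ ∀ v : F, δ ≤ f₀ v - (d v).1 ∧ δ ≤ (d v).2 - f₀ v := by
        have h2 : ∀ᶠ δ : ℝ in 𝓝[>] 0, ∀ v : F, δ ≤ f₀ v - (d v).1 ∧ δ ≤ (d v).2 - f₀ v := by
          rw [Filter.eventually_all]
          intro v
          have h3 : (0:ℝ) < f₀ v - (d v).1 := by linarith [(hd v).1]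
          have h4 : (0:ℝ) < (d v).2 - f₀ v := by linarith [(hd v).2]
          have h5 : ∀ᶠ δ : ℝ in 𝓝[>] 0, δ < f₀ v - (d v).1 :=
            (eventually_lt_nhds h3).filter_mono nhdsWithin_le_nhds
          have h6 : ∀ᶠ δ : ℝ in 𝓝[>] 0, δ < (d v).2 - f₀ v :=
            (eventually_lt_nhds h4).filter_mono nhdsWithin_le_nhds
          filter_upwards [h5, h6] with δ h7 h8
          exact ⟨h7.le, h8.le⟩
        obtain ⟨δ, h3, h4⟩ := (h2.and self_mem_nhdsWithin).exists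
        exact ⟨δ, h4, h3⟩
      obtain ⟨δ, hδ, hδ2⟩ := h1
      obtain ⟨f, hf, g, hg, hfg, hlt⟩ := hC F f₀ hf₀ δ hδ
      -- a vector
      obtain ⟨w, hw1, hw2⟩ : ∃ w : X, ‖w‖ ≤ 1 ∧ ε < f w - g w := by
        by_contra hcon
        push Not at hcon
        have : ‖f - g‖ ≤ ε := by
          refine ContinuousLinearMap.opNorm_le_of_unit_norm hε.le ?_
          intro z hz
          rw [Real.norm_eq_abs, abs_le, ContinuousLinearMap.sub_apply]
          have h8 := hcon z hz.le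
          have h9 := hcon (-z) (by rw [norm_neg]; exact hz.le)
          rw [map_neg, map_neg] at h9
          constructor <;> linarith
        linarith
      refine ⟨w, fun _ => ⟨hw1, f, hf, g, hg, fun v => ?_, hw2⟩⟩
      have h3 := hfg v v.2
      have h4 := abs_lt.mp h3.1
      have h5 := abs_lt.mp h3.2
      have h6 := hδ2 v
      refine ⟨⟨?_, ?_⟩, ⟨?_, ?_⟩⟩ <;> linarith [h4.1, h4.2, h5.1, h5.2, h6.1, h6.2]
    · exact ⟨0, fun h => absurd h hex⟩
  choose wit hwit using hwit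
  let G : Finset X → Set X := fun F =>
    (((⋃ a ∈ F, x '' {γ | nf a (x γ) ≠ 0}) ∪ range (wit F)) ∪ (image2 (· + ·) (F : Set X) (F : Set X))) ∪
      (⋃ a ∈ F, range fun q : ℚ => (q : ℝ) • a)
  have hG : ∀ F, (G F).Countable := by
    intro F
    refine (((?_ : Set.Countable _).union (countable_range _)).union ?_).union ?_
    · exact (F.countable_toSet).biUnion fun a _ => (hx.supp (nf a)).image x
    · exact (F.countable_toSet).image2 (F.countable_toSet) _
    · exact (F.countable_toSet).biUnion fun a _ => countable_range _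
  obtain ⟨A, hAc, hA0, hAG⟩ := closing G hG {0} (countable_singleton 0)
  have hz : (0 : X) ∈ A := hA0 rfl
  have hAadd : ∀ a ∈ A, ∀ b ∈ A, a + b ∈ A := by
    intro a ha b hb
    refine hAG {a, b} (by simp [insert_subset_iff, ha, hb]) (Or.inl (Or.inr ⟨a, by simp, b, by simp, rfl⟩))
  have hAsmul : ∀ (q : ℚ), ∀ a ∈ A, (q : ℝ) • a ∈ A := by
    intro q a ha
    refine hAG {a} (by simpa using ha) (Or.inr (mem_biUnion (show a ∈ ({a} : Finset X) by simp) ⟨q, rfl⟩))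
  have hAx : ∀ a ∈ A, ∀ γ, nf a (x γ) ≠ 0 → x γ ∈ A := by
    intro a ha γ hγ
    refine hAG {a} (by simpa using ha) (Or.inl (Or.inl (Or.inl (mem_biUnion (show a ∈ ({a} : Finset X) by simp)
      ⟨γ, hγ, rfl⟩))))
  have hAwit : ∀ (F : Finset X), (F : Set X) ⊆ A → ∀ d, wit F d ∈ A := by
    intro F hF d
    exact hAG F hF (Or.inl (Or.inl (Or.inr ⟨d, rfl⟩)))
  -- the subspaces
  let Y : Submodule ℝ X :=
    { carrier := closure A
      zero_mem' := subset_closure hz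
      add_mem' := fun ha hb => map_mem_closure₂ continuous_add ha hb hAadd
      smul_mem' := fun c y hy => by
        have hc : c ∈ closure (range ((↑) : ℚ → ℝ)) := by
          rw [Rat.denseRange_cast.closure_range]; exact mem_univ c
        refine map_mem_closure₂ (f := fun (c : ℝ) (y : X) => c • y) continuous_smul hc hy ?_
        rintro _ ⟨q, rfl⟩ a ha
        exact hAsmul q a ha }
  have hYcl : IsClosed (Y : Set X) := isClosed_closure
  have hAY : ∀ a ∈ A, a ∈ Y := fun a ha => subset_closure ha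
  let Z : Submodule ℝ X :=
    { carrier := {z | ∀ a ∈ A, nf a z = 0}
      zero_mem' := fun a _ => map_zero _
      add_mem' := fun {z z'} hz hz' a ha => by rw [map_add, hz a ha, hz' a ha, add_zero]
      smul_mem' := fun c z hz a ha => by rw [map_smul, hz a ha, smul_zero] }
  have hZcl : IsClosed (Z : Set X) := by
    have : (Z : Set X) = ⋂ a ∈ A, {z | nf a z = 0} := by
      ext z; simp [Z]
    rw [this]
    exact isClosed_biInter fun a _ => isClosed_eq (nf a).continuous continuous_const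
  have hYZ : ∀ y ∈ Y, ∀ z ∈ Z, ‖y‖ ≤ ‖y + z‖ := by
    intro y hy z hz
    have h1 : IsClosed {y : X | ‖y‖ ≤ ‖y + z‖} :=
      isClosed_le continuous_norm (by fun_prop)
    refine closure_minimal (s := A) ?_ h1 hy
    intro a ha
    have h2 : ‖a‖ = nf a (a + z) := by rw [map_add, hz a ha, add_zero, hnfa]
    have h3 : nf a (a + z) ≤ ‖nf a‖ * ‖a + z‖ := (le_abs_self _).trans ((nf a).le_opNorm _)
    change ‖a‖ ≤ ‖a + z‖
    rw [h2]
    refine h3.trans ?_
    have := hnf1 a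
    nlinarith [norm_nonneg (a + z)]
  haveI : CompleteSpace Y := hYcl.completeSpace_coe
  haveI : CompleteSpace Z := hZcl.completeSpace_coe
  let T : (Y × Z) →L[ℝ] X := (Y.subtypeL).coprod (Z.subtypeL)
  have hT : ∀ p : Y × Z, T p = (p.1 : X) + (p.2 : X) := fun p => by
    simp [T]
  have hTb : ∀ p : Y × Z, ‖p‖ ≤ (2 : NNReal) * ‖T p‖ := by
    intro p
    rw [hT]
    have h1 := hYZ p.1 p.1.2 p.2 p.2.2
    have h2 : ‖(p.2 : X)‖ ≤ ‖(p.1 : X) + p.2‖ + ‖(p.1 : X)‖ := by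
      have : (p.2 : X) = ((p.1 : X) + p.2) - p.1 := by abel
      calc ‖(p.2 : X)‖ = ‖((p.1 : X) + p.2) - p.1‖ := by rw [← this]
        _ ≤ _ := norm_sub_le _ _
    have h3 : ‖p‖ = max ‖(p.1 : X)‖ ‖(p.2 : X)‖ := rfl
    rw [h3]
    have h4 : ((2 : NNReal) : ℝ) = 2 := by norm_num
    rw [h4]
    exact max_le (by linarith [norm_nonneg ((p.1 : X) + p.2)]) (by linarith)
  have hTanti : AntilipschitzWith 2 T := T.antilipschitz_of_bound hTb
  have hTcl : IsClosed (range T) := hTanti.isClosed_range T.uniformContinuous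
  let Γ₀ : Set Γ := {γ | ∃ a ∈ A, nf a (x γ) ≠ 0}
  have hΓc : Γ₀.Countable := by
    have : Γ₀ ⊆ ⋃ a ∈ A, {γ | nf a (x γ) ≠ 0} := by
      rintro γ ⟨a, ha, h⟩
      exact mem_biUnion ha h
    exact (hAc.biUnion fun a _ => hx.supp (nf a)).mono this
  have hΓY : ∀ γ ∈ Γ₀, x γ ∈ Y := by
    rintro γ ⟨a, ha, h⟩
    exact hAY _ (hAx a ha γ h)
  have hΓZ : ∀ γ, γ ∉ Γ₀ → x γ ∈ Z := by
    intro γ hγ a ha
    by_contra h
    exact hγ ⟨a, ha, h⟩
  have hrange : LinearMap.range (T : (Y × Z) →ₗ[ℝ] X) = ⊤ := by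
    refine hx.top _ (by rw [LinearMap.coe_range]; exact hTcl) (fun γ => ?_)
    by_cases hγ : γ ∈ Γ₀
    · exact ⟨(⟨x γ, hΓY γ hγ⟩, 0), by
        change T _ = _
        rw [hT]; simp⟩
    · exact ⟨(0, ⟨x γ, hΓZ γ hγ⟩), by
        change T _ = _
        rw [hT]; simp⟩
  have hker : LinearMap.ker (T : (Y × Z) →ₗ[ℝ] X) = ⊥ := LinearMap.ker_eq_bot.mpr hTanti.injective
  let e : (Y × Z) ≃L[ℝ] X := ContinuousLinearEquiv.ofBijective T hker hrange
  have he : ∀ p : Y × Z, e p = (p.1 : X) + (p.2 : X) := fun p => hT p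
  let P : X →L[ℝ] X := (Y.subtypeL).comp ((ContinuousLinearMap.fst ℝ Y Z).comp (e.symm : X →L[ℝ] Y × Z))
  have hPY : ∀ y ∈ Y, P y = y := by
    intro y hy
    have h1 : e.symm y = (⟨y, hy⟩, 0) := by
      rw [ContinuousLinearEquiv.symm_apply_eq, he]; simp
    change ((e.symm y).1 : X) = y
    rw [h1]
  have hPZ : ∀ z ∈ Z, P z = 0 := by
    intro z hz
    have h1 : e.symm z = (0, ⟨z, hz⟩) := by
      rw [ContinuousLinearEquiv.symm_apply_eq, he]; simp
    change ((e.symm z).1 : X) = 0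
    rw [h1]; rfl
  have hPmem : ∀ v, P v ∈ Y := fun v => (e.symm v).1.2
  refine ⟨P, Γ₀, hΓc, fun γ hγ => hPY _ (hΓY γ hγ), fun γ hγ => hPZ _ (hΓZ γ hγ), ?_⟩
  intro F f₀ hf₀ δ hδ
  have hM0 : 0 ≤ M := (norm_nonneg _).trans (hM f₀ hf₀)
  -- approximate by points of A
  have happ : ∀ v : X, ∃ a ∈ A, ‖P v - a‖ < δ / (4 * (M + 1)) := by
    intro v
    have h1 : P v ∈ closure A := hPmem v
    rw [Metric.mem_closure_iff] at h1
    obtain ⟨a, ha, h2⟩ := h1 (δ / (4 * (M + 1))) (by positivity)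
    exact ⟨a, ha, by rwa [dist_eq_norm] at h2⟩
  choose ap hapA hap using happ
  let F' : Finset X := F.image ap
  have hF'A : (F' : Set X) ⊆ A := by
    intro a ha
    simp only [F', Finset.coe_image, mem_image] at ha
    obtain ⟨v, -, rfl⟩ := ha
    exact hapA v
  -- rational data
  have hrat : ∀ v : F', ∃ d : ℚ × ℚ, ((d.1 : ℝ) < f₀ v ∧ f₀ v < d.2) ∧ (d.2 : ℝ) - d.1 < δ / 4 := by
    intro v
    obtain ⟨q, hq1, hq2⟩ := exists_rat_btwn (show f₀ v - δ / 8 < f₀ v by linarith)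
    obtain ⟨r, hr1, hr2⟩ := exists_rat_btwn (show f₀ v < f₀ v + δ / 8 by linarith)
    exact ⟨(q, r), ⟨hq2, hr1⟩, by change (r : ℝ) - q < δ / 4; linarith⟩
  choose d hd1 hd2 using hrat
  obtain ⟨hw1, f, hf, g, hg, hfg, hlt⟩ := hwit F' d ⟨f₀, hf₀, hd1⟩
  have hwA : wit F' d ∈ A := hAwit F' hF'A d
  have hsum : ε < (f (wit F' d) - f₀ (wit F' d)) + (f₀ (wit F' d) - g (wit F' d)) := by linarith
  -- closeness
  have hclose : ∀ k ∈ C, (∀ v : F', ((d v).1 : ℝ) < k v ∧ k v < (d v).2) → ∀ v ∈ F, |k (P v) - f₀ (P v)| < δ := by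
    intro k hk hkd v hv
    have hvm : ap v ∈ F' := Finset.mem_image_of_mem _ hv
    have h1 := hkd ⟨ap v, hvm⟩
    have h2 := hd1 ⟨ap v, hvm⟩
    have h3 := hd2 ⟨ap v, hvm⟩
    have h4 : |k (ap v) - f₀ (ap v)| < δ / 4 := by
      rw [abs_lt]
      simp only at h1 h2 h3
      constructor <;> linarith [h1.1, h1.2, h2.1, h2.2]
    have h5 : k (P v) - f₀ (P v) = (k (ap v) - f₀ (ap v)) + (k - f₀) (P v - ap v) := by
      rw [ContinuousLinearMap.sub_apply, map_sub, map_sub]; ring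
    have h6 : |(k - f₀) (P v - ap v)| ≤ δ / 2 := by
      have h7 : ‖(k - f₀) (P v - ap v)‖ ≤ ‖k - f₀‖ * ‖P v - ap v‖ := (k - f₀).le_opNorm _
      have h8 : ‖k - f₀‖ ≤ 2 * M := by
        calc ‖k - f₀‖ ≤ ‖k‖ + ‖f₀‖ := norm_sub_le _ _
          _ ≤ 2 * M := by linarith [hM k hk, hM f₀ hf₀]
      have h9 := hap v
      have h10 : ‖k - f₀‖ * ‖P v - ap v‖ ≤ (2 * M) * (δ / (4 * (M + 1))) :=
        mul_le_mul h8 h9.le (norm_nonneg _) (by positivity)
      have h11 : (2 * M) * (δ / (4 * (M + 1))) ≤ δ / 2 := by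
        rw [mul_div_assoc', div_le_div_iff₀ (by positivity) (by norm_num)]
        nlinarith
      rw [← Real.norm_eq_abs]
      linarith
    rw [h5]
    calc |(k (ap v) - f₀ (ap v)) + (k - f₀) (P v - ap v)|
        ≤ |k (ap v) - f₀ (ap v)| + |(k - f₀) (P v - ap v)| := abs_add_le _ _
      _ < δ := by linarith
  have hPw : P (wit F' d) = wit F' d := hPY _ (hAY _ hwA)
  by_cases hcase : ε / 2 < f (wit F' d) - f₀ (wit F' d)
  · exact ⟨f, hf, hclose f hf (fun v => (hfg v).1), wit F' d, hPw, hw1, hcase⟩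
  · refine ⟨g, hg, hclose g hg (fun v => (hfg v).2), -wit F' d, by rw [map_neg, hPw], by rwa [norm_neg], ?_⟩
    rw [map_neg, map_neg]
    linarith

end Pool.Agent.H345R3.WCG
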