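import Mathlib

/-!
Sums of the `k` largest coordinates on a set of coordinates, and the strict convexity they provide on `c₀`.
-/

open Set Topology Filter

namespace Pool.Agent.H345R3.WCG

section lar

variable {Γ : Type} (S : Set Γ) (k : ℕ)

/-- supremum of the sums of at most `k` absolute values of coordinates in `S` -/
noncomputable def lar (u : Γ → ℝ) : ℝ :=
  sSup ((fun A : Finset Γ => ∑ γ ∈ A, |u γ|) '' {A | (A : Set Γ) ⊆ S ∧ A.card ≤ k})

theorem lar_bdd {u : Γ → ℝ} {R : ℝ} (hu : ∀ γ, |u γ| ≤ R) :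
    BddAbove ((fun A : Finset Γ => ∑ γ ∈ A, |u γ|) '' {A | (A : Set Γ) ⊆ S ∧ A.card ≤ k}) := by
  refine ⟨k * |R|, ?_⟩
  rintro _ ⟨A, ⟨-, hA⟩, rfl⟩
  calc ∑ γ ∈ A, |u γ| ≤ ∑ _γ ∈ A, |R| := Finset.sum_le_sum fun γ _ => (hu γ).trans (le_abs_self R)
    _ = A.card * |R| := by rw [Finset.sum_const, nsmul_eq_mul]
    _ ≤ k * |R| := by gcongr

theorem lar_nonempty (u : Γ → ℝ) :
    ((fun A : Finset Γ => ∑ γ ∈ A, |u γ|) '' {A | (A : Set Γ) ⊆ S ∧ A.card ≤ k}).Nonempty :=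
  ⟨_, ∅, ⟨by simp, by simp⟩, rfl⟩

variable {S k}

theorem le_lar {u : Γ → ℝ} {R : ℝ} (hu : ∀ γ, |u γ| ≤ R) {A : Finset Γ} (hA : (A : Set Γ) ⊆ S)
    (hk : A.card ≤ k) : ∑ γ ∈ A, |u γ| ≤ lar S k u :=
  le_csSup (lar_bdd S k hu) ⟨A, ⟨hA, hk⟩, rfl⟩

theorem lar_le {u : Γ → ℝ} {c : ℝ} (h : ∀ A : Finset Γ, (A : Set Γ) ⊆ S → A.card ≤ k → ∑ γ ∈ A, |u γ| ≤ c) :
    lar S k u ≤ c := by
  refine csSup_le (lar_nonempty S k u) ?_
  rintro _ ⟨A, ⟨h1, h2⟩, rfl⟩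
  exact h A h1 h2

theorem lar_nonneg {u : Γ → ℝ} {R : ℝ} (hu : ∀ γ, |u γ| ≤ R) : 0 ≤ lar S k u := by
  have := le_lar (S := S) (k := k) hu (A := ∅) (by simp) (by simp)
  simpa using this

theorem lar_le_mul {u : Γ → ℝ} {R : ℝ} (hR : 0 ≤ R) (hu : ∀ γ, |u γ| ≤ R) : lar S k u ≤ k * R := by
  refine lar_le fun A _ hA => ?_
  calc ∑ γ ∈ A, |u γ| ≤ ∑ _γ ∈ A, R := Finset.sum_le_sum fun γ _ => hu γ
    _ = A.card * R := by rw [Finset.sum_const, nsmul_eq_mul]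
    _ ≤ k * R := by gcongr

theorem lar_add {u v : Γ → ℝ} {R R' : ℝ} (hu : ∀ γ, |u γ| ≤ R) (hv : ∀ γ, |v γ| ≤ R') :
    lar S k (fun γ => u γ + v γ) ≤ lar S k u + lar S k v := by
  refine lar_le fun A hA hk => ?_
  calc ∑ γ ∈ A, |u γ + v γ| ≤ ∑ γ ∈ A, (|u γ| + |v γ|) := Finset.sum_le_sum fun γ _ => abs_add_le _ _
    _ = ∑ γ ∈ A, |u γ| + ∑ γ ∈ A, |v γ| := Finset.sum_add_distrib
    _ ≤ _ := add_le_add (le_lar hu hA hk) (le_lar hv hA hk)

theorem lar_smul_le {u : Γ → ℝ} {R : ℝ} (hu : ∀ γ, |u γ| ≤ R) (c : ℝ) :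
    lar S k (fun γ => c * u γ) ≤ |c| * lar S k u := by
  refine lar_le fun A hA hk => ?_
  calc ∑ γ ∈ A, |c * u γ| = |c| * ∑ γ ∈ A, |u γ| := by
        rw [Finset.mul_sum]; exact Finset.sum_congr rfl fun γ _ => abs_mul _ _
    _ ≤ _ := mul_le_mul_of_nonneg_left (le_lar hu hA hk) (abs_nonneg c)

theorem lar_smul {u : Γ → ℝ} {R : ℝ} (hu : ∀ γ, |u γ| ≤ R) (c : ℝ) :
    lar S k (fun γ => c * u γ) = |c| * lar S k u := by
  refine le_antisymm (lar_smul_le hu c) ?_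
  by_cases hc : c = 0
  · subst hc
    simp only [abs_zero, zero_mul]
    exact lar_nonneg (R := 0) (by simp)
  have h1 := lar_smul_le (S := S) (k := k) (u := fun γ => c * u γ) (R := |c| * R) (fun γ => by
    rw [abs_mul]; exact mul_le_mul_of_nonneg_left (hu γ) (abs_nonneg c)) c⁻¹
  have h2 : (fun γ => c⁻¹ * (c * u γ)) = u := by
    funext γ; rw [← mul_assoc, inv_mul_cancel₀ hc, one_mul]
  rw [h2, abs_inv] at h1
  have h3 : 0 < |c| := abs_pos.mpr hc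
  calc |c| * lar S k u ≤ |c| * (|c|⁻¹ * lar S k fun γ => c * u γ) := mul_le_mul_of_nonneg_left h1 h3.le
    _ = _ := by rw [← mul_assoc, mul_inv_cancel₀ h3.ne', one_mul]

end lar

section day

variable {Γ : Type} {S : Set Γ}

theorem day_core {u w : Γ → ℝ} {R : ℝ} (hu : ∀ γ, |u γ| ≤ R) 
    (hw : ∀ ε : ℝ, 0 < ε → {γ | ε ≤ |w γ|}.Finite)
    (huw : ∀ k, lar S k u = lar S k w) {γ : Γ} (hγ : γ ∈ S)
    (hB : ∀ γ' ∈ S, |w γ| < |w γ'| → |u γ'| = |w γ'|) : |u γ| ≤ |w γ| := by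
  classical
  by_contra hcon
  push Not at hcon
  obtain ⟨ε, h1, h2⟩ := exists_between hcon
  have hε : 0 < ε := lt_of_le_of_lt (abs_nonneg _) h1
  have hfin : {γ' | γ' ∈ S ∧ ε ≤ |w γ'|}.Finite := (hw ε hε).subset fun γ' h => h.2
  let B : Finset Γ := hfin.toFinset
  have hBmem : ∀ γ', γ' ∈ B ↔ γ' ∈ S ∧ ε ≤ |w γ'| := fun γ' => hfin.mem_toFinset
  have hγB : γ ∉ B := by
    intro h
    have := ((hBmem γ).mp h).2
    linarith
  have hl : ∑ γ' ∈ B, |w γ'| + |u γ| ≤ lar S (B.card + 1) u := by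
    have h3 := le_lar (S := S) (k := B.card + 1) hu (A := insert γ B) (by
      intro a ha
      rw [Finset.coe_insert] at ha
      rcases ha with rfl | ha
      · exact hγ
      · exact ((hBmem a).mp ha).1) (Finset.card_insert_le _ _)
    rw [Finset.sum_insert hγB] at h3
    have h4 : ∑ γ' ∈ B, |u γ'| = ∑ γ' ∈ B, |w γ'| :=
      Finset.sum_congr rfl fun a ha => hB a ((hBmem a).mp ha).1 (lt_of_lt_of_le h1 ((hBmem a).mp ha).2)
    linarith
  have hr : lar S (B.card + 1) w ≤ ∑ γ' ∈ B, |w γ'| + ε := by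
    refine lar_le fun A hA hk => ?_
    have h5 : ∑ a ∈ A, |w a| = ∑ a ∈ A ∩ B, |w a| + ∑ a ∈ A \ B, |w a| :=
      (Finset.sum_inter_add_sum_sdiff A B _).symm
    have h6 : ∑ a ∈ B, |w a| = ∑ a ∈ B ∩ A, |w a| + ∑ a ∈ B \ A, |w a| :=
      (Finset.sum_inter_add_sum_sdiff B A _).symm
    have h7 : ∑ a ∈ A \ B, |w a| ≤ (A \ B).card * ε := by
      rw [← nsmul_eq_mul]
      refine Finset.sum_le_card_nsmul _ _ _ fun a ha => ?_
      rw [Finset.mem_sdiff] at ha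
      by_contra hlt
      push Not at hlt
      exact ha.2 ((hBmem a).mpr ⟨hA ha.1, hlt.le⟩)
    have h8 : (B \ A).card * ε ≤ ∑ a ∈ B \ A, |w a| := by
      rw [← nsmul_eq_mul]
      refine Finset.card_nsmul_le_sum _ _ _ fun a ha => ?_
      rw [Finset.mem_sdiff] at ha
      exact ((hBmem a).mp ha.1).2
    have h9 : (A \ B).card ≤ (B \ A).card + 1 := by
      have e1 := Finset.card_sdiff_add_card_inter A B
      have e2 := Finset.card_sdiff_add_card_inter B A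
      rw [Finset.inter_comm] at e2
      omega
    have h10 : ((A \ B).card : ℝ) ≤ (B \ A).card + 1 := by exact_mod_cast h9
    rw [Finset.inter_comm] at h6
    nlinarith
  rw [huw] at hl
  linarith

theorem day {u v w : Γ → ℝ} {R : ℝ} (hu : ∀ γ, |u γ| ≤ R) (hv : ∀ γ, |v γ| ≤ R)
    (hw : ∀ ε : ℝ, 0 < ε → {γ | ε ≤ |w γ|}.Finite) (huvw : ∀ γ, u γ + v γ = 2 * w γ)
    (huw : ∀ k, lar S k u = lar S k w) (hvw : ∀ k, lar S k v = lar S k w) :
    ∀ γ ∈ S, u γ = v γ := by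
  classical
  -- conclusion at a point from the points with bigger value
  have step : ∀ γ ∈ S, (∀ γ' ∈ S, |w γ| < |w γ'| → u γ' = v γ') → u γ = v γ := by
    intro γ hγ h
    have h1 : ∀ γ' ∈ S, |w γ| < |w γ'| → |u γ'| = |w γ'| := by
      intro γ' hγ' hlt
      have h2 := h γ' hγ' hlt
      have h3 := huvw γ'
      have h4 : u γ' = w γ' := by linarith
      rw [h4]
    have h1' : ∀ γ' ∈ S, |w γ| < |w γ'| → |v γ'| = |w γ'| := by
      intro γ' hγ' hlt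
      have h2 := h γ' hγ' hlt
      have h3 := huvw γ'
      have h4 : v γ' = w γ' := by linarith
      rw [h4]
    have h5 := day_core hu hw huw hγ h1
    have h6 := day_core hv hw hvw hγ h1'
    have h7 := huvw γ
    rcases le_total 0 (w γ) with h8 | h8
    · rw [abs_of_nonneg h8] at h5 h6
      have := (abs_le.mp h5).2
      have := (abs_le.mp h6).2
      linarith
    · rw [abs_of_nonpos h8] at h5 h6
      have := (abs_le.mp h5).1
      have := (abs_le.mp h6).1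
      linarith
  have hne : ∀ n : ℕ, ∀ γ ∈ S, w γ ≠ 0 → {γ' | |w γ| < |w γ'|}.ncard = n → u γ = v γ := by
    intro n
    induction n using Nat.strong_induction_on with
    | _ n ih =>
    intro γ hγ hwγ hn
    refine step γ hγ fun γ' hγ' hlt => ?_
    have hfin : {γ'' | |w γ| < |w γ''|}.Finite :=
      (hw |w γ| (abs_pos.mpr hwγ)).subset fun a ha => le_of_lt (show |w γ| < |w a| from ha)
    have hlt2 : {γ'' | |w γ'| < |w γ''|}.ncard < n := by
      rw [← hn]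
      refine ncard_lt_ncard ?_ hfin
      refine ⟨fun a ha => lt_trans hlt ha, fun hsub => ?_⟩
      have h9 : γ' ∈ {γ'' | |w γ'| < |w γ''|} := hsub (show γ' ∈ {γ'' | |w γ| < |w γ''|} from hlt)
      exact lt_irrefl _ (show |w γ'| < |w γ'| from h9)
    have hw' : w γ' ≠ 0 := by
      intro h0
      rw [h0, abs_zero] at hlt
      exact absurd hlt (not_lt.mpr (abs_nonneg _))
    exact ih _ hlt2 γ' hγ' hw' rfl
  intro γ hγ
  by_cases hwγ : w γ = 0
  · refine step γ hγ fun γ' hγ' hlt => ?_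
    have hw' : w γ' ≠ 0 := by
      intro h0
      rw [h0, abs_zero] at hlt
      exact absurd hlt (not_lt.mpr (abs_nonneg _))
    exact hne _ γ' hγ' hw' rfl
  · exact hne _ γ hγ hwγ rfl

end day

end Pool.Agent.H345R3.WCG
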