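import Mathlib

/-!
Two generic facts on weak* compact sets of functionals: failure of the point of continuity property yields
a convex set all of whose weak* neighbourhoods oscillate, and support functions with unique maximisers are
Gateaux differentiable.
-/

open Set Topology Filter

namespace Pool.Agent.H345R3.WCG

variable {X : Type} [NormedAddCommGroup X] [NormedSpace ℝ X]

/-- the norm of a functional seen in the weak dual -/
noncomputable def nrm (f : WeakDual ℝ X) : ℝ := ‖(WeakDual.toStrongDual f : X →L[ℝ] ℝ)‖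

theorem basic_nhd {U : Set (WeakDual ℝ X)} (hU : IsOpen U) {f : WeakDual ℝ X} (hf : f ∈ U) :
    ∃ F : Finset X, ∃ δ : ℝ, 0 < δ ∧ ∀ g : WeakDual ℝ X, (∀ v ∈ F, |g v - f v| < δ) → g ∈ U := by
  obtain ⟨W, hW, rfl⟩ := isOpen_induced_iff.mp hU
  obtain ⟨I, u, hu, hIu⟩ := isOpen_pi_iff.mp hW _ hf
  have h1 : ∀ i : X, ∃ ε : ℝ, 0 < ε ∧ (i ∈ I → Metric.ball (f i) ε ⊆ u i) := by
    intro i
    by_cases hi : i ∈ I
    · obtain ⟨ε, h2, h3⟩ := Metric.isOpen_iff.mp (hu i hi).1 _ (hu i hi).2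
      exact ⟨ε, h2, fun _ => h3⟩
    · exact ⟨1, one_pos, fun h => absurd h hi⟩
  choose ε hε hε2 using h1
  have h2 : ∃ δ : ℝ, 0 < δ ∧ ∀ i ∈ I, δ ≤ ε i := by
    have h3 : ∀ᶠ δ : ℝ in 𝓝[>] 0, ∀ i ∈ I, δ ≤ ε i := by
      rw [Finset.eventually_all]
      intro i _
      have h5 : ∀ᶠ δ : ℝ in 𝓝[>] 0, δ < ε i :=
        (eventually_lt_nhds (hε i)).filter_mono nhdsWithin_le_nhds
      filter_upwards [h5] with δ h7
      exact h7.le
    obtain ⟨δ, h3, h4⟩ := (h3.and self_mem_nhdsWithin).exists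
    exact ⟨δ, h4, h3⟩
  obtain ⟨δ, hδ, hδ2⟩ := h2
  refine ⟨I, δ, hδ, fun g hg => hIu ?_⟩
  intro i hi
  refine hε2 i hi ?_
  rw [Metric.mem_ball, Real.dist_eq]
  exact lt_of_lt_of_le (hg i hi) (hδ2 i hi)

theorem baire_step (C : Set (WeakDual ℝ X)) (hC : IsCompact C) (hne : C.Nonempty) (hconv : Convex ℝ C)
    (hno : ¬ ∃ z ∈ C, ∀ ε : ℝ, 0 < ε → ∃ U : Set (WeakDual ℝ X), IsOpen U ∧ z ∈ U ∧
      ∀ y ∈ C ∩ U, nrm (y - z) < ε) :
    ∃ ε : ℝ, 0 < ε ∧ ∃ C₁ : Set (WeakDual ℝ X), C₁.Nonempty ∧ Convex ℝ C₁ ∧ IsCompact C₁ ∧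
      ∀ (F : Finset X), ∀ f₀ ∈ C₁, ∀ δ : ℝ, 0 < δ → ∃ f ∈ C₁, ∃ g ∈ C₁,
        (∀ v ∈ F, |f v - f₀ v| < δ ∧ |g v - f₀ v| < δ) ∧ ε < nrm (f - g) := by
  classical
  have hCs : CompactSpace C := isCompact_iff_compactSpace.mp hC
  have hCne : Nonempty C := hne.to_subtype
  let G : ℕ → Set (WeakDual ℝ X) := fun n =>
    ⋃₀ {U | IsOpen U ∧ ∀ f ∈ C ∩ U, ∀ g ∈ C ∩ U, nrm (f - g) ≤ 1 / ((n : ℝ) + 1)}
  have hGo : ∀ n, IsOpen (G n) := fun n => isOpen_sUnion fun U hU => hU.1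
  have hnd : ∃ n, ¬ Dense (Subtype.val ⁻¹' (G n) : Set C) := by
    by_contra hall
    push Not at hall
    have h1 := dense_iInter_of_isOpen_nat (fun n => (hGo n).preimage (continuous_subtype_val (p := (· ∈ C)))) hall
    obtain ⟨z, hz⟩ := h1.nonempty
    apply hno
    refine ⟨z.1, z.2, fun ε hε => ?_⟩
    obtain ⟨n, hn⟩ := exists_nat_one_div_lt hε
    obtain ⟨U, ⟨hUo, hU⟩, hzU⟩ := mem_iInter.mp hz n
    exact ⟨U, hUo, hzU, fun y hy => (hU y hy z.1 ⟨z.2, hzU⟩).trans_lt hn⟩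
  obtain ⟨n, hn⟩ := hnd
  rw [dense_iff_inter_open] at hn
  push Not at hn
  obtain ⟨V', hV'o, ⟨f₁, hf₁⟩, hdisj⟩ := hn
  obtain ⟨V, hVo, rfl⟩ := isOpen_induced_iff.mp hV'o
  obtain ⟨F, δ, hδ, hFδ⟩ := basic_nhd hVo hf₁
  have hdisj' : ∀ f ∈ C, f ∈ V → f ∉ G n := by
    intro f hf hfV hfG
    have : (⟨f, hf⟩ : C) ∈ (∅ : Set C) := by
      rw [← hdisj]; exact ⟨hfV, hfG⟩
    exact this
  let C₁ : Set (WeakDual ℝ X) := {g | g ∈ C ∧ ∀ v ∈ F, |g v - f₁.1 v| ≤ δ / 2}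
  have hcl : IsClosed {g : WeakDual ℝ X | ∀ v ∈ F, |g v - f₁.1 v| ≤ δ / 2} := by
    have : {g : WeakDual ℝ X | ∀ v ∈ F, |g v - f₁.1 v| ≤ δ / 2} =
        ⋂ v ∈ F, {g : WeakDual ℝ X | |g v - f₁.1 v| ≤ δ / 2} := by
      ext g; simp
    rw [this]
    refine isClosed_biInter fun v _ => isClosed_le ?_ continuous_const
    exact ((WeakDual.eval_continuous v).sub continuous_const).abs
  refine ⟨1 / ((n : ℝ) + 1), by positivity, C₁, ⟨f₁.1, f₁.2, fun v _ => by simp; positivity⟩, ?_, ?_, ?_⟩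
  · intro g hg g' hg' a b ha hb hab
    refine ⟨hconv hg.1 hg'.1 ha hb hab, fun v hv => ?_⟩
    have h1 := hg.2 v hv
    have h2 := hg'.2 v hv
    have h3 : (a • g + b • g') v - f₁.1 v = a * (g v - f₁.1 v) + b * (g' v - f₁.1 v) := by
      change a * g v + b * g' v - f₁.1 v = _
      have : f₁.1 v = (a + b) * f₁.1 v := by rw [hab, one_mul]
      linear_combination (-1 : ℝ) * this
    rw [h3]
    calc |a * (g v - f₁.1 v) + b * (g' v - f₁.1 v)| ≤ |a * (g v - f₁.1 v)| + |b * (g' v - f₁.1 v)| := abs_add_le _ _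
      _ = a * |g v - f₁.1 v| + b * |g' v - f₁.1 v| := by rw [abs_mul, abs_mul, abs_of_nonneg ha, abs_of_nonneg hb]
      _ ≤ a * (δ / 2) + b * (δ / 2) := by gcongr
      _ = δ / 2 := by rw [← add_mul, hab, one_mul]
  · exact hC.inter_right hcl
  · intro F' f₀ hf₀ δ' hδ'
    -- a point close to f₀ in the interior
    have h1 : ∀ᶠ t : ℝ in 𝓝[>] 0, ∀ v ∈ F', |t * (f₁.1 v - f₀ v)| < δ' := by
      rw [Finset.eventually_all]
      intro v _
      have h2 : Tendsto (fun t : ℝ => |t * (f₁.1 v - f₀ v)|) (𝓝 0) (𝓝 |0 * (f₁.1 v - f₀ v)|) :=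
        ((continuous_id.mul continuous_const).abs).tendsto 0
      rw [zero_mul, abs_zero] at h2
      exact (h2.eventually_lt_const hδ').filter_mono nhdsWithin_le_nhds
    have h2 : ∀ᶠ t : ℝ in 𝓝[>] 0, t < 1 :=
      (eventually_lt_nhds one_pos).filter_mono nhdsWithin_le_nhds
    obtain ⟨t, ⟨ht1, ht2⟩, ht0⟩ := ((h1.and h2).and self_mem_nhdsWithin).exists
    have ht0' : 0 < t := ht0
    let ft : WeakDual ℝ X := (1 - t) • f₀ + t • f₁.1
    have hft : ∀ v, ft v = (1 - t) * f₀ v + t * f₁.1 v := fun v => rfl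
    have hftC : ft ∈ C := hconv hf₀.1 f₁.2 (by linarith) ht0'.le (by ring)
    let W : Set (WeakDual ℝ X) := {g | (∀ v ∈ F, |g v - f₁.1 v| < δ / 2) ∧ ∀ v ∈ F', |g v - f₀ v| < δ'}
    have hWo : IsOpen W := by
      have : W = (⋂ v ∈ F, {g : WeakDual ℝ X | |g v - f₁.1 v| < δ / 2}) ∩
          ⋂ v ∈ F', {g : WeakDual ℝ X | |g v - f₀ v| < δ'} := by
        ext g; simp [W]
      rw [this]
      refine (isOpen_biInter_finset fun v _ => isOpen_lt ?_ continuous_const).inter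
        (isOpen_biInter_finset fun v _ => isOpen_lt ?_ continuous_const)
      · exact ((WeakDual.eval_continuous v).sub continuous_const).abs
      · exact ((WeakDual.eval_continuous v).sub continuous_const).abs
    have hftW : ft ∈ W := by
      refine ⟨fun v hv => ?_, fun v hv => ?_⟩
      · have h3 : ft v - f₁.1 v = (1 - t) * (f₀ v - f₁.1 v) := by rw [hft]; ring
        rw [h3, abs_mul, abs_of_pos (by linarith)]
        have h4 := hf₀.2 v hv
        nlinarith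
      · have h3 : ft v - f₀ v = t * (f₁.1 v - f₀ v) := by rw [hft]; ring
        rw [h3]
        exact ht1 v hv
    have hWV : W ⊆ V := by
      intro g hg
      refine hFδ g fun v hv => ?_
      have := hg.1 v hv
      linarith
    have hnot : ¬ ∀ f ∈ C ∩ W, ∀ g ∈ C ∩ W, nrm (f - g) ≤ 1 / ((n : ℝ) + 1) := by
      intro h
      exact hdisj' ft hftC (hWV hftW) ⟨W, ⟨hWo, h⟩, hftW⟩
    push Not at hnot
    obtain ⟨f, hf, g, hg, hlt⟩ := hnot
    exact ⟨f, ⟨hf.1, fun v hv => (hf.2.1 v hv).le⟩, g, ⟨hg.1, fun v hv => (hg.2.1 v hv).le⟩,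
      fun v hv => ⟨hf.2.2 v hv, hg.2.2 v hv⟩, hlt⟩

theorem gateaux_of_unique {D : Set (WeakDual ℝ X)} (hD : IsCompact D) (N : X → ℝ)
    (hN : ∀ x, ∃ f ∈ D, f x = N x) (hN2 : ∀ x, ∀ f ∈ D, f x ≤ N x) (x : X)
    (huniq : ∀ f ∈ D, ∀ g ∈ D, f x = N x → g x = N x → f = g) :
    ∃ L : X →L[ℝ] ℝ, ∀ v, HasDerivAt (fun t : ℝ => N (x + t • v)) (L v) 0 := by
  obtain ⟨f₀, hf₀, hf₀x⟩ := hN x
  refine ⟨WeakDual.toStrongDual f₀, fun v => ?_⟩
  have hL : (WeakDual.toStrongDual f₀ : X →L[ℝ] ℝ) v = f₀ v := rfl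
  rw [hL]
  obtain ⟨R, hR⟩ := (hD.image (WeakDual.eval_continuous v)).isBounded.exists_norm_le
  have hR' : ∀ f ∈ D, |f v| ≤ R := fun f hf => hR _ ⟨f, hf, rfl⟩
  have hR0 : 0 ≤ R := (abs_nonneg _).trans (hR' f₀ hf₀)
  have hlin : ∀ (f : WeakDual ℝ X) (t : ℝ), f (x + t • v) = f x + t * f v := by
    intro f t
    rw [map_add, map_smul, smul_eq_mul]
  rw [hasDerivAt_iff_isLittleO, Asymptotics.isLittleO_iff]
  intro η hη
  -- the maximisers at nearby points are close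
  have hcl : IsCompact {f | f ∈ D ∧ η ≤ |f v - f₀ v|} := by
    have h0 : IsClosed {f : WeakDual ℝ X | η ≤ |f v - f₀ v|} :=
      isClosed_le continuous_const ((WeakDual.eval_continuous v).sub continuous_const).abs
    exact hD.inter_right h0
  have hρ : ∃ ρ : ℝ, 0 < ρ ∧ ∀ f ∈ D, η ≤ |f v - f₀ v| → f x ≤ N x - ρ := by
    rcases {f | f ∈ D ∧ η ≤ |f v - f₀ v|}.eq_empty_or_nonempty with he | hne
    · refine ⟨1, one_pos, fun f hf h => ?_⟩
      have : f ∈ {f | f ∈ D ∧ η ≤ |f v - f₀ v|} := ⟨hf, h⟩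
      rw [he] at this
      exact absurd this (notMem_empty _)
    · obtain ⟨g, hg, hgmax⟩ := hcl.exists_isMaxOn hne (WeakDual.eval_continuous x).continuousOn
      refine ⟨N x - g x, ?_, fun f hf h => ?_⟩
      · have h1 := hN2 x g hg.1
        rcases h1.lt_or_eq with h2 | h2
        · linarith
        · exfalso
          have h3 := huniq g hg.1 f₀ hf₀ h2 hf₀x
          have h4 := hg.2
          rw [h3] at h4
          simp at h4
          linarith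
      · have : f x ≤ g x := hgmax ⟨hf, h⟩
        linarith
  obtain ⟨ρ, hρ0, hρ⟩ := hρ
  have h1 : ∀ᶠ t : ℝ in 𝓝 0, |t| * (2 * R) < ρ := by
    have h2 : Tendsto (fun t : ℝ => |t| * (2 * R)) (𝓝 0) (𝓝 (|0| * (2 * R))) :=
      (continuous_abs.mul continuous_const).tendsto 0
    rw [abs_zero, zero_mul] at h2
    exact h2.eventually_lt_const hρ0
  filter_upwards [h1] with t ht
  obtain ⟨f, hf, hfx⟩ := hN (x + t • v)
  have h2 : |f v - f₀ v| < η := by
    by_contra hge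
    push Not at hge
    have h3 := hρ f hf hge
    have h4 := hN2 (x + t • v) f₀ hf₀
    rw [hlin] at hfx h4
    have h5 : |t * f v| ≤ |t| * R := by
      rw [abs_mul]; exact mul_le_mul_of_nonneg_left (hR' f hf) (abs_nonneg t)
    have h6 : |t * f₀ v| ≤ |t| * R := by
      rw [abs_mul]; exact mul_le_mul_of_nonneg_left (hR' f₀ hf₀) (abs_nonneg t)
    have h7 := abs_le.mp h5
    have h8 := abs_le.mp h6
    linarith [h7.2, h8.1]
  have h3 := hN2 (x + t • v) f₀ hf₀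
  have h4 := hN2 x f hf
  rw [hlin] at hfx h3
  have h5 : N (x + (0 : ℝ) • v) = N x := by rw [zero_smul, add_zero]
  rw [h5, sub_zero, smul_eq_mul, Real.norm_eq_abs, Real.norm_eq_abs]
  have h6 : 0 ≤ N (x + t • v) - N x - t * f₀ v := by linarith
  have h7 : N (x + t • v) - N x - t * f₀ v ≤ t * (f v - f₀ v) := by linarith
  rw [abs_of_nonneg h6]
  calc N (x + t • v) - N x - t * f₀ v ≤ t * (f v - f₀ v) := h7
    _ ≤ |t * (f v - f₀ v)| := le_abs_self _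
    _ = |f v - f₀ v| * |t| := by rw [abs_mul, mul_comm]
    _ ≤ η * |t| := mul_le_mul_of_nonneg_right h2.le (abs_nonneg t)

end Pool.Agent.H345R3.WCG
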