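import Mathlib
import Pool.Agent.H345R3.WC
import Pool.Agent.H345R3.WD
import Pool.Agent.H345R3.WE

/-!
Seminorms on the dual and the quadratic functional `Φ`.
-/

open Set Topology Filter

namespace Pool.Agent.H345R3.WCG

variable {X : Type} [NormedAddCommGroup X] [NormedSpace ℝ X]

theorem nrm_nonneg (f : WeakDual ℝ X) : 0 ≤ nrm f := norm_nonneg _

theorem nrm_add (f g : WeakDual ℝ X) : nrm (f + g) ≤ nrm f + nrm g := by
  unfold nrm
  rw [map_add]
  exact norm_add_le _ _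

theorem nrm_smul (c : ℝ) (f : WeakDual ℝ X) : nrm (c • f) = |c| * nrm f := by
  unfold nrm
  rw [map_smul]
  exact norm_smul _ _

theorem nrm_neg (f : WeakDual ℝ X) : nrm (-f) = nrm f := by
  unfold nrm
  rw [map_neg]
  exact norm_neg _

theorem abs_le_nrm (f : WeakDual ℝ X) (v : X) : |f v| ≤ nrm f * ‖v‖ :=
  (WeakDual.toStrongDual f : X →L[ℝ] ℝ).le_opNorm v

theorem nrm_le {f : WeakDual ℝ X} {c : ℝ} (hc : 0 ≤ c) (h : ∀ v, |f v| ≤ c * ‖v‖) : nrm f ≤ c :=
  ContinuousLinearMap.opNorm_le_bound _ hc h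

/-- weak* lower semicontinuous seminorms dominated by the norm -/
structure SN (p : WeakDual ℝ X → ℝ) : Prop where
  add : ∀ f g, p (f + g) ≤ p f + p g
  smul : ∀ (c : ℝ) f, p (c • f) = |c| * p f
  le : ∀ f, p f ≤ nrm f
  lsc : LowerSemicontinuous p

theorem SN.nonneg {p : WeakDual ℝ X → ℝ} (hp : SN p) (f : WeakDual ℝ X) : 0 ≤ p f := by
  have h1 := hp.add f ((-1 : ℝ) • f)
  have h2 := hp.smul (-1) f
  have h3 := hp.smul 0 f
  rw [abs_neg, abs_one, one_mul] at h2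
  rw [zero_smul, abs_zero, zero_mul] at h3
  have h4 : f + (-1 : ℝ) • f = 0 := by rw [neg_one_smul, add_neg_cancel]
  rw [h4, h3, h2] at h1
  linarith

theorem lsc_sq {p : WeakDual ℝ X → ℝ} (hp : SN p) : LowerSemicontinuous fun f => (p f) ^ 2 := by
  rw [lowerSemicontinuous_iff_isClosed_preimage]
  intro y
  by_cases hy : 0 ≤ y
  · have h1 := lowerSemicontinuous_iff_isClosed_preimage.mp hp.lsc (Real.sqrt y)
    have h2 : (fun f => (p f) ^ 2) ⁻¹' Iic y = p ⁻¹' Iic (Real.sqrt y) := by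
      ext f
      simp only [mem_preimage, mem_Iic]
      rw [Real.le_sqrt (hp.nonneg f) hy]
    rw [h2]
    exact h1
  · have h2 : (fun f => (p f) ^ 2) ⁻¹' Iic y = ∅ := by
      ext f
      simp only [mem_preimage, mem_Iic, mem_empty_iff_false, iff_false]
      intro h
      exact hy ((sq_nonneg _).trans h)
    rw [h2]
    exact isClosed_empty

theorem lsc_const_mul {T : WeakDual ℝ X → ℝ} (hT : LowerSemicontinuous T) {c : ℝ} (hc : 0 < c) :
    LowerSemicontinuous fun f => c * T f := by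
  rw [lowerSemicontinuous_iff_isClosed_preimage]
  intro y
  have h1 := lowerSemicontinuous_iff_isClosed_preimage.mp hT (y / c)
  have h2 : (fun f => c * T f) ⁻¹' Iic y = T ⁻¹' Iic (y / c) := by
    ext f
    simp only [mem_preimage, mem_Iic]
    rw [le_div_iff₀ hc, mul_comm]
  rw [h2]
  exact h1

theorem sn_lar {Γ : Type} {x : Γ → X} (hx : Fam x) (S : Set Γ) (k : ℕ) :
    SN (fun f : WeakDual ℝ X => lar S k (fun γ => f (x γ)) / ((k : ℝ) + 1)) := by
  have hb : ∀ (f : WeakDual ℝ X) γ, |f (x γ)| ≤ nrm f := fun f γ =>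
    (abs_le_nrm f (x γ)).trans (by nlinarith [hx.le_one γ, nrm_nonneg f])
  have hk : (0 : ℝ) < (k : ℝ) + 1 := by positivity
  refine ⟨fun f g => ?_, fun c f => ?_, fun f => ?_, ?_⟩
  · rw [← add_div]
    have h1 : lar S k (fun γ => (f + g) (x γ)) ≤ lar S k (fun γ => f (x γ)) + lar S k (fun γ => g (x γ)) :=
      lar_add (hb f) (hb g)
    exact div_le_div_of_nonneg_right h1 hk.le
  · have h1 : lar S k (fun γ => (c • f) (x γ)) = |c| * lar S k (fun γ => f (x γ)) := lar_smul (hb f) c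
    change lar S k (fun γ => (c • f) (x γ)) / ((k : ℝ) + 1) = |c| * (lar S k (fun γ => f (x γ)) / ((k : ℝ) + 1))
    rw [h1, mul_div_assoc]
  · have h1 : lar S k (fun γ => f (x γ)) ≤ k * nrm f := lar_le_mul (nrm_nonneg f) (hb f)
    change lar S k (fun γ => f (x γ)) / ((k : ℝ) + 1) ≤ nrm f
    rw [div_le_iff₀ hk]
    nlinarith [nrm_nonneg f]
  · rw [lowerSemicontinuous_iff_isClosed_preimage]
    intro y
    have h2 : (fun f : WeakDual ℝ X => lar S k (fun γ => f (x γ)) / ((k : ℝ) + 1)) ⁻¹' Iic y =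
        ⋂ A ∈ {A : Finset Γ | (A : Set Γ) ⊆ S ∧ A.card ≤ k},
          {f : WeakDual ℝ X | ∑ γ ∈ A, |f (x γ)| ≤ y * ((k : ℝ) + 1)} := by
      ext f
      simp only [mem_preimage, mem_Iic, mem_iInter, mem_ofPred_eq]
      rw [div_le_iff₀ hk]
      constructor
      · intro h A hA
        exact (le_lar (hb f) hA.1 hA.2).trans h
      · intro h
        exact lar_le fun A h1 h2 => h A ⟨h1, h2⟩
    rw [h2]
    refine isClosed_biInter fun A _ => isClosed_le ?_ continuous_const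
    exact continuous_finsetSum _ fun γ _ => (WeakDual.eval_continuous (x γ)).abs

section Phi

variable (p : WeakDual ℝ X → ℝ) (v : ℕ → X) (q : ℕ → WeakDual ℝ X → ℝ)

/-- the terms -/
noncomputable def T (k : ℕ) (f : WeakDual ℝ X) : ℝ := (f (v k)) ^ 2 + (q k f) ^ 2

noncomputable def Phi (f : WeakDual ℝ X) : ℝ := (p f) ^ 2 + ∑' k, (1 / 2 : ℝ) ^ (k + 1) * T v q k f

variable {p v q}

theorem T_nonneg (k : ℕ) (f : WeakDual ℝ X) : 0 ≤ T v q k f := by unfold T; positivity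

theorem T_le (hv : ∀ k, ‖v k‖ ≤ 1) (hq : ∀ k, SN (q k)) (k : ℕ) (f : WeakDual ℝ X) :
    T v q k f ≤ 2 * nrm f ^ 2 := by
  unfold T
  have h1 : |f (v k)| ≤ nrm f := (abs_le_nrm f (v k)).trans (by nlinarith [hv k, nrm_nonneg f])
  have h2 := (hq k).le f
  have h3 := (hq k).nonneg f
  have h4 : (f (v k)) ^ 2 ≤ nrm f ^ 2 := by
    rw [← sq_abs (f (v k))]
    exact pow_le_pow_left₀ (abs_nonneg _) h1 2
  have h5 : (q k f) ^ 2 ≤ nrm f ^ 2 := pow_le_pow_left₀ h3 h2 2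
  linarith

theorem summable_half : Summable fun k : ℕ => (1 / 2 : ℝ) ^ (k + 1) := by
  have h := (summable_nat_add_iff 1).mpr (summable_geometric_of_lt_one (by norm_num : (0:ℝ) ≤ 1 / 2) (by norm_num))
  exact h

theorem tsum_half : ∑' k : ℕ, (1 / 2 : ℝ) ^ (k + 1) = 1 := by
  have h1 : ∀ k : ℕ, (1 / 2 : ℝ) ^ (k + 1) = (1 / 2) * (1 / 2 : ℝ) ^ k := fun k => by rw [pow_succ]; ring
  simp_rw [h1]
  rw [tsum_mul_left, tsum_geometric_of_lt_one (by norm_num) (by norm_num)]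
  norm_num

theorem summable_T (hv : ∀ k, ‖v k‖ ≤ 1) (hq : ∀ k, SN (q k)) (f : WeakDual ℝ X) :
    Summable fun k => (1 / 2 : ℝ) ^ (k + 1) * T v q k f := by
  refine Summable.of_nonneg_of_le (fun k => mul_nonneg (by positivity) (T_nonneg k f)) (fun k => ?_)
    (summable_half.mul_right (2 * nrm f ^ 2))
  exact mul_le_mul_of_nonneg_left (T_le hv hq k f) (by positivity)

theorem Phi_smul (hp : SN p) (hq : ∀ k, SN (q k)) (c : ℝ) (f : WeakDual ℝ X) :
    Phi p v q (c • f) = c ^ 2 * Phi p v q f := by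
  unfold Phi
  have h1 : ∀ k, T v q k (c • f) = c ^ 2 * T v q k f := by
    intro k
    unfold T
    rw [(hq k).smul, mul_pow, sq_abs]
    have : (c • f) (v k) = c * f (v k) := rfl
    rw [this]; ring
  simp_rw [h1]
  rw [hp.smul, mul_pow, sq_abs, mul_add, ← tsum_mul_left]
  congr 1
  refine tsum_congr fun k => ?_
  ring

theorem Phi_le (hp : SN p) (hv : ∀ k, ‖v k‖ ≤ 1) (hq : ∀ k, SN (q k)) (f : WeakDual ℝ X) :
    Phi p v q f ≤ 3 * nrm f ^ 2 := by
  unfold Phi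
  have h1 : (p f) ^ 2 ≤ nrm f ^ 2 := pow_le_pow_left₀ (hp.nonneg f) (hp.le f) 2
  have h2 : ∑' k, (1 / 2 : ℝ) ^ (k + 1) * T v q k f ≤ ∑' k, (1 / 2 : ℝ) ^ (k + 1) * (2 * nrm f ^ 2) :=
    (summable_T hv hq f).tsum_le_tsum (fun k => mul_le_mul_of_nonneg_left (T_le hv hq k f) (by positivity))
      (summable_half.mul_right _)
  rw [tsum_mul_right, tsum_half] at h2
  linarith

theorem Phi_ge (f : WeakDual ℝ X) : (p f) ^ 2 ≤ Phi p v q f := by
  unfold Phi
  have h1 : 0 ≤ ∑' k, (1 / 2 : ℝ) ^ (k + 1) * T v q k f :=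
    tsum_nonneg fun k => mul_nonneg (by positivity) (T_nonneg k f)
  linarith

theorem Phi_mid (hp : SN p) (hv : ∀ k, ‖v k‖ ≤ 1) (hq : ∀ k, SN (q k)) {f g : WeakDual ℝ X}
    (hf : Phi p v q f ≤ 1) (hg : Phi p v q g ≤ 1) (hm : 1 ≤ Phi p v q ((1 / 2 : ℝ) • (f + g))) :
    ∀ k, f (v k) = g (v k) ∧ q k f = q k ((1 / 2 : ℝ) • (f + g)) ∧ q k g = q k ((1 / 2 : ℝ) • (f + g)) := by
  set m : WeakDual ℝ X := (1 / 2 : ℝ) • (f + g) with hmdef
  have hmle : ∀ {r : WeakDual ℝ X → ℝ}, SN r → r m ≤ (r f + r g) / 2 := by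
    intro r hr
    rw [hmdef, hr.smul, abs_of_pos (by norm_num : (0:ℝ) < 1 / 2)]
    have := hr.add f g
    linarith
  have hsq : ∀ {r : WeakDual ℝ X → ℝ}, SN r → (r m) ^ 2 ≤ ((r f + r g) / 2) ^ 2 := by
    intro r hr
    exact pow_le_pow_left₀ (hr.nonneg m) (hmle hr) 2
  have hmv : ∀ k, m (v k) = (f (v k) + g (v k)) / 2 := by
    intro k
    have : m (v k) = (1 / 2 : ℝ) * (f (v k) + g (v k)) := rfl
    rw [this]; ring
  have hsum := (((summable_T hv hq f).hasSum.add (summable_T hv hq g).hasSum).mul_left (1 / 2)).sub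
    (summable_T hv hq m).hasSum
  have hterm : ∀ k, (1 / 2 : ℝ) * ((1 / 2 : ℝ) ^ (k + 1) * T v q k f + (1 / 2 : ℝ) ^ (k + 1) * T v q k g) -
      (1 / 2 : ℝ) ^ (k + 1) * T v q k m = (1 / 2 : ℝ) ^ (k + 1) *
        ((f (v k) - g (v k)) ^ 2 / 4 + (q k f - q k g) ^ 2 / 4 + (((q k f + q k g) / 2) ^ 2 - (q k m) ^ 2)) := by
    intro k
    unfold T
    rw [hmv]; ring
  have hnn : ∀ k, 0 ≤ (1 / 2 : ℝ) ^ (k + 1) *
        ((f (v k) - g (v k)) ^ 2 / 4 + (q k f - q k g) ^ 2 / 4 + (((q k f + q k g) / 2) ^ 2 - (q k m) ^ 2)) := by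
    intro k
    have h1 := hsq (hq k)
    refine mul_nonneg (by positivity) ?_
    nlinarith [sq_nonneg (f (v k) - g (v k)), sq_nonneg (q k f - q k g)]
  have hle : (1 / 2 : ℝ) * (∑' k, (1 / 2 : ℝ) ^ (k + 1) * T v q k f + ∑' k, (1 / 2 : ℝ) ^ (k + 1) * T v q k g) -
      ∑' k, (1 / 2 : ℝ) ^ (k + 1) * T v q k m ≤ 0 := by
    unfold Phi at hf hg hm
    have h1 := hsq hp
    nlinarith [sq_nonneg (p f - p g)]
  simp only [hterm] at hsum
  have hge := hsum.nonneg hnn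
  have heq := le_antisymm hle hge
  rw [heq] at hsum
  have hz := (hasSum_zero_iff_of_nonneg hnn).mp hsum
  intro k
  have h1 := congrFun hz k
  have h2 : (f (v k) - g (v k)) ^ 2 / 4 + (q k f - q k g) ^ 2 / 4 + (((q k f + q k g) / 2) ^ 2 - (q k m) ^ 2) = 0 := by
    have h3 : (1 / 2 : ℝ) ^ (k + 1) ≠ 0 := by positivity
    exact (mul_eq_zero.mp h1).resolve_left h3
  have h3 := hsq (hq k)
  have h4 : (f (v k) - g (v k)) ^ 2 = 0 := by nlinarith [sq_nonneg (f (v k) - g (v k)), sq_nonneg (q k f - q k g)]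
  have h5 : (q k f - q k g) ^ 2 = 0 := by nlinarith [sq_nonneg (f (v k) - g (v k)), sq_nonneg (q k f - q k g)]
  have h6 : q k f = q k g := by
    have := pow_eq_zero_iff (two_ne_zero) |>.mp h5
    linarith
  have h7 : (q k m) ^ 2 = (q k f) ^ 2 := by
    rw [h4, h5, ← h6] at h2
    nlinarith
  have h8 : q k m = q k f := by
    have := (pow_left_inj₀ ((hq k).nonneg m) ((hq k).nonneg f) two_ne_zero).mp h7
    exact this
  refine ⟨?_, h8.symm, by rw [← h6]; exact h8.symm⟩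
  have := pow_eq_zero_iff (two_ne_zero) |>.mp h4
  linarith

theorem Phi_closed (hp : SN p) (hv : ∀ k, ‖v k‖ ≤ 1) (hq : ∀ k, SN (q k)) :
    IsClosed {f : WeakDual ℝ X | Phi p v q f ≤ 1} := by
  have h1 : {f : WeakDual ℝ X | Phi p v q f ≤ 1} =
      ⋂ n : ℕ, {f : WeakDual ℝ X | (p f) ^ 2 + ∑ k ∈ Finset.range n, (1 / 2 : ℝ) ^ (k + 1) * T v q k f ≤ 1} := by
    ext f
    simp only [mem_ofPred_eq, mem_iInter]
    unfold Phi
    constructor
    · intro h n
      have h2 := (summable_T hv hq f).sum_le_tsum (Finset.range n)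
        (fun k _ => mul_nonneg (by positivity) (T_nonneg k f))
      linarith
    · intro h
      have h2 : ∑' k, (1 / 2 : ℝ) ^ (k + 1) * T v q k f ≤ 1 - (p f) ^ 2 := by
        refine Real.tsum_le_of_sum_range_le (fun k => mul_nonneg (by positivity) (T_nonneg k f)) fun n => ?_
        linarith [h n]
      linarith
  rw [h1]
  refine isClosed_iInter fun n => ?_
  have hTl : ∀ k, LowerSemicontinuous (T v q k : WeakDual ℝ X → ℝ) := by
    intro k
    have h2 : Continuous fun f : WeakDual ℝ X => (f (v k)) ^ 2 := (WeakDual.eval_continuous (v k)).pow 2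
    exact h2.lowerSemicontinuous.add (lsc_sq (hq k))
  have h3 : LowerSemicontinuous fun f : WeakDual ℝ X =>
      (p f) ^ 2 + ∑ k ∈ Finset.range n, (1 / 2 : ℝ) ^ (k + 1) * T v q k f :=
    (lsc_sq hp).add (lowerSemicontinuous_sum fun k _ => lsc_const_mul (hTl k) (by positivity))
  exact lowerSemicontinuous_iff_isClosed_preimage.mp h3 1

end Phi

end Pool.Agent.H345R3.WCG
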