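import Mathlib
import Pool.Agent.H345R3.WF

/-!
The gauge of the weak* compact set `(C₁ - C₁) ∘ P + ball`.
-/

open Set Topology Filter Pointwise

namespace Pool.Agent.H345R3.WCG

variable {X : Type} [NormedAddCommGroup X] [NormedSpace ℝ X]

/-- a weak* compact set of functionals on a Banach space is bounded -/
theorem bdd_of_compact [CompleteSpace X] {C : Set (WeakDual ℝ X)} (hC : IsCompact C) :
    ∃ M : ℝ, 0 ≤ M ∧ ∀ f ∈ C, nrm f ≤ M := by
  have h1 : ∀ v : X, ∃ K, ∀ f : C, ‖(WeakDual.toStrongDual f.1 : X →L[ℝ] ℝ) v‖ ≤ K := by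
    intro v
    obtain ⟨K, hK⟩ := (hC.image (WeakDual.eval_continuous v)).isBounded.exists_norm_le
    exact ⟨K, fun f => hK _ ⟨f.1, f.2, rfl⟩⟩
  obtain ⟨M, hM⟩ := banach_steinhaus h1
  exact ⟨max M 0, le_max_right _ _, fun f hf => (hM ⟨f, hf⟩).trans (le_max_left _ _)⟩

noncomputable def cmp (P : X →L[ℝ] X) (g : WeakDual ℝ X) : WeakDual ℝ X :=
  StrongDual.toWeakDual ((WeakDual.toStrongDual g : X →L[ℝ] ℝ).comp P)

theorem cmp_apply (P : X →L[ℝ] X) (g : WeakDual ℝ X) (v : X) : cmp P g v = g (P v) := rfl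

theorem nrm_cmp (P : X →L[ℝ] X) (g : WeakDual ℝ X) : nrm (cmp P g) ≤ nrm g * ‖P‖ :=
  ContinuousLinearMap.opNorm_comp_le _ _

def D0 (P : X →L[ℝ] X) (C₁ : Set (WeakDual ℝ X)) : Set (WeakDual ℝ X) :=
  {f | ∃ g₁ ∈ C₁, ∃ g₂ ∈ C₁, ∃ u, nrm u ≤ 1 ∧ f = cmp P (g₁ - g₂) + u}

variable {P : X →L[ℝ] X} {C₁ : Set (WeakDual ℝ X)}

theorem D0_compact (hC : IsCompact C₁) : IsCompact (D0 P C₁) := by
  have hB : IsCompact {u : WeakDual ℝ X | nrm u ≤ 1} := by
    have h1 := WeakDual.isCompact_closedBall (𝕜 := ℝ) (E := X) (0 : StrongDual ℝ X) 1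
    have h2 : (⇑WeakDual.toStrongDual ⁻¹' Metric.closedBall (0 : StrongDual ℝ X) 1) =
        {u : WeakDual ℝ X | nrm u ≤ 1} := by
      ext u
      rw [mem_preimage, mem_closedBall_zero_iff]
      rfl
    rwa [h2] at h1
  have h3 : D0 P C₁ = (fun t : WeakDual ℝ X × WeakDual ℝ X × WeakDual ℝ X =>
      cmp P (t.1 - t.2.1) + t.2.2) '' (C₁ ×ˢ (C₁ ×ˢ {u : WeakDual ℝ X | nrm u ≤ 1})) := by
    ext f
    constructor
    · rintro ⟨g₁, h1, g₂, h2, u, hu, rfl⟩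
      exact ⟨(g₁, g₂, u), ⟨h1, h2, hu⟩, rfl⟩
    · rintro ⟨⟨g₁, g₂, u⟩, ⟨h1, h2, hu⟩, rfl⟩
      exact ⟨g₁, h1, g₂, h2, u, hu, rfl⟩
  rw [h3]
  refine (hC.prod (hC.prod hB)).image ?_
  refine WeakDual.continuous_of_continuous_eval fun y => ?_
  have h4 : ∀ t : WeakDual ℝ X × WeakDual ℝ X × WeakDual ℝ X,
      (cmp P (t.1 - t.2.1) + t.2.2) y = t.1 (P y) - t.2.1 (P y) + t.2.2 y := fun t => rfl
  simp_rw [h4]
  exact (((WeakDual.eval_continuous (P y)).comp continuous_fst).sub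
    ((WeakDual.eval_continuous (P y)).comp (continuous_fst.comp continuous_snd))).add
    ((WeakDual.eval_continuous y).comp (continuous_snd.comp continuous_snd))

theorem D0_convex (hC : Convex ℝ C₁) : Convex ℝ (D0 P C₁) := by
  rintro _ ⟨g₁, h1, g₂, h2, u, hu, rfl⟩ _ ⟨g₁', h1', g₂', h2', u', hu', rfl⟩ a b ha hb hab
  refine ⟨a • g₁ + b • g₁', hC h1 h1' ha hb hab, a • g₂ + b • g₂', hC h2 h2' ha hb hab,
    a • u + b • u', ?_, ?_⟩
  · refine (nrm_add _ _).trans ?_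
    rw [nrm_smul, nrm_smul, abs_of_nonneg ha, abs_of_nonneg hb]
    nlinarith
  · refine DFunLike.ext _ _ fun y => ?_
    change a * ((g₁ (P y) - g₂ (P y)) + u y) + b * ((g₁' (P y) - g₂' (P y)) + u' y) =
      ((a * g₁ (P y) + b * g₁' (P y)) - (a * g₂ (P y) + b * g₂' (P y))) + (a * u y + b * u' y)
    ring

theorem D0_symm : ∀ f ∈ D0 P C₁, -f ∈ D0 P C₁ := by
  rintro _ ⟨g₁, h1, g₂, h2, u, hu, rfl⟩
  refine ⟨g₂, h2, g₁, h1, -u, by rwa [nrm_neg], ?_⟩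
  refine DFunLike.ext _ _ fun y => ?_
  change -((g₁ (P y) - g₂ (P y)) + u y) = (g₂ (P y) - g₁ (P y)) + -(u y)
  ring

theorem D0_ball (hne : C₁.Nonempty) {u : WeakDual ℝ X} (hu : nrm u ≤ 1) : u ∈ D0 P C₁ := by
  obtain ⟨g, hg⟩ := hne
  refine ⟨g, hg, g, hg, u, hu, ?_⟩
  refine DFunLike.ext _ _ fun y => ?_
  change u y = (g (P y) - g (P y)) + u y
  ring

theorem D0_zero (hne : C₁.Nonempty) : (0 : WeakDual ℝ X) ∈ D0 P C₁ := by
  refine D0_ball hne ?_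
  unfold nrm
  rw [map_zero, norm_zero]
  exact zero_le_one

theorem D0_shrink (hne : C₁.Nonempty) (hC : Convex ℝ C₁) {d : WeakDual ℝ X} (hd : d ∈ D0 P C₁) {t : ℝ}
    (h0 : 0 ≤ t) (h1 : t ≤ 1) : t • d ∈ D0 P C₁ := by
  have := D0_convex (P := P) hC hd (D0_zero (P := P) hne) h0 (show 0 ≤ 1 - t by linarith) (by ring)
  rwa [smul_zero, add_zero] at this

theorem D0_absorbent (hne : C₁.Nonempty) : Absorbent ℝ (D0 P C₁) := by
  have h1 : (D0 P C₁ : Set (X →L[ℝ] ℝ)) ∈ 𝓝 (0 : X →L[ℝ] ℝ) := by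
    refine Filter.mem_of_superset (Metric.closedBall_mem_nhds (0 : X →L[ℝ] ℝ) one_pos) ?_
    intro u hu
    rw [mem_closedBall_zero_iff] at hu
    exact D0_ball hne hu
  exact absorbent_nhds_zero (𝕜 := ℝ) (E := X →L[ℝ] ℝ) h1

theorem gauge_mem [CompleteSpace X] (hne : C₁.Nonempty) (hC : Convex ℝ C₁) (hcomp : IsCompact C₁) {f : WeakDual ℝ X} {m : ℝ}
    (hm : 0 < m) (h : gauge (D0 P C₁) f ≤ m) : ∃ d ∈ D0 P C₁, f = m • d := by
  have h1 : ∀ n : ℕ, (m + 1 / ((n : ℝ) + 1))⁻¹ • f ∈ D0 P C₁ := by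
    intro n
    have h2 : (0:ℝ) < 1 / ((n : ℝ) + 1) := by positivity
    obtain ⟨b, hb0, hb1, d, hd, hfd⟩ := exists_lt_of_gauge_lt (D0_absorbent (P := P) hne)
      (show gauge (D0 P C₁) f < m + 1 / ((n : ℝ) + 1) by linarith)
    simp only at hfd
    rw [← hfd, smul_smul]
    refine D0_shrink hne hC hd (by positivity) ?_
    rw [inv_mul_le_iff₀ (by positivity)]
    linarith
  refine ⟨m⁻¹ • f, ?_, by rw [smul_smul, mul_inv_cancel₀ hm.ne', one_smul]⟩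
  have h3 : Tendsto (fun n : ℕ => (m + 1 / ((n : ℝ) + 1))⁻¹ • f) atTop (𝓝 (m⁻¹ • f)) := by
    refine Tendsto.smul_const ?_ f
    have h4 : Tendsto (fun n : ℕ => m + 1 / ((n : ℝ) + 1)) atTop (𝓝 (m + 0)) :=
      tendsto_const_nhds.add tendsto_one_div_add_atTop_nhds_zero_nat
    rw [add_zero] at h4
    exact h4.inv₀ hm.ne'
  exact (D0_compact hcomp).isClosed.mem_of_tendsto h3 (Eventually.of_forall h1)

theorem gauge_smul_abs (c : ℝ) (f : WeakDual ℝ X) :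
    gauge (D0 P C₁) (c • f) = |c| * gauge (D0 P C₁) f := by
  rcases le_total 0 c with hc | hc
  · rw [gauge_smul_of_nonneg hc, abs_of_nonneg hc, smul_eq_mul]
  · have h1 : c • f = -((-c) • f) := by rw [neg_smul, neg_neg]
    rw [h1, gauge_neg D0_symm, gauge_smul_of_nonneg (by linarith : 0 ≤ -c), abs_of_nonpos hc, smul_eq_mul]

theorem gauge_le_nrm (hne : C₁.Nonempty) (f : WeakDual ℝ X) : gauge (D0 P C₁) f ≤ nrm f := by
  by_cases hf : nrm f = 0
  · have h1 : f = 0 := by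
      refine DFunLike.ext _ _ fun y => ?_
      have := abs_le_nrm f y
      rw [hf, zero_mul] at this
      exact abs_nonpos_iff.mp this
    rw [h1, gauge_zero]
    exact nrm_nonneg _
  · have h0 : 0 < nrm f := lt_of_le_of_ne (nrm_nonneg f) (Ne.symm hf)
    refine gauge_le_of_mem (nrm_nonneg f) ?_
    refine ⟨(nrm f)⁻¹ • f, D0_ball hne ?_, ?_⟩
    · rw [nrm_smul, abs_of_pos (by positivity), inv_mul_cancel₀ hf]
    · change nrm f • (nrm f)⁻¹ • f = f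
      rw [smul_smul, mul_inv_cancel₀ hf, one_smul]

theorem sn_gauge [CompleteSpace X] (hne : C₁.Nonempty) (hC : Convex ℝ C₁) (hcomp : IsCompact C₁) :
    SN (gauge (D0 P C₁)) := by
  refine ⟨fun f g => gauge_add_le (D0_convex hC) (D0_absorbent hne) f g, gauge_smul_abs, gauge_le_nrm hne, ?_⟩
  intro f y hy
  by_cases hy0 : y < 0
  · exact Eventually.of_forall fun g => lt_of_lt_of_le hy0 (gauge_nonneg g)
  push Not at hy0
  obtain ⟨m, hm1, hm2⟩ := exists_between hy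
  have hm0 : 0 < m := lt_of_le_of_lt hy0 hm1
  have hcl : IsClosed ((fun d : WeakDual ℝ X => m • d) '' (D0 P C₁)) :=
    ((D0_compact hcomp).image (continuous_const_smul m)).isClosed
  have hf : f ∉ (fun d : WeakDual ℝ X => m • d) '' (D0 P C₁) := by
    intro hmem
    have := gauge_le_of_mem hm0.le (show f ∈ m • D0 P C₁ from hmem)
    linarith
  filter_upwards [hcl.isOpen_compl.mem_nhds hf] with g hg
  by_contra hcon
  push Not at hcon
  obtain ⟨d, hd, h⟩ := gauge_mem hne hC hcomp hm0 (hcon.trans hm1.le)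
  exact hg ⟨d, hd, h.symm⟩

theorem nrm_le_gauge [CompleteSpace X] (hne : C₁.Nonempty) (hC : Convex ℝ C₁) (hcomp : IsCompact C₁) :
    ∃ R : ℝ, 0 < R ∧ ∀ f, nrm f ≤ R * gauge (D0 P C₁) f := by
  obtain ⟨M, hM0, hM⟩ := bdd_of_compact (D0_compact (P := P) hcomp)
  refine ⟨M + 1, by linarith, fun f => ?_⟩
  refine le_of_forall_pos_le_add fun η hη => ?_
  have h1 : 0 < gauge (D0 P C₁) f + η / (M + 1) := by
    have := gauge_nonneg (s := D0 P C₁) f
    positivity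
  obtain ⟨d, hd, h⟩ := gauge_mem hne hC hcomp h1 (by
    have : 0 < η / (M + 1) := by positivity
    linarith : gauge (D0 P C₁) f ≤ gauge (D0 P C₁) f + η / (M + 1))
  have h2 : nrm f = (gauge (D0 P C₁) f + η / (M + 1)) * nrm d := by
    conv_lhs => rw [h]
    rw [nrm_smul, abs_of_pos h1]
  rw [h2]
  have h3 := hM d hd
  calc (gauge (D0 P C₁) f + η / (M + 1)) * nrm d ≤ (gauge (D0 P C₁) f + η / (M + 1)) * (M + 1) := by
        gcongr; linarith
    _ = (M + 1) * gauge (D0 P C₁) f + η := by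
        field_simp

end Pool.Agent.H345R3.WCG
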