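import Mathlib
import Pool.Agent.H345R3.WG

/-!
Construction of the Gateaux smooth, nowhere Fréchet differentiable norm.
-/

open Set Topology Filter Pointwise

namespace Pool.Agent.H345R3.WCG

variable {X : Type} [NormedAddCommGroup X] [NormedSpace ℝ X] [CompleteSpace X]

/-- symmetric second differences at a Fréchet differentiability point -/
theorem second_diff {N : X → ℝ} {z : X} (h : DifferentiableAt ℝ N z) {η : ℝ} (hη : 0 < η) :
    ∃ r : ℝ, 0 < r ∧ ∀ y : X, ‖y‖ ≤ r → N (z + y) + N (z - y) - 2 * N z ≤ η * ‖y‖ := by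
  have h1 := h.hasFDerivAt
  rw [hasFDerivAt_iff_isLittleO_nhds_zero] at h1
  have h2 := (Asymptotics.isLittleO_iff.mp h1) (show 0 < η / 2 by positivity)
  obtain ⟨r, hr, h3⟩ := Metric.eventually_nhds_iff.mp h2
  refine ⟨r / 2, by positivity, fun y hy => ?_⟩
  have h4 := h3 (show dist y 0 < r by rw [dist_zero_right]; linarith)
  have h5 := h3 (show dist (-y) 0 < r by rw [dist_zero_right, norm_neg]; linarith)
  rw [norm_neg, map_neg, ← sub_eq_add_neg] at h5
  rw [Real.norm_eq_abs] at h4 h5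
  have h6 := (abs_le.mp h4).2
  have h7 := (abs_le.mp h5).2
  linarith

theorem construct {Γ : Type} {x : Γ → X} (hx : Fam x) (C₁ : Set (WeakDual ℝ X)) (hne : C₁.Nonempty)
    (hconv : Convex ℝ C₁) (hcomp : IsCompact C₁) (ε : ℝ) (hε : 0 < ε)
    (hosc : ∀ (F : Finset X), ∀ f₀ ∈ C₁, ∀ δ : ℝ, 0 < δ → ∃ f ∈ C₁, ∃ g ∈ C₁,
        (∀ v ∈ F, |f v - f₀ v| < δ ∧ |g v - f₀ v| < δ) ∧ ε < nrm (f - g)) :
    ∃ N : X → ℝ,
        (∀ x y : X, N (x + y) ≤ N x + N y) ∧
        (∀ (r : ℝ) (x : X), N (r • x) = |r| * N x) ∧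
        (∃ c₁ c₂ : ℝ, 0 < c₁ ∧ 0 < c₂ ∧ ∀ x : X, c₁ * ‖x‖ ≤ N x ∧ N x ≤ c₂ * ‖x‖) ∧
        (∀ x : X, x ≠ 0 → ∃ L : X →L[ℝ] ℝ,
            ∀ v : X, HasDerivAt (fun t : ℝ => N (x + t • v)) (L v) 0) ∧
        (∀ x : X, x ≠ 0 → ¬ DifferentiableAt ℝ N x) := by
  classical
  obtain ⟨M, hM0, hM⟩ := bdd_of_compact hcomp
  -- the projection
  obtain ⟨P, Γ₀, hΓc, hP1, hP0, hPosc⟩ := exists_proj hx (C₁ : Set (X →L[ℝ] ℝ)) ε hε M hM (by
    intro F f₀ hf₀ δ hδ
    obtain ⟨f, hf, g, hg, h1, h2⟩ := hosc F f₀ hf₀ δ hδ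
    exact ⟨f, hf, g, hg, h1, h2⟩)
  -- enumeration
  obtain ⟨v, hv⟩ : ∃ v : ℕ → X, insert 0 (x '' Γ₀) = range v :=
    ((hΓc.image x).insert 0).exists_eq_range (insert_nonempty _ _)
  have hvmem : ∀ k, v k = 0 ∨ ∃ γ ∈ Γ₀, x γ = v k := by
    intro k
    have : v k ∈ insert 0 (x '' Γ₀) := by rw [hv]; exact mem_range_self k
    exact this
  have hv1 : ∀ k, ‖v k‖ ≤ 1 := by
    intro k
    rcases hvmem k with h | ⟨γ, _, h⟩
    · rw [h, norm_zero]; exact zero_le_one
    · rw [← h]; exact hx.le_one γ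
  have hPv : ∀ k, P (v k) = v k := by
    intro k
    rcases hvmem k with h | ⟨γ, hγ, h⟩
    · rw [h, map_zero]
    · rw [← h]; exact hP1 γ hγ
  have hvex : ∀ γ ∈ Γ₀, ∃ k, v k = x γ := by
    intro γ hγ
    have : x γ ∈ range v := by rw [← hv]; exact Or.inr ⟨γ, hγ, rfl⟩
    exact this
  let p : WeakDual ℝ X → ℝ := gauge (D0 P C₁)
  have hp : SN p := sn_gauge hne hconv hcomp
  let q : ℕ → WeakDual ℝ X → ℝ := fun k f => lar Γ₀ᶜ k (fun γ => f (x γ)) / ((k : ℝ) + 1)
  have hq : ∀ k, SN (q k) := fun k => sn_lar hx _ k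
  obtain ⟨R, hR0, hR⟩ := nrm_le_gauge (P := P) hne hconv hcomp
  let D : Set (WeakDual ℝ X) := {f | Phi p v q f ≤ 1}
  have hDsmul : ∀ (c : ℝ) f, Phi p v q (c • f) = c ^ 2 * Phi p v q f := Phi_smul hp hq
  have hDp : ∀ f ∈ D, p f ≤ 1 := by
    intro f hf
    have h1 : (p f) ^ 2 ≤ Phi p v q f := Phi_ge f
    have h2 : Phi p v q f ≤ 1 := hf
    nlinarith [hp.nonneg f]
  have hDb : ∀ f ∈ D, nrm f ≤ R := by
    intro f hf
    have h1 : nrm f ≤ R * p f := hR f
    have h2 := hDp f hf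
    nlinarith
  have hDc : IsCompact D := by
    have h1 := WeakDual.isCompact_closedBall (𝕜 := ℝ) (E := X) (0 : StrongDual ℝ X) R
    refine h1.of_isClosed_subset (Phi_closed hp hv1 hq) ?_
    intro f hf
    rw [mem_preimage, mem_closedBall_zero_iff]
    exact hDb f hf
  have hPhi0 : Phi p v q 0 = 0 := by
    have := hDsmul 0 0
    rw [zero_smul] at this
    rw [this]; ring
  have hD0 : (0 : WeakDual ℝ X) ∈ D := by
    change Phi p v q 0 ≤ 1
    rw [hPhi0]; exact zero_le_one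
  have hDneg : ∀ f ∈ D, -f ∈ D := by
    intro f hf
    change Phi p v q (-f) ≤ 1
    have h1 := hDsmul (-1) f
    rw [neg_one_smul] at h1
    rw [h1]
    have : Phi p v q f ≤ 1 := hf
    linarith
  have hDball : ∀ f, nrm f ≤ 1 / 2 → f ∈ D := by
    intro f hf
    have h1 := Phi_le (p := p) hp hv1 hq f
    change Phi p v q f ≤ 1
    nlinarith [nrm_nonneg f]
  -- the norm
  have hbddz : ∀ z : X, BddAbove ((fun f : WeakDual ℝ X => f z) '' D) := fun z =>
    (hDc.image (WeakDual.eval_continuous z)).bddAbove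
  let N : X → ℝ := fun z => sSup ((fun f : WeakDual ℝ X => f z) '' D)
  have hN2 : ∀ z, ∀ f ∈ D, f z ≤ N z := fun z f hf => le_csSup (hbddz z) ⟨f, hf, rfl⟩
  have hN1 : ∀ z, ∃ f ∈ D, f z = N z := by
    intro z
    have h1 := (hDc.image (WeakDual.eval_continuous z)).sSup_mem ⟨_, 0, hD0, rfl⟩
    obtain ⟨f, hf, h2⟩ := h1
    exact ⟨f, hf, h2⟩
  have hNabs : ∀ z, ∀ f ∈ D, |f z| ≤ N z := by
    intro z f hf
    rw [abs_le]
    have h1 := hN2 z f hf
    have h2 := hN2 z (-f) (hDneg f hf)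
    have h3 : (-f) z = -(f z) := rfl
    rw [h3] at h2
    constructor <;> linarith
  have hadd : ∀ a b : X, N (a + b) ≤ N a + N b := by
    intro a b
    obtain ⟨f, hf, h⟩ := hN1 (a + b)
    rw [← h, map_add]
    exact add_le_add (hN2 a f hf) (hN2 b f hf)
  have hsmul_le : ∀ (r : ℝ) (z : X), N (r • z) ≤ |r| * N z := by
    intro r z
    obtain ⟨f, hf, h⟩ := hN1 (r • z)
    rw [← h, map_smul, smul_eq_mul]
    calc r * f z ≤ |r * f z| := le_abs_self _
      _ = |r| * |f z| := abs_mul _ _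
      _ ≤ |r| * N z := mul_le_mul_of_nonneg_left (hNabs z f hf) (abs_nonneg r)
  have hNnn : ∀ z, 0 ≤ N z := fun z => by
    have := hN2 z 0 hD0
    exact this
  have hsmul : ∀ (r : ℝ) (z : X), N (r • z) = |r| * N z := by
    intro r z
    refine le_antisymm (hsmul_le r z) ?_
    by_cases hr : r = 0
    · subst hr
      rw [abs_zero, zero_mul]
      exact hNnn _
    · have h1 := hsmul_le r⁻¹ (r • z)
      rw [smul_smul, inv_mul_cancel₀ hr, one_smul, abs_inv] at h1
      have h2 : 0 < |r| := abs_pos.mpr hr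
      calc |r| * N z ≤ |r| * (|r|⁻¹ * N (r • z)) := mul_le_mul_of_nonneg_left h1 h2.le
        _ = N (r • z) := by rw [← mul_assoc, mul_inv_cancel₀ h2.ne', one_mul]
  have hlow : ∀ z, 1 / 2 * ‖z‖ ≤ N z := by
    intro z
    obtain ⟨g, hg1, hg2⟩ := exists_dual_vector'' ℝ z
    have h1 : nrm (StrongDual.toWeakDual ((1 / 2 : ℝ) • g)) ≤ 1 / 2 := by
      change ‖(1 / 2 : ℝ) • g‖ ≤ 1 / 2
      rw [norm_smul, Real.norm_of_nonneg (by norm_num)]
      linarith
    have h2 := hN2 z _ (hDball _ h1)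
    have h3 : (StrongDual.toWeakDual ((1 / 2 : ℝ) • g)) z = 1 / 2 * g z := rfl
    rw [h3, hg2] at h2
    exact h2
  have hup : ∀ z, N z ≤ R * ‖z‖ := by
    intro z
    obtain ⟨f, hf, h⟩ := hN1 z
    rw [← h]
    exact (le_abs_self _).trans ((abs_le_nrm f z).trans (mul_le_mul_of_nonneg_right (hDb f hf) (norm_nonneg z)))
  have hNpos : ∀ z : X, z ≠ 0 → 0 < N z := by
    intro z hz
    have h1 := hlow z
    have h2 : 0 < ‖z‖ := norm_pos_iff.mpr hz
    linarith
  refine ⟨N, hadd, hsmul, ⟨1 / 2, R, by norm_num, hR0, fun z => ⟨hlow z, hup z⟩⟩, ?_, ?_⟩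
  · -- Gateaux
    intro z hz
    refine gateaux_of_unique hDc N hN1 hN2 z ?_
    intro f hf g hg hfz hgz
    have hm : 1 ≤ Phi p v q ((1 / 2 : ℝ) • (f + g)) := by
      by_contra hlt
      push Not at hlt
      set s := Phi p v q ((1 / 2 : ℝ) • (f + g)) with hs
      have hs0 : 0 ≤ s := (sq_nonneg _).trans (Phi_ge _)
      have h1 : (2 / (1 + s)) • ((1 / 2 : ℝ) • (f + g)) ∈ D := by
        change Phi p v q _ ≤ 1
        rw [hDsmul, ← hs, div_pow, div_mul_eq_mul_div, div_le_one (by positivity)]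
        nlinarith [sq_nonneg (1 - s)]
      have h2 := hN2 z _ h1
      have h3 : ((2 / (1 + s)) • ((1 / 2 : ℝ) • (f + g))) z = (2 / (1 + s)) * N z := by
        change (2 / (1 + s)) * ((1 / 2 : ℝ) * (f z + g z)) = _
        rw [hfz, hgz]; ring
      rw [h3] at h2
      have h4 : 1 < 2 / (1 + s) := by rw [lt_div_iff₀ (by positivity)]; linarith
      have h5 := hNpos z hz
      nlinarith
    have hmid := Phi_mid hp hv1 hq hf hg hm
    -- equality on the family
    have hall : ∀ γ, f (x γ) = g (x γ) := by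
      intro γ
      by_cases hγ : γ ∈ Γ₀
      · obtain ⟨k, hk⟩ := hvex γ hγ
        rw [← hk]
        exact (hmid k).1
      · have hb : ∀ (f : WeakDual ℝ X) γ, |f (x γ)| ≤ nrm f := fun f γ =>
          (abs_le_nrm f (x γ)).trans (by nlinarith [hx.le_one γ, nrm_nonneg f])
        refine day (S := Γ₀ᶜ) (u := fun γ => f (x γ)) (v := fun γ => g (x γ))
          (w := fun γ => ((1 / 2 : ℝ) • (f + g)) (x γ)) (R := nrm f + nrm g)
          (fun γ => (hb f γ).trans (by linarith [nrm_nonneg g])) (fun γ => (hb g γ).trans (by linarith [nrm_nonneg f]))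
          (fun η hη => hx.fin (WeakDual.toStrongDual ((1 / 2 : ℝ) • (f + g))) η hη) (fun γ => ?_) (fun k => ?_)
          (fun k => ?_) γ hγ
        · change f (x γ) + g (x γ) = 2 * ((1 / 2 : ℝ) * (f (x γ) + g (x γ)))
          ring
        · have h1 : lar Γ₀ᶜ k (fun γ => f (x γ)) / ((k : ℝ) + 1) =
              lar Γ₀ᶜ k (fun γ => ((1 / 2 : ℝ) • (f + g)) (x γ)) / ((k : ℝ) + 1) := (hmid k).2.1
          exact (div_left_inj' (by positivity : ((k : ℝ) + 1) ≠ 0)).mp h1
        · have h1 : lar Γ₀ᶜ k (fun γ => g (x γ)) / ((k : ℝ) + 1) =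
              lar Γ₀ᶜ k (fun γ => ((1 / 2 : ℝ) • (f + g)) (x γ)) / ((k : ℝ) + 1) := (hmid k).2.2
          exact (div_left_inj' (by positivity : ((k : ℝ) + 1) ≠ 0)).mp h1
    have h0 : (WeakDual.toStrongDual (f - g) : X →L[ℝ] ℝ) = 0 := by
      refine hx.total _ fun γ => ?_
      change f (x γ) - g (x γ) = 0
      rw [hall γ, sub_self]
    have h1 : f - g = 0 := by
      apply WeakDual.toStrongDual.injective
      rw [h0, map_zero]
    exact sub_eq_zero.mp h1
  · -- nowhere Fréchet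
    intro z hz hdiff
    obtain ⟨f, hf, hfz⟩ := hN1 z
    have hfpos : 0 < f z := by rw [hfz]; exact hNpos z hz
    have hm : 0 < p f := by
      have h1 : nrm f ≤ R * p f := hR f
      have h2 := (le_abs_self _).trans (abs_le_nrm f z)
      by_contra hle
      push Not at hle
      have h3 : nrm f ≤ 0 := by nlinarith
      have h4 : nrm f * ‖z‖ ≤ 0 := mul_nonpos_of_nonpos_of_nonneg h3 (norm_nonneg z)
      linarith
    set m := p f with hmdef
    obtain ⟨d, ⟨g₁, hg₁, g₂, hg₂, u, hu, rfl⟩, hfd⟩ := gauge_mem hne hconv hcomp hm (le_refl (gauge (D0 P C₁) f))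
    obtain ⟨r, hr, hsec⟩ := second_diff hdiff (show 0 < m * ε / 4 by positivity)
    -- the approximating functionals
    have hseq : ∀ n : ℕ, ∃ g ∈ C₁, (∀ y ∈ insert z ((Finset.range n).image v), |g (P y) - g₁ (P y)| < 1 / ((n : ℝ) + 1)) ∧
        ∃ w, P w = w ∧ ‖w‖ ≤ 1 ∧ ε / 2 < g w - g₁ w := by
      intro n
      exact hPosc (insert z ((Finset.range n).image v)) g₁ hg₁ (1 / ((n : ℝ) + 1)) (by positivity)
    choose g hgC hgy w hwP hw1 hgw using hseq
    let fn : ℕ → WeakDual ℝ X := fun n => m • (cmp P (g n - g₂) + u)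
    have hfn : ∀ n y, fn n y - f y = m * (g n (P y) - g₁ (P y)) := by
      intro n y
      have h1 : fn n y = m * ((g n (P y) - g₂ (P y)) + u y) := rfl
      have h2 : f y = m * ((g₁ (P y) - g₂ (P y)) + u y) := by
        conv_lhs => rw [hfd]
        rfl
      rw [h1, h2]; ring
    have hpfn : ∀ n, p (fn n) ≤ m := by
      intro n
      exact gauge_le_of_mem hm.le ⟨_, ⟨g n, hgC n, g₂, hg₂, u, hu, rfl⟩, rfl⟩
    have hnfn : ∀ n, nrm (fn n) ≤ R * m := by
      intro n
      have h1 : nrm (fn n) ≤ R * p (fn n) := hR _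
      have h2 := hpfn n
      nlinarith
    have hqfn : ∀ n k, q k (fn n) = q k f := by
      intro n k
      have h1 : ∀ A : Finset Γ, (A : Set Γ) ⊆ Γ₀ᶜ → ∑ γ ∈ A, |fn n (x γ)| = ∑ γ ∈ A, |f (x γ)| := by
        intro A hA
        refine Finset.sum_congr rfl fun γ hγ => ?_
        have h2 := hfn n (x γ)
        rw [hP0 γ (hA hγ), map_zero, map_zero, sub_zero, mul_zero] at h2
        have h3 : fn n (x γ) = f (x γ) := by linarith
        rw [h3]
      have h4 : lar Γ₀ᶜ k (fun γ => fn n (x γ)) = lar Γ₀ᶜ k (fun γ => f (x γ)) := by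
        unfold lar
        congr 1
        ext c
        constructor
        · rintro ⟨A, hA, rfl⟩
          exact ⟨A, hA, (h1 A hA.1).symm⟩
        · rintro ⟨A, hA, rfl⟩
          exact ⟨A, hA, h1 A hA.1⟩
      change lar Γ₀ᶜ k (fun γ => fn n (x γ)) / ((k : ℝ) + 1) = lar Γ₀ᶜ k (fun γ => f (x γ)) / ((k : ℝ) + 1)
      rw [h4]
    have hsmall : Tendsto (fun n : ℕ => m * (1 / ((n : ℝ) + 1))) atTop (𝓝 0) := by
      have := tendsto_one_div_add_atTop_nhds_zero_nat (𝕜 := ℝ) |>.const_mul m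
      rwa [mul_zero] at this
    have hfnv : ∀ k, Tendsto (fun n => fn n (v k)) atTop (𝓝 (f (v k))) := by
      intro k
      rw [tendsto_iff_norm_sub_tendsto_zero]
      refine squeeze_zero' (Eventually.of_forall fun n => norm_nonneg _) ?_ hsmall
      filter_upwards [eventually_gt_atTop k] with n hn
      rw [Real.norm_eq_abs, hfn, abs_mul, abs_of_pos hm]
      refine mul_le_mul_of_nonneg_left (hgy n (v k) ?_).le hm.le
      exact Finset.mem_insert_of_mem (Finset.mem_image_of_mem _ (Finset.mem_range.mpr hn))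
    have hfnz : ∀ n, |fn n z - f z| ≤ m * (1 / ((n : ℝ) + 1)) := by
      intro n
      rw [hfn, abs_mul, abs_of_pos hm]
      exact mul_le_mul_of_nonneg_left (hgy n z (Finset.mem_insert_self _ _)).le hm.le
    -- convergence of the sums
    have htsum : Tendsto (fun n => ∑' k, (1 / 2 : ℝ) ^ (k + 1) * T v q k (fn n)) atTop
        (𝓝 (∑' k, (1 / 2 : ℝ) ^ (k + 1) * T v q k f)) := by
      refine tendsto_tsum_of_dominated_convergence (bound := fun k => (1 / 2 : ℝ) ^ (k + 1) * (2 * (R * m) ^ 2))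
        (summable_half.mul_right _) (fun k => ?_) (Eventually.of_forall fun n k => ?_)
      · have h1 : ∀ n, T v q k (fn n) = (fn n (v k)) ^ 2 + (q k f) ^ 2 := by
          intro n
          unfold T
          rw [hqfn]
        simp_rw [h1]
        exact (((hfnv k).pow 2).add tendsto_const_nhds).const_mul _
      · have h2 : 0 ≤ (1 / 2 : ℝ) ^ (k + 1) * T v q k (fn n) := mul_nonneg (by positivity) (T_nonneg k _)
        rw [Real.norm_of_nonneg h2]
        refine mul_le_mul_of_nonneg_left ((T_le hv1 hq k (fn n)).trans ?_) (by positivity)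
        have h3 := pow_le_pow_left₀ (nrm_nonneg _) (hnfn n) 2
        linarith
    let Ψ : ℕ → ℝ := fun n => m ^ 2 + ∑' k, (1 / 2 : ℝ) ^ (k + 1) * T v q k (fn n)
    have hΨ : Tendsto Ψ atTop (𝓝 (Phi p v q f)) := tendsto_const_nhds.add htsum
    let s : ℕ → ℝ := fun n => max 1 (Ψ n)
    have hs : Tendsto s atTop (𝓝 1) := by
      have h1 : Tendsto s atTop (𝓝 (max 1 (Phi p v q f))) := tendsto_const_nhds.max hΨ
      rwa [max_eq_left (show Phi p v q f ≤ 1 from hf)] at h1
    have hs1 : ∀ n, 1 ≤ s n := fun n => le_max_left _ _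
    have hfnD : ∀ n, (s n)⁻¹ • fn n ∈ D := by
      intro n
      change Phi p v q _ ≤ 1
      rw [hDsmul]
      have h1 : Phi p v q (fn n) ≤ s n := by
        refine le_trans ?_ (le_max_right _ _)
        unfold Phi
        have : (p (fn n)) ^ 2 ≤ m ^ 2 := pow_le_pow_left₀ (hp.nonneg _) (hpfn n) 2
        linarith
      have h2 := hs1 n
      rw [inv_pow, inv_mul_le_iff₀ (by positivity), mul_one]
      nlinarith
    have hfnle : ∀ n y, fn n y ≤ s n * N y := by
      intro n y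
      have h1 := hN2 y _ (hfnD n)
      have h2 : ((s n)⁻¹ • fn n) y = (s n)⁻¹ * fn n y := rfl
      have h3 : 0 < s n := lt_of_lt_of_le one_pos (hs1 n)
      rw [h2, inv_mul_le_iff₀ h3] at h1
      exact h1
    -- the key inequality
    have hkey : ∀ n, m * (r * (ε / 2)) ≤ m * ε / 4 * r + (s n - 1) * (R * (‖z‖ + r)) + m * (1 / ((n : ℝ) + 1)) := by
      intro n
      have h1 : ‖r • w n‖ ≤ r := by
        rw [norm_smul, Real.norm_of_nonneg hr.le]
        nlinarith [hw1 n]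
      have h2 := hsec (r • w n) h1
      have h3 := hfnle n (z + r • w n)
      have h4 := hN2 (z - r • w n) f hf
      have h5 : fn n (z + r • w n) = fn n z + fn n (r • w n) := map_add _ _ _
      have h6 : f (z - r • w n) = f z - f (r • w n) := map_sub _ _ _
      have h7 : fn n (r • w n) - f (r • w n) = m * (r * (g n (w n) - g₁ (w n))) := by
        rw [hfn, map_smul, hwP, map_smul, map_smul]
        simp only [smul_eq_mul]
        ring
      have h8 : N (z + r • w n) ≤ R * (‖z‖ + r) := by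
        refine (hup _).trans (mul_le_mul_of_nonneg_left ?_ hR0.le)
        exact (norm_add_le _ _).trans (by linarith)
      have h9 := abs_le.mp (hfnz n)
      have h10 : (s n - 1) * N (z + r • w n) ≤ (s n - 1) * (R * (‖z‖ + r)) :=
        mul_le_mul_of_nonneg_left h8 (by linarith [hs1 n])
      have h11 : m * (r * (ε / 2)) ≤ m * (r * (g n (w n) - g₁ (w n))) := by
        have := (hgw n).le
        gcongr
      have h12 : m * ε / 4 * ‖r • w n‖ ≤ m * ε / 4 * r := mul_le_mul_of_nonneg_left h1 (by positivity)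
      rw [h5] at h3
      rw [h6] at h4
      nlinarith [h9.1, h9.2]
    have hlim : Tendsto (fun n : ℕ => m * ε / 4 * r + (s n - 1) * (R * (‖z‖ + r)) + m * (1 / ((n : ℝ) + 1))) atTop
        (𝓝 (m * ε / 4 * r + (1 - 1) * (R * (‖z‖ + r)) + 0)) :=
      (tendsto_const_nhds.add ((hs.sub_const 1).mul_const _)).add hsmall
    have hfinal := ge_of_tendsto' hlim hkey
    have : 0 < m * ε * r := by positivity
    nlinarith

end Pool.Agent.H345R3.WCG
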