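import Mathlib
import Pool.Agent.H345R3.WE
import Pool.Agent.H345R3.WG

/-!
If the dual has the convex weak* point of continuity property, then a Gateaux smooth norm has points of
Fréchet differentiability. (Ekeland's principle is copied from `Helper983.WC.Ekeland`.)
-/

open Set Topology Filter

namespace Pool.Agent.H345R3.WCG

section ek

variable {X : Type*} [NormedAddCommGroup X]

theorem ekeland [CompleteSpace X] (ψ : X → ℝ) (hc : Continuous ψ) (h0 : ∀ x, 0 ≤ ψ x)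
    (x0 : X) {δ : ℝ} (hδ : 0 < δ) :
    ∃ x, δ * ‖x - x0‖ ≤ ψ x0 ∧ ∀ y, ψ x ≤ ψ y + δ * ‖y - x‖ := by
  have step : ∀ (n : ℕ) (x : X), ∃ z, ψ z + δ * ‖z - x‖ ≤ ψ x ∧
      ∀ y, ψ y + δ * ‖y - x‖ ≤ ψ x → ψ z ≤ ψ y + (1 / 2 : ℝ) ^ n := by
    intro n x
    set S : Set ℝ := ψ '' {y | ψ y + δ * ‖y - x‖ ≤ ψ x} with hS
    have hne : S.Nonempty := ⟨ψ x, x, by simp, rfl⟩
    have hbdd : BddBelow S := ⟨0, by rintro _ ⟨y, -, rfl⟩; exact h0 y⟩
    obtain ⟨_, ⟨z, hz, rfl⟩, hz2⟩ := exists_lt_of_csInf_lt hne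
      (show sInf S < sInf S + (1 / 2 : ℝ) ^ n by linarith [show (0 : ℝ) < (1 / 2) ^ n by positivity])
    refine ⟨z, hz, fun y hy => ?_⟩
    have := csInf_le hbdd ⟨y, hy, rfl⟩
    linarith
  choose T hT1 hT2 using step
  let u : ℕ → X := fun n => Nat.rec x0 (fun n x => T n x) n
  have hu0 : u 0 = x0 := rfl
  have hus : ∀ n, u (n + 1) = T n (u n) := fun n => rfl
  have hmono : ∀ n m, n ≤ m → ψ (u m) + δ * ‖u m - u n‖ ≤ ψ (u n) := by
    intro n m hnm
    induction m, hnm using Nat.le_induction with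
    | base => simp
    | succ m hnm ih =>
      have h1 := hT1 m (u m)
      rw [← hus] at h1
      have h2 : ‖u (m + 1) - u n‖ ≤ ‖u (m + 1) - u m‖ + ‖u m - u n‖ := norm_sub_le_norm_sub_add_norm_sub _ _ _
      nlinarith
  have hanti : Antitone (fun n => ψ (u n)) := by
    refine antitone_nat_of_succ_le ?_
    intro n
    have := hmono n (n + 1) (Nat.le_succ n)
    have h3 : 0 ≤ δ * ‖u (n + 1) - u n‖ := by positivity
    linarith
  have hbdd : BddBelow (Set.range fun n => ψ (u n)) := ⟨0, by rintro _ ⟨n, rfl⟩; exact h0 _⟩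
  have hlim := tendsto_atTop_ciInf hanti hbdd
  set α := ⨅ n, ψ (u n) with hα
  have hge : ∀ n, α ≤ ψ (u n) := fun n => ciInf_le hbdd n
  have hcau : CauchySeq u := by
    rw [Metric.cauchySeq_iff']
    intro ε hε
    have h1 : ∀ᶠ n in atTop, ψ (u n) < α + δ * ε := hlim.eventually_lt_const (by
      have : 0 < δ * ε := by positivity
      linarith)
    obtain ⟨N, hN⟩ := h1.exists
    refine ⟨N, fun n hn => ?_⟩
    have h2 := hmono N n hn
    have h3 := hge n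
    rw [dist_eq_norm]
    have h4 : δ * ‖u n - u N‖ < δ * ε := by linarith
    exact lt_of_mul_lt_mul_left h4 hδ.le
  obtain ⟨x, hx⟩ := cauchySeq_tendsto_of_complete hcau
  have hψx : Tendsto (fun n => ψ (u n)) atTop (𝓝 (ψ x)) := (hc.tendsto x).comp hx
  have hS : ∀ n, ψ x + δ * ‖x - u n‖ ≤ ψ (u n) := by
    intro n
    have h1 : Tendsto (fun m => ψ (u m) + δ * ‖u m - u n‖) atTop (𝓝 (ψ x + δ * ‖x - u n‖)) :=
      hψx.add (((hx.sub_const _).norm).const_mul δ)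
    refine le_of_tendsto h1 ?_
    filter_upwards [eventually_ge_atTop n] with m hm using hmono n m hm
  refine ⟨x, ?_, ?_⟩
  · have := hS 0
    rw [hu0] at this
    linarith [h0 x]
  · intro y
    by_contra hcon
    push Not at hcon
    have hy : ∀ n, ψ (u (n + 1)) ≤ ψ y + (1 / 2 : ℝ) ^ n := by
      intro n
      rw [hus]
      refine hT2 n (u n) y ?_
      have h1 := hS n
      have h2 : ‖y - u n‖ ≤ ‖y - x‖ + ‖x - u n‖ := norm_sub_le_norm_sub_add_norm_sub _ _ _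
      nlinarith
    have h1 : Tendsto (fun n : ℕ => ψ y + (1 / 2 : ℝ) ^ n) atTop (𝓝 (ψ y + 0)) :=
      (tendsto_pow_atTop_nhds_zero_of_lt_one (by norm_num) (by norm_num)).const_add _
    have h2 : Tendsto (fun n => ψ (u (n + 1))) atTop (𝓝 (ψ x)) := hψx.comp (tendsto_add_atTop_nat 1)
    have h3 := le_of_tendsto_of_tendsto' h2 h1 hy
    have h4 : 0 ≤ δ * ‖y - x‖ := by positivity
    linarith

end ek

variable {X : Type} [NormedAddCommGroup X] [NormedSpace ℝ X]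

/-- Gateaux derivatives of convex functions are subgradients -/
theorem subgrad {φ : X → ℝ} (hφ : ConvexOn ℝ univ φ) {x : X} {L : X →L[ℝ] ℝ}
    (hL : ∀ v, HasDerivAt (fun t : ℝ => φ (x + t • v)) (L v) 0) (y : X) : φ x + L (y - x) ≤ φ y := by
  have h1 : ConvexOn ℝ univ (fun t : ℝ => φ (x + t • (y - x))) := by
    refine ⟨convex_univ, fun a _ b _ s t hs ht hst => ?_⟩
    have h2 := hφ.2 (mem_univ (x + a • (y - x))) (mem_univ (x + b • (y - x))) hs ht hst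
    have h3 : x + (s • a + t • b) • (y - x) = s • (x + a • (y - x)) + t • (x + b • (y - x)) := by
      calc x + (s • a + t • b) • (y - x) = (s + t) • x + (s • a + t • b) • (y - x) := by rw [hst, one_smul]
        _ = _ := by simp only [smul_eq_mul]; module
    change φ (x + (s • a + t • b) • (y - x)) ≤ _
    rw [h3]
    exact h2
  have h2 := h1.le_slope_of_hasDerivAt (mem_univ 0) (mem_univ 1) one_pos (hL (y - x))
  rw [slope_def_field] at h2
  simp only [one_smul, zero_smul, add_zero, sub_zero, div_one, add_sub_cancel] at h2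
  linarith

theorem slope_right {φ : X → ℝ} {x v : X} {l : ℝ} (h : HasDerivAt (fun t : ℝ => φ (x + t • v)) l 0) :
    Tendsto (fun t : ℝ => t⁻¹ * (φ (x + t • v) - φ x)) (𝓝[>] 0) (𝓝 l) := by
  have h1 := (hasDerivAt_iff_tendsto_slope.mp h).mono_left
    (nhdsWithin_mono 0 (fun t (ht : 0 < t) => ne_of_gt ht) : 𝓝[>] (0:ℝ) ≤ 𝓝[≠] 0)
  refine h1.congr fun t => ?_
  rw [slope_def_module]
  simp

theorem eps_frechet [CompleteSpace X] {φ : X → ℝ} (hconv : ConvexOn ℝ univ φ) (hcont : Continuous φ)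
    (hpcp : ∀ C : Set (WeakDual ℝ X), C.Nonempty → Convex ℝ C → IsCompact C →
      ∃ z ∈ C, ∀ ε : ℝ, 0 < ε → ∃ U : Set (WeakDual ℝ X), IsOpen U ∧ z ∈ U ∧ ∀ y ∈ C ∩ U, nrm (y - z) < ε)
    {V : Set X} (hV : IsOpen V)
    (hG : ∀ x ∈ V, ∃ L : X →L[ℝ] ℝ, ∀ v, HasDerivAt (fun t : ℝ => φ (x + t • v)) (L v) 0)
    {x₀ : X} (hx₀ : x₀ ∈ V) {η R B : ℝ} (hη : 0 < η)
    (hB : ∀ g : X →L[ℝ] ℝ, (∀ x, φ x₀ + g (x - x₀) - η ≤ φ x) → ‖g‖ ≤ B)
    (hloc : ∀ g : X →L[ℝ] ℝ, (∀ x, φ x₀ + g (x - x₀) - η ≤ φ x) →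
      ∀ x', φ x' - g x' ≤ φ x₀ - g x₀ + ‖x' - x₀‖ → x' ∈ V ∧ ‖x' - x₀‖ ≤ R)
    {ε : ℝ} (hε : 0 < ε) :
    ∃ x' ∈ V, ‖x' - x₀‖ ≤ R ∧ ∃ τ : ℝ, 0 < τ ∧ ∀ h : X, ‖h‖ < τ →
      φ (x' + h) + φ (x' - h) - 2 * φ x' ≤ ε * ‖h‖ := by
  let C : Set (WeakDual ℝ X) := {g | ∀ x, φ x₀ + g (x - x₀) - η ≤ φ x}
  have hCcl : IsClosed C := by
    have : C = ⋂ x, {g : WeakDual ℝ X | φ x₀ + g (x - x₀) - η ≤ φ x} := by
      ext g; simp [C]
    rw [this]
    refine isClosed_iInter fun x => isClosed_le ?_ continuous_const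
    exact (continuous_const.add (WeakDual.eval_continuous _)).sub continuous_const
  have hCcomp : IsCompact C := by
    refine (WeakDual.isCompact_closedBall (𝕜 := ℝ) (E := X) (0 : StrongDual ℝ X) B).of_isClosed_subset hCcl ?_
    intro g hg
    rw [mem_preimage, mem_closedBall_zero_iff]
    exact hB _ hg
  have hCconv : Convex ℝ C := by
    intro g hg g' hg' a b ha hb hab x
    have h1 := hg x
    have h2 := hg' x
    have h3 : (a • g + b • g') (x - x₀) = a * g (x - x₀) + b * g' (x - x₀) := rfl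
    rw [h3]
    have h4 : φ x₀ = a * φ x₀ + b * φ x₀ := by rw [← add_mul, hab, one_mul]
    have h5 : φ x = a * φ x + b * φ x := by rw [← add_mul, hab, one_mul]
    have h6 : η = a * η + b * η := by rw [← add_mul, hab, one_mul]
    have h7 := mul_le_mul_of_nonneg_left h1 ha
    have h8 := mul_le_mul_of_nonneg_left h2 hb
    nlinarith
  obtain ⟨L₀, hL₀⟩ := hG x₀ hx₀
  have hsub₀ := subgrad hconv hL₀
  let g₀ : WeakDual ℝ X := StrongDual.toWeakDual L₀
  have hg₀ : g₀ ∈ C := by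
    intro x
    have h1 : g₀ (x - x₀) = L₀ (x - x₀) := rfl
    have h2 := hsub₀ x
    rw [h1]; linarith
  obtain ⟨z, hzC, hz⟩ := hpcp C ⟨g₀, hg₀⟩ hCconv hCcomp
  obtain ⟨U, hUo, hzU, hU⟩ := hz (ε / 2) (by positivity)
  -- a functional with strict defect
  obtain ⟨s, hs0, hs1, hsU⟩ : ∃ s : ℝ, 0 < s ∧ s < 1 ∧ (1 - s) • z + s • g₀ ∈ U := by
    have hc : Continuous (fun s : ℝ => (1 - s) • z + s • g₀) := by
      refine WeakDual.continuous_of_continuous_eval fun y => ?_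
      have : ∀ s : ℝ, ((1 - s) • z + s • g₀) y = (1 - s) * z y + s * g₀ y := fun s => rfl
      simp_rw [this]
      fun_prop
    have h1 : ∀ᶠ s : ℝ in 𝓝 0, (1 - s) • z + s • g₀ ∈ U := by
      refine hc.continuousAt.eventually_mem (hUo.mem_nhds ?_)
      simpa using hzU
    have h2 : ∀ᶠ s : ℝ in 𝓝[>] 0, s < 1 :=
      (eventually_lt_nhds one_pos).filter_mono nhdsWithin_le_nhds
    obtain ⟨s, ⟨h3, h4⟩, h5⟩ := (((h1.filter_mono nhdsWithin_le_nhds).and h2).and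
      (self_mem_nhdsWithin : ∀ᶠ s : ℝ in 𝓝[>] 0, s ∈ Ioi (0:ℝ))).exists
    exact ⟨s, h5, h4, h3⟩
  set g₁ : WeakDual ℝ X := (1 - s) • z + s • g₀ with hg₁def
  have hg₁a : ∀ y, g₁ y = (1 - s) * z y + s * g₀ y := fun y => rfl
  have hg₁C : ∀ x, φ x₀ + g₁ (x - x₀) - (1 - s) * η ≤ φ x := by
    intro x
    have h1 := hzC x
    have h2 := hsub₀ x
    have h3 : g₀ (x - x₀) = L₀ (x - x₀) := rfl
    rw [hg₁a, h3]
    nlinarith
  have hg₁C' : ∀ x, φ x₀ + g₁ (x - x₀) - η ≤ φ x := by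
    intro x
    have := hg₁C x
    nlinarith
  obtain ⟨F₁, δ₂, hδ₂, hF₁⟩ := basic_nhd hUo hsU
  obtain ⟨δ, hδ0, hδ1, hδR, hδF⟩ : ∃ δ : ℝ, 0 < δ ∧ δ < 1 ∧ δ * (|R| + 1) < s * η ∧ ∀ y ∈ F₁, δ * ‖y‖ < δ₂ := by
    have hlim : ∀ (a b : ℝ), 0 < b → ∀ᶠ δ : ℝ in 𝓝[>] 0, δ * a < b := by
      intro a b hb
      have h2 : Tendsto (fun δ : ℝ => δ * a) (𝓝 0) (𝓝 (0 * a)) := (continuous_id.mul continuous_const).tendsto 0
      rw [zero_mul] at h2
      exact (h2.eventually_lt_const hb).filter_mono nhdsWithin_le_nhds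
    have h1 : ∀ᶠ δ : ℝ in 𝓝[>] 0, ∀ y ∈ F₁, δ * ‖y‖ < δ₂ := by
      rw [Finset.eventually_all]
      intro y _
      exact hlim _ _ hδ₂
    have h2 : ∀ᶠ s : ℝ in 𝓝[>] 0, s < 1 :=
      (eventually_lt_nhds one_pos).filter_mono nhdsWithin_le_nhds
    obtain ⟨δ, ⟨⟨h3, h4⟩, h5⟩, h6⟩ := (((h1.and h2).and (hlim (|R| + 1) (s * η) (by positivity))).and
      (self_mem_nhdsWithin : ∀ᶠ s : ℝ in 𝓝[>] 0, s ∈ Ioi (0:ℝ))).exists
    exact ⟨δ, h6, h4, h5, h3⟩
  -- Ekeland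
  have hg₁cont : Continuous (fun x => g₁ x) := (WeakDual.toStrongDual g₁ : X →L[ℝ] ℝ).continuous
  obtain ⟨x', -, hx'⟩ := ekeland (fun x => φ x - g₁ x - (φ x₀ - g₁ x₀ - η))
    ((hcont.sub hg₁cont).sub continuous_const) (fun x => by
      have h1 := hg₁C' x
      rw [map_sub] at h1
      linarith) x₀ hδ0
  have hx'0 : φ x' - g₁ x' ≤ φ x₀ - g₁ x₀ + ‖x' - x₀‖ := by
    have h1 := hx' x₀
    rw [norm_sub_rev] at h1
    nlinarith [norm_nonneg (x' - x₀)]
  obtain ⟨hx'V, hx'R⟩ := hloc (WeakDual.toStrongDual g₁) hg₁C' x' hx'0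
  obtain ⟨L', hL'⟩ := hG x' hx'V
  have hsub' := subgrad hconv hL'
  have hL'ge : ∀ y, g₁ y - δ * ‖y‖ ≤ L' y := by
    intro y
    refine ge_of_tendsto (slope_right (hL' y)) ?_
    filter_upwards [self_mem_nhdsWithin] with t ht
    have ht' : 0 < t := ht
    have h1 := hx' (x' + t • y)
    rw [map_add, map_smul, add_sub_cancel_left, norm_smul, Real.norm_of_nonneg ht'.le, smul_eq_mul] at h1
    rw [le_inv_mul_iff₀ ht']
    nlinarith
  have hL'abs : ∀ y, |L' y - g₁ y| ≤ δ * ‖y‖ := by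
    intro y
    have h1 := hL'ge y
    have h2 := hL'ge (-y)
    rw [map_neg, map_neg, norm_neg] at h2
    rw [abs_le]
    constructor <;> linarith
  have hL'U : (StrongDual.toWeakDual L' : WeakDual ℝ X) ∈ U :=
    hF₁ _ fun y hy => (hL'abs y).trans_lt (hδF y hy)
  obtain ⟨F₂, δ₃, hδ₃, hF₂⟩ := basic_nhd hUo hL'U
  set κ := φ x' + L' (x₀ - x') - (φ x₀ - η) with hκdef
  have hκ : 0 < κ := by
    have h1 := hg₁C x'
    have h2 := hL'ge (x₀ - x')
    have h3 : g₁ (x' - x₀) = -g₁ (x₀ - x') := by rw [← map_neg, neg_sub]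
    have h4 : ‖x₀ - x'‖ ≤ |R| + 1 := by
      rw [norm_sub_rev]; exact hx'R.trans ((le_abs_self R).trans (by linarith))
    have h5 : δ * ‖x₀ - x'‖ ≤ δ * (|R| + 1) := mul_le_mul_of_nonneg_left h4 hδ0.le
    rw [h3] at h1
    linarith
  -- continuity of subgradients
  have hcl1 : ∀ (y : X) (δ' : ℝ), 0 < δ' → ∀ᶠ x'' in 𝓝 x', ∀ g : X →L[ℝ] ℝ,
      (∀ a, φ x'' + g (a - x'') ≤ φ a) → g y < L' y + δ' := by
    intro y δ' hδ'
    have h1 := (slope_right (hL' y)).eventually_lt_const (show L' y < L' y + δ' by linarith)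
    obtain ⟨t, h2, ht⟩ := (h1.and (self_mem_nhdsWithin : ∀ᶠ s : ℝ in 𝓝[>] 0, s ∈ Ioi (0:ℝ))).exists
    have ht' : 0 < t := ht
    rw [inv_mul_lt_iff₀ ht'] at h2
    have h3 : Tendsto (fun x'' => φ (x'' + t • y) - φ x'') (𝓝 x') (𝓝 (φ (x' + t • y) - φ x')) :=
      ((hcont.comp (continuous_id.add continuous_const)).sub hcont).tendsto x'
    filter_upwards [h3.eventually_lt_const h2] with x'' h4 g hg
    have h5 := hg (x'' + t • y)
    rw [add_sub_cancel_left, map_smul, smul_eq_mul] at h5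
    have h6 : t * g y < t * (L' y + δ') := by linarith
    exact lt_of_mul_lt_mul_left h6 ht'.le
  have hmem : ∀ᶠ x'' in 𝓝 x', ∀ g : X →L[ℝ] ℝ, (∀ a, φ x'' + g (a - x'') ≤ φ a) →
      (StrongDual.toWeakDual g : WeakDual ℝ X) ∈ C ∩ U := by
    have h1 : ∀ᶠ x'' in 𝓝 x', ∀ y ∈ F₂, ∀ g : X →L[ℝ] ℝ,
        (∀ a, φ x'' + g (a - x'') ≤ φ a) → |g y - L' y| < δ₃ := by
      rw [Finset.eventually_all]
      intro y _
      filter_upwards [hcl1 y δ₃ hδ₃, hcl1 (-y) δ₃ hδ₃] with x'' h2 h3 g hg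
      have h4 := h2 g hg
      have h5 := h3 g hg
      rw [map_neg, map_neg] at h5
      rw [abs_lt]
      constructor <;> linarith
    have h2 : ∀ᶠ x'' in 𝓝 x', φ x' - κ / 2 < 2 * φ x'' - φ (x'' + (x'' - x')) := by
      have h3 : Tendsto (fun x'' => 2 * φ x'' - φ (x'' + (x'' - x'))) (𝓝 x') (𝓝 (2 * φ x' - φ (x' + (x' - x')))) := by
        refine Continuous.tendsto ?_ x'
        exact (continuous_const.mul hcont).sub (hcont.comp (continuous_id.add (continuous_id.sub continuous_const)))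
      rw [sub_self, add_zero] at h3
      exact h3.eventually_const_lt (by linarith)
    filter_upwards [h1, h2, hcl1 (x' - x₀) (κ / 2) (by positivity)] with x'' h3 h4 h5 g hg
    refine ⟨fun x => ?_, hF₂ _ fun y hy => h3 y hy g hg⟩
    have h6 := hg x
    have h7 := h5 g hg
    have h8 := hg (x'' + (x'' - x'))
    rw [add_sub_cancel_left] at h8
    have h9 : (StrongDual.toWeakDual g : WeakDual ℝ X) (x - x₀) = g (x - x₀) := rfl
    rw [h9]
    simp only [map_sub] at h6 h7 h8 hκdef ⊢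
    linarith
  obtain ⟨τ, hτ, hball⟩ := Metric.eventually_nhds_iff.mp (hmem.and (hV.mem_nhds hx'V))
  refine ⟨x', hx'V, hx'R, τ, hτ, fun h hh => ?_⟩
  obtain ⟨hp1, hp2⟩ := hball (show dist (x' + h) x' < τ by rw [dist_eq_norm, add_sub_cancel_left]; exact hh)
  obtain ⟨hm1, hm2⟩ := hball (show dist (x' - h) x' < τ by
    rw [dist_eq_norm, sub_sub_cancel_left, norm_neg]; exact hh)
  obtain ⟨gp, hgp⟩ := hG _ hp2
  obtain ⟨gm, hgm⟩ := hG _ hm2
  have hgp' := subgrad hconv hgp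
  have hgm' := subgrad hconv hgm
  have h1 := hU _ (hp1 gp hgp')
  have h2 := hU _ (hm1 gm hgm')
  have h3 := hgp' x'
  have h4 := hgm' x'
  have h5 : x' - (x' + h) = -h := by abel
  have h6 : x' - (x' - h) = h := by abel
  rw [h5, map_neg] at h3
  rw [h6] at h4
  have h7 : ‖gp - gm‖ ≤ ε := by
    have h8 : nrm (StrongDual.toWeakDual gp - z) = ‖gp - (WeakDual.toStrongDual z : X →L[ℝ] ℝ)‖ := rfl
    have h9 : nrm (StrongDual.toWeakDual gm - z) = ‖gm - (WeakDual.toStrongDual z : X →L[ℝ] ℝ)‖ := rfl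
    rw [h8] at h1
    rw [h9, norm_sub_rev] at h2
    have h10 : gp - gm = (gp - (WeakDual.toStrongDual z : X →L[ℝ] ℝ)) + ((WeakDual.toStrongDual z : X →L[ℝ] ℝ) - gm) := by
      abel
    rw [h10]
    refine (norm_add_le _ _).trans ?_
    linarith
  have h8 : (gp - gm) h ≤ ε * ‖h‖ :=
    (le_abs_self _).trans (((gp - gm).le_opNorm h).trans (mul_le_mul_of_nonneg_right h7 (norm_nonneg h)))
  have h9 : (gp - gm) h = gp h - gm h := rfl
  rw [h9] at h8
  linarith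

end Pool.Agent.H345R3.WCG
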