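import Mathlib
import Pool.Agent.H345R3.WI

/-!
Gateaux smooth norms have Fréchet points if the dual has the convex weak* point of continuity property.
-/

open Set Topology Filter

namespace Pool.Agent.H345R3.WCG

variable {X : Type} [NormedAddCommGroup X] [NormedSpace ℝ X]

structure NN (N : X → ℝ) (c₁ c₂ : ℝ) : Prop where
  pos₁ : 0 < c₁
  pos₂ : 0 < c₂
  add : ∀ x y, N (x + y) ≤ N x + N y
  smul : ∀ (r : ℝ) x, N (r • x) = |r| * N x
  low : ∀ x, c₁ * ‖x‖ ≤ N x
  up : ∀ x, N x ≤ c₂ * ‖x‖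
  gat : ∀ x, x ≠ 0 → ∃ L : X →L[ℝ] ℝ, ∀ v, HasDerivAt (fun t : ℝ => N (x + t • v)) (L v) 0

variable {N : X → ℝ} {c₁ c₂ : ℝ}

theorem NN.nonneg (h : NN N c₁ c₂) (x : X) : 0 ≤ N x :=
  (mul_nonneg h.pos₁.le (norm_nonneg x)).trans (h.low x)

theorem NN.neg (h : NN N c₁ c₂) (x : X) : N (-x) = N x := by
  have := h.smul (-1) x
  rwa [neg_one_smul, abs_neg, abs_one, one_mul] at this

theorem NN.zero (h : NN N c₁ c₂) : N 0 = 0 := by
  have := h.smul 0 0
  rwa [zero_smul, abs_zero, zero_mul] at this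

theorem NN.sub_le (h : NN N c₁ c₂) (x y : X) : N x - N y ≤ c₂ * ‖x - y‖ := by
  have h1 := h.add (x - y) y
  rw [sub_add_cancel] at h1
  have h2 := h.up (x - y)
  linarith

theorem NN.abs_sub_le (h : NN N c₁ c₂) (x y : X) : |N x - N y| ≤ c₂ * ‖x - y‖ := by
  rw [abs_le]
  have h1 := h.sub_le x y
  have h2 := h.sub_le y x
  rw [norm_sub_rev] at h2
  constructor <;> linarith

theorem NN.cont (h : NN N c₁ c₂) : Continuous N := by
  have h1 : LipschitzWith ⟨c₂, h.pos₂.le⟩ N := by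
    refine LipschitzWith.of_dist_le_mul fun x y => ?_
    rw [Real.dist_eq, dist_eq_norm]
    exact h.abs_sub_le x y
  exact h1.continuous

theorem NN.convex (h : NN N c₁ c₂) : ConvexOn ℝ univ N := by
  refine ⟨convex_univ, fun x _ y _ a b ha hb _ => ?_⟩
  refine (h.add _ _).trans ?_
  rw [h.smul, h.smul, abs_of_nonneg ha, abs_of_nonneg hb]
  exact le_rfl

theorem hasDeriv_msq (u : ℝ) : HasDerivAt (fun u : ℝ => (max u 0) ^ 2) (2 * max u 0) u := by
  rw [hasDerivAt_iff_isLittleO_nhds_zero, Asymptotics.isLittleO_iff]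
  intro η hη
  have h1 : ∀ᶠ h : ℝ in 𝓝 0, |h| < η := by
    have h2 : Tendsto (fun h : ℝ => |h|) (𝓝 0) (𝓝 |0|) := continuous_abs.tendsto 0
    rw [abs_zero] at h2
    exact h2.eventually_lt_const hη
  filter_upwards [h1] with h hh
  rw [smul_eq_mul, Real.norm_eq_abs, Real.norm_eq_abs]
  have h2 : 0 ≤ max (u + h) 0 ^ 2 - max u 0 ^ 2 - h * (2 * max u 0) := by
    rcases le_total u 0 with h3 | h3
    · rw [max_eq_right h3]; nlinarith [sq_nonneg (max (u + h) 0)]
    · rw [max_eq_left h3]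
      rcases le_total (u + h) 0 with h4 | h4
      · rw [max_eq_right h4]; nlinarith
      · rw [max_eq_left h4]; nlinarith [sq_nonneg h]
  have h5 : max (u + h) 0 ^ 2 - max u 0 ^ 2 - h * (2 * max u 0) ≤ h ^ 2 := by
    rcases le_total u 0 with h3 | h3
    · rw [max_eq_right h3]
      rcases le_total (u + h) 0 with h4 | h4
      · rw [max_eq_right h4]; nlinarith [sq_nonneg h]
      · rw [max_eq_left h4]; nlinarith
    · rw [max_eq_left h3]
      rcases le_total (u + h) 0 with h4 | h4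
      · rw [max_eq_right h4]; nlinarith [sq_nonneg (u + h)]
      · rw [max_eq_left h4]; nlinarith [sq_nonneg h]
  rw [abs_of_nonneg h2]
  refine h5.trans ?_
  rw [← sq_abs, sq]
  exact mul_le_mul_of_nonneg_right hh.le (abs_nonneg h)

/-- the localising function -/
noncomputable def th (N : X → ℝ) (r : ℝ) (x : X) : ℝ := (max (N x - r) 0) ^ 2

theorem th_convex (h : NN N c₁ c₂) (r : ℝ) : ConvexOn ℝ univ (th N r) := by
  have h1 : ConvexOn ℝ univ (fun x => N x - r) := by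
    have := h.convex.add (convexOn_const (-r) convex_univ)
    refine this.congr ?_
    intro x _
    simp [sub_eq_add_neg]
  have h2 : ConvexOn ℝ univ (fun x => max (N x - r) 0) := h1.sup (convexOn_const 0 convex_univ)
  exact h2.pow (fun x _ => le_max_right _ _) 2

theorem th_cont (h : NN N c₁ c₂) (r : ℝ) : Continuous (th N r) := by
  unfold th
  exact ((h.cont.sub continuous_const).max continuous_const).pow 2

theorem th_gat (h : NN N c₁ c₂) {r : ℝ} (hr : 0 < r) (x : X) :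
    ∃ L : X →L[ℝ] ℝ, ∀ v, HasDerivAt (fun t : ℝ => th N r (x + t • v)) (L v) 0 := by
  by_cases hx : x = 0
  · subst hx
    refine ⟨0, fun v => ?_⟩
    have h1 : (fun t : ℝ => th N r (0 + t • v)) =ᶠ[𝓝 0] fun _ => (0 : ℝ) := by
      have h2 : Continuous (fun t : ℝ => N (0 + t • v)) := h.cont.comp (by fun_prop)
      have h3 : Tendsto (fun t : ℝ => N (0 + t • v)) (𝓝 0) (𝓝 (N (0 + (0:ℝ) • v))) := h2.tendsto 0
      rw [zero_smul, add_zero, h.zero] at h3
      filter_upwards [h3.eventually_lt_const hr] with t ht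
      unfold th
      rw [max_eq_right (by linarith)]
      norm_num
    exact (hasDerivAt_const (0:ℝ) (0:ℝ)).congr_of_eventuallyEq h1
  · obtain ⟨L, hL⟩ := h.gat x hx
    refine ⟨(2 * max (N x - r) 0) • L, fun v => ?_⟩
    have h1 : HasDerivAt (fun t : ℝ => N (x + t • v) - r) (L v) 0 := (hL v).sub_const r
    have h2 := (hasDeriv_msq (N (x + (0:ℝ) • v) - r)).comp (0:ℝ) h1
    rw [zero_smul, add_zero] at h2
    exact h2

theorem norm_eps [CompleteSpace X] (h : NN N c₁ c₂)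
    (hpcp : ∀ C : Set (WeakDual ℝ X), C.Nonempty → Convex ℝ C → IsCompact C →
      ∃ z ∈ C, ∀ ε : ℝ, 0 < ε → ∃ U : Set (WeakDual ℝ X), IsOpen U ∧ z ∈ U ∧ ∀ y ∈ C ∩ U, nrm (y - z) < ε)
    {x₀ : X} (hx₀ : x₀ ≠ 0) {ρ₀ ε : ℝ} (hρ₀ : 0 < ρ₀) (hε : 0 < ε) :
    ∃ x' : X, ‖x' - x₀‖ ≤ ρ₀ ∧ ∃ τ : ℝ, 0 < τ ∧ ∀ y : X, ‖y‖ < τ →
      N (x' + y) + N (x' - y) - 2 * N x' ≤ ε * ‖y‖ := by
  have hc1 := h.pos₁
  have hc2 := h.pos₂
  have hn0 : 0 < ‖x₀‖ := norm_pos_iff.mpr hx₀
  set r := min (c₁ * ‖x₀‖ / 4) (c₁ * ρ₀ / 2) with hr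
  have hr0 : 0 < r := lt_min (by positivity) (by positivity)
  have hr1 : r ≤ c₁ * ‖x₀‖ / 4 := min_le_left _ _
  have hr2 : r ≤ c₁ * ρ₀ / 2 := min_le_right _ _
  set B₂ := 1 + (2 * c₂ + 1) / c₁ with hB₂
  have hB₂0 : 0 < B₂ := by positivity
  set K := 4 * B₂ / r with hK
  have hK0 : 0 < K := by positivity
  let φ : X → ℝ := fun x => N x + K * th N r (x - x₀)
  have hthc : ConvexOn ℝ univ (fun x => th N r (x - x₀)) := by
    refine ⟨convex_univ, fun x _ y _ a b ha hb hab => ?_⟩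
    have h1 := (th_convex h r).2 (mem_univ (x - x₀)) (mem_univ (y - x₀)) ha hb hab
    have h2 : a • x + b • y - x₀ = a • (x - x₀) + b • (y - x₀) := by
      calc a • x + b • y - x₀ = a • x + b • y - (a + b) • x₀ := by rw [hab, one_smul]
        _ = _ := by module
    change th N r (a • x + b • y - x₀) ≤ _
    rw [h2]
    exact h1
  have hφc : ConvexOn ℝ univ φ := h.convex.add (hthc.smul hK0.le)
  have hφcont : Continuous φ :=
    h.cont.add (continuous_const.mul ((th_cont h r).comp (continuous_id.sub continuous_const)))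
  let V : Set X := {x | N (x - x₀) < 2 * r}
  have hVo : IsOpen V := isOpen_lt (h.cont.comp (continuous_id.sub continuous_const)) continuous_const
  have hV0 : ∀ x ∈ V, x ≠ 0 := by
    rintro x hx rfl
    have h1 : N (0 - x₀) < 2 * r := hx
    rw [zero_sub, h.neg] at h1
    have h2 := h.low x₀
    nlinarith
  have hth0 : th N r 0 = 0 := by
    unfold th
    rw [h.zero, max_eq_right (by linarith)]
    norm_num
  have hφ0 : φ x₀ = N x₀ := by
    change N x₀ + K * th N r (x₀ - x₀) = N x₀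
    rw [sub_self, hth0, mul_zero, add_zero]
  have hGφ : ∀ x ∈ V, ∃ L : X →L[ℝ] ℝ, ∀ v, HasDerivAt (fun t : ℝ => φ (x + t • v)) (L v) 0 := by
    intro x hx
    obtain ⟨L, hL⟩ := h.gat x (hV0 x hx)
    obtain ⟨L', hL'⟩ := th_gat h hr0 (x - x₀)
    refine ⟨L + K • L', fun v => ?_⟩
    have h1 := (hL v).add ((hL' v).const_mul K)
    have h2 : ∀ t : ℝ, x - x₀ + t • v = x + t • v - x₀ := fun t => by abel
    simp only [h2] at h1
    exact h1
  have hB : ∀ g : X →L[ℝ] ℝ, (∀ x, φ x₀ + g (x - x₀) - r ≤ φ x) → ‖g‖ ≤ 2 * c₂ := by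
    intro g hg
    have h1 : ∀ v, N v ≤ r → g v ≤ 2 * r := by
      intro v hv
      have h2 := hg (x₀ + v)
      rw [add_sub_cancel_left, hφ0] at h2
      have h3 : φ (x₀ + v) = N (x₀ + v) := by
        change N (x₀ + v) + K * th N r (x₀ + v - x₀) = N (x₀ + v)
        rw [add_sub_cancel_left]
        unfold th
        rw [max_eq_right (by linarith)]
        norm_num
      rw [h3] at h2
      have h4 := h.add x₀ v
      linarith
    have h2 : ∀ v, g v ≤ 2 * c₂ * ‖v‖ := by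
      intro v
      by_cases hv : v = 0
      · simp [hv]
      have hv0 : 0 < ‖v‖ := norm_pos_iff.mpr hv
      have ht : 0 < r / (c₂ * ‖v‖) := by positivity
      have h3 := h1 ((r / (c₂ * ‖v‖)) • v) (by
        rw [h.smul, abs_of_pos ht]
        calc r / (c₂ * ‖v‖) * N v ≤ r / (c₂ * ‖v‖) * (c₂ * ‖v‖) := mul_le_mul_of_nonneg_left (h.up v) ht.le
          _ = r := by field_simp)
      rw [map_smul, smul_eq_mul, div_mul_eq_mul_div, div_le_iff₀ (by positivity)] at h3
      have h4 : r * g v ≤ r * (2 * c₂ * ‖v‖) := by linarith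
      exact le_of_mul_le_mul_left h4 hr0
    refine ContinuousLinearMap.opNorm_le_bound _ (by positivity) fun v => ?_
    rw [Real.norm_eq_abs, abs_le]
    have h3 := h2 v
    have h4 := h2 (-v)
    rw [map_neg, norm_neg] at h4
    constructor <;> linarith
  have hloc : ∀ g : X →L[ℝ] ℝ, (∀ x, φ x₀ + g (x - x₀) - r ≤ φ x) →
      ∀ x', φ x' - g x' ≤ φ x₀ - g x₀ + ‖x' - x₀‖ → x' ∈ V ∧ ‖x' - x₀‖ ≤ ρ₀ := by
    intro g hg x' hx'
    have hgn := hB g hg
    set ρ := N (x' - x₀) with hρ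
    have hlow : c₁ * ‖x' - x₀‖ ≤ ρ := h.low _
    have h1 : N x₀ ≤ N x' + ρ := by
      have h2 := h.add x' (-(x' - x₀))
      have h3 : x' + -(x' - x₀) = x₀ := by abel
      rw [h3, h.neg] at h2
      exact h2
    have h2 : g x' - g x₀ ≤ 2 * c₂ * ‖x' - x₀‖ := by
      rw [← map_sub]
      exact (le_abs_self _).trans ((g.le_opNorm _).trans (mul_le_mul_of_nonneg_right hgn (norm_nonneg _)))
    have h3 : φ x' = N x' + K * th N r (x' - x₀) := rfl
    rw [h3, hφ0] at hx'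
    have h4 : ‖x' - x₀‖ ≤ ρ / c₁ := by rw [le_div_iff₀ hc1]; linarith
    have h5 : K * th N r (x' - x₀) ≤ B₂ * ρ := by
      have h6 : (2 * c₂ + 1) * ‖x' - x₀‖ ≤ (2 * c₂ + 1) * (ρ / c₁) := mul_le_mul_of_nonneg_left h4 (by positivity)
      have h7 : B₂ * ρ = ρ + (2 * c₂ + 1) * (ρ / c₁) := by rw [hB₂]; ring
      rw [h7]
      linarith
    have h6 : ρ < 2 * r := by
      by_contra hge
      push Not at hge
      have h7 : th N r (x' - x₀) = (ρ - r) ^ 2 := by
        unfold th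
        rw [max_eq_left (by rw [← hρ]; linarith)]
      rw [h7] at h5
      have h8 : K * r = 4 * B₂ := by rw [hK]; field_simp
      have h9 : (ρ / 2) ^ 2 ≤ (ρ - r) ^ 2 := pow_le_pow_left₀ (by linarith) (by linarith) 2
      have h10 : K * (ρ / 2) ^ 2 ≤ B₂ * ρ := (mul_le_mul_of_nonneg_left h9 hK0.le).trans h5
      have hρ0 : 0 < ρ := by linarith
      have h11 : K * ρ ≤ 4 * B₂ := by
        have : (K * ρ) * ρ ≤ (4 * B₂) * ρ := by nlinarith
        exact le_of_mul_le_mul_right this hρ0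
      have h12 : K * (2 * r) ≤ K * ρ := mul_le_mul_of_nonneg_left hge hK0.le
      nlinarith
    refine ⟨h6, h4.trans ?_⟩
    rw [div_le_iff₀ hc1]
    linarith
  obtain ⟨x', -, hx'R, τ, hτ, hx'⟩ := eps_frechet hφc hφcont hpcp hVo hGφ
    (show x₀ ∈ V by change N (x₀ - x₀) < 2 * r; rw [sub_self, h.zero]; positivity) hr0 hB hloc hε
  refine ⟨x', hx'R, τ, hτ, fun y hy => ?_⟩
  have h1 := hx' y hy
  have h2 : 0 ≤ th N r (x' + y - x₀) + th N r (x' - y - x₀) - 2 * th N r (x' - x₀) := by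
    have h3 := hthc.2 (mem_univ (x' + y)) (mem_univ (x' - y)) (by norm_num : (0:ℝ) ≤ 1 / 2)
      (by norm_num : (0:ℝ) ≤ 1 / 2) (by norm_num)
    have h4 : (1 / 2 : ℝ) • (x' + y) + (1 / 2 : ℝ) • (x' - y) = x' := by module
    simp only [h4, smul_eq_mul] at h3
    linarith
  have h3 : φ (x' + y) + φ (x' - y) - 2 * φ x' = (N (x' + y) + N (x' - y) - 2 * N x') +
      K * (th N r (x' + y - x₀) + th N r (x' - y - x₀) - 2 * th N r (x' - x₀)) := by
    change (N (x' + y) + K * th N r (x' + y - x₀)) + (N (x' - y) + K * th N r (x' - y - x₀)) -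
      2 * (N x' + K * th N r (x' - x₀)) = _
    ring
  rw [h3] at h1
  have h4 := mul_nonneg hK0.le h2
  linarith

theorem exists_frechet [CompleteSpace X] [Nontrivial X] (h : NN N c₁ c₂)
    (hpcp : ∀ C : Set (WeakDual ℝ X), C.Nonempty → Convex ℝ C → IsCompact C →
      ∃ z ∈ C, ∀ ε : ℝ, 0 < ε → ∃ U : Set (WeakDual ℝ X), IsOpen U ∧ z ∈ U ∧ ∀ y ∈ C ∩ U, nrm (y - z) < ε) :
    ∃ z : X, z ≠ 0 ∧ DifferentiableAt ℝ N z := by
  have hc2 := h.pos₂
  let O : ℕ → Set X := fun n => {x | ∃ t : ℝ, 0 < t ∧ ∃ a : ℝ, a < 1 / ((n : ℝ) + 1) ∧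
    ∀ y : X, ‖y‖ ≤ 1 → N (x + t • y) + N (x - t • y) - 2 * N x ≤ a * t}
  have hOo : ∀ n, IsOpen (O n) := by
    intro n
    rw [Metric.isOpen_iff]
    rintro x ⟨t, ht, a, ha, hx⟩
    obtain ⟨a', ha1, ha2⟩ := exists_between ha
    refine ⟨(a' - a) * t / (4 * c₂), by
      have : 0 < a' - a := by linarith
      positivity, fun x1 hx1 => ⟨t, ht, a', ha2, fun y hy => ?_⟩⟩
    rw [Metric.mem_ball, dist_eq_norm, lt_div_iff₀ (by positivity)] at hx1
    have h1 := hx y hy
    have h2 := h.sub_le (x1 + t • y) (x + t • y)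
    have h3 := h.sub_le (x1 - t • y) (x - t • y)
    have h4 := h.sub_le x x1
    rw [add_sub_add_right_eq_sub] at h2
    rw [sub_sub_sub_cancel_right] at h3
    rw [norm_sub_rev] at h4
    nlinarith
  have hOd : ∀ n, Dense (O n) := by
    intro n
    have h1 : Dense ({0}ᶜ : Set X) := dense_compl_singleton 0
    rw [← dense_closure]
    refine h1.mono fun x₀ hx₀ => ?_
    rw [Metric.mem_closure_iff]
    intro ρ hρ
    obtain ⟨x', hx'1, τ, hτ, hx'2⟩ := norm_eps h hpcp (x₀ := x₀) hx₀ (show 0 < ρ / 2 by positivity)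
      (show (0:ℝ) < 1 / ((n : ℝ) + 1) / 2 by positivity)
    refine ⟨x', ⟨τ / 2, by positivity, 1 / ((n : ℝ) + 1) / 2, ?_, fun y hy => ?_⟩, ?_⟩
    · have : (0:ℝ) < 1 / ((n : ℝ) + 1) := by positivity
      linarith
    · have h2 : ‖(τ / 2) • y‖ ≤ τ / 2 := by
        rw [norm_smul, Real.norm_of_nonneg (by positivity)]
        nlinarith
      refine (hx'2 _ (by linarith)).trans ?_
      exact mul_le_mul_of_nonneg_left h2 (by positivity)
    · rw [dist_comm, dist_eq_norm]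
      linarith
  have hBaire := (dense_iInter_of_isOpen_nat hOo hOd).inter_of_isOpen_right (dense_compl_singleton (0 : X))
    isOpen_compl_singleton
  obtain ⟨z, hzO, hz0⟩ := hBaire.nonempty
  refine ⟨z, hz0, ?_⟩
  obtain ⟨L, hL⟩ := h.gat z hz0
  have hsub := subgrad h.convex hL
  have hfd : HasFDerivAt N L z := by
    rw [hasFDerivAt_iff_isLittleO_nhds_zero, Asymptotics.isLittleO_iff]
    intro η hη
    obtain ⟨n, hn⟩ := exists_nat_one_div_lt hη
    obtain ⟨t, ht, a, ha, hx⟩ := mem_iInter.mp hzO n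
    have ha0 : a ≤ η := by linarith
    filter_upwards [Metric.ball_mem_nhds (0 : X) ht] with y hy
    rw [mem_ball_zero_iff] at hy
    have h1 := hsub (z + y)
    have h2 := hsub (z - y)
    rw [add_sub_cancel_left] at h1
    rw [sub_sub_cancel_left, map_neg] at h2
    have h3 : 0 ≤ N (z + y) - N z - L y := by linarith
    rw [Real.norm_of_nonneg h3]
    by_cases hy0 : y = 0
    · subst hy0; simp
    have hyn : 0 < ‖y‖ := norm_pos_iff.mpr hy0
    -- compare with the scale t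
    have h4 := hx (‖y‖⁻¹ • y) (by rw [norm_smul, norm_inv, norm_norm, inv_mul_cancel₀ hyn.ne'])
    set s := ‖y‖ / t with hs
    have hs0 : 0 ≤ s := by positivity
    have hs1 : s ≤ 1 := by rw [hs, div_le_one ht]; exact hy.le
    have hst : s * t = ‖y‖ := by rw [hs]; field_simp
    have hyeq : y = s • (t • (‖y‖⁻¹ • y)) := by
      rw [smul_smul, hst, smul_smul, mul_inv_cancel₀ hyn.ne', one_smul]
    have h5 : ∀ w : X, N (z + s • w) ≤ (1 - s) * N z + s * N (z + w) := by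
      intro w
      have h6 := h.convex.2 (mem_univ z) (mem_univ (z + w)) (show 0 ≤ 1 - s by linarith) hs0 (by ring)
      have h7 : (1 - s) • z + s • (z + w) = z + s • w := by module
      rw [h7] at h6
      exact h6
    have h6 := h5 (t • (‖y‖⁻¹ • y))
    have h7 := h5 (-(t • (‖y‖⁻¹ • y)))
    rw [← hyeq] at h6
    rw [smul_neg, ← hyeq, ← sub_eq_add_neg, ← sub_eq_add_neg] at h7
    have h8 := mul_le_mul_of_nonneg_left h4 hs0
    have h9 : s * (a * t) = a * ‖y‖ := by rw [← hst]; ring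
    have h10 : a * ‖y‖ ≤ η * ‖y‖ := mul_le_mul_of_nonneg_right ha0 hyn.le
    nlinarith
  exact hfd.differentiableAt

end Pool.Agent.H345R3.WCG
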